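import Pool.Agent.Lib.MP_7bb85c_nt.Cf

/-! Best approximation, Legendre's criterion and the counting of good approximations. -/

set_option autoImplicit false

namespace Pool.Agent.Lib.MP_7bb85c_nt

/-- `1 / |q_n α - p_n|`. -/
noncomputable def DD (α : ℝ) (n : ℕ) : ℝ := cq α (n + 1) * QQ α (n + 1) + QQ α n

lemma QR_pos {α : ℝ} (h : Irrational α) (n : ℕ) : (1 : ℝ) ≤ QQ α (n + 1) := by
  exact_mod_cast (QQ_pos h n).1

lemma QR_nonneg {α : ℝ} (h : Irrational α) (n : ℕ) : (0 : ℝ) ≤ QQ α n := by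
  exact_mod_cast (QQ_pos h n).2

lemma DD_ge {α : ℝ} (h : Irrational α) (n : ℕ) : (QQ α (n + 2) : ℝ) ≤ DD α n := by
  have hq : (QQ α (n + 2) : ℝ) = pa α (n + 1) * QQ α (n + 1) + QQ α n := by
    show ((pa α (n + 1) * QQ α (n + 1) + QQ α n : ℤ) : ℝ) = _
    push_cast
    ring
  rw [hq]
  unfold DD
  have h1 := QR_pos h n
  have h2 := pa_le α (n + 1)
  nlinarith

lemma DD_pos {α : ℝ} (h : Irrational α) (n : ℕ) : 0 < DD α n := by
  have := DD_ge h n
  have h1 := QR_pos h (n + 1)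
  linarith

lemma DD_le {α : ℝ} (h : Irrational α) (n : ℕ) :
    DD α n ≤ (pa α (n + 1) + 2) * QQ α (n + 1) := by
  unfold DD
  have h1 := QR_pos h n
  have h2 := (lt_pa α (n + 1)).le
  have h3 : (QQ α n : ℝ) ≤ QQ α (n + 1) := by exact_mod_cast QQ_mono h n
  nlinarith

lemma DD_ge' {α : ℝ} (h : Irrational α) (n : ℕ) :
    pa α (n + 1) * (QQ α (n + 1) : ℝ) ≤ DD α n := by
  unfold DD
  have h1 := QR_pos h n
  have h2 := pa_le α (n + 1)
  have h3 := QR_nonneg h n
  nlinarith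

lemma err_DD {α : ℝ} (h : Irrational α) (n : ℕ) :
    (QQ α (n + 1) : ℝ) * α - PP α (n + 1) = (-1) ^ n * (1 / DD α n) := by
  have h1 := err_eq h n
  have h2 := DD_pos h n
  rw [mul_one_div, eq_div_iff h2.ne']
  exact h1

lemma abs_err {α : ℝ} (h : Irrational α) (n : ℕ) :
    |(QQ α (n + 1) : ℝ) * α - PP α (n + 1)| = 1 / DD α n := by
  rw [err_DD h n, abs_mul, abs_pow, abs_neg, abs_one, one_pow, one_mul]
  exact abs_of_pos (one_div_pos.mpr (DD_pos h n))

lemma PQ_coprime (α : ℝ) (n : ℕ) : IsCoprime (PP α (n + 1)) (QQ α (n + 1)) := by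
  have h1 := det_eq α n
  rcases neg_one_pow_eq_or ℤ (n + 1) with h2 | h2
  · rw [h2] at h1
    exact ⟨QQ α n, -PP α n, by linarith⟩
  · rw [h2] at h1
    exact ⟨-QQ α n, PP α n, by linarith⟩

/-- Best approximation. -/
lemma best {α : ℝ} (h : Irrational α) (n : ℕ) (u v : ℤ) (hv : 1 ≤ v)
    (hv2 : v < QQ α (n + 2)) : 1 / DD α n ≤ |(v : ℝ) * α - u| := by
  have hd := det_eq α (n + 1)
  set p := PP α (n + 1) with hp
  set q := QQ α (n + 1) with hq
  set p' := PP α (n + 2) with hp'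
  set q' := QQ α (n + 2) with hq'
  change p' * q - p * q' = (-1) ^ (n + 2) at hd
  set s : ℤ := (-1) ^ (n + 2) with hs
  have hss : s * s = 1 := by
    rw [hs, ← mul_pow]; norm_num
  set x : ℤ := s * (p' * v - u * q') with hx
  set y : ℤ := s * (u * q - p * v) with hy
  have e1 : x * q + y * q' = v := by
    calc x * q + y * q' = s * (p' * q - p * q') * v := by rw [hx, hy]; ring
      _ = v := by rw [hd, hss, one_mul]
  have e2 : x * p + y * p' = u := by
    calc x * p + y * p' = s * (p' * q - p * q') * u := by rw [hx, hy]; ring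
      _ = u := by rw [hd, hss, one_mul]
  have hqpos : 1 ≤ q := (QQ_pos h n).1
  have hqpos' : 1 ≤ q' := (QQ_pos h (n + 1)).1
  have er0 : (q : ℝ) * α - p = (-1) ^ n * (1 / DD α n) := err_DD h n
  have er1 : (q' : ℝ) * α - p' = (-1) ^ (n + 1) * (1 / DD α (n + 1)) := err_DD h (n + 1)
  have key : (v : ℝ) * α - u = (-1) ^ n * (x * (1 / DD α n) - y * (1 / DD α (n + 1))) := by
    have e1' : (v : ℝ) = x * q + y * q' := by exact_mod_cast e1.symm
    have e2' : (u : ℝ) = x * p + y * p' := by exact_mod_cast e2.symm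
    calc (v : ℝ) * α - u = x * (q * α - p) + y * (q' * α - p') := by rw [e1', e2']; ring
      _ = _ := by rw [er0, er1, pow_succ]; ring
  have d0 : 0 < 1 / DD α n := one_div_pos.mpr (DD_pos h n)
  have d1 : 0 < 1 / DD α (n + 1) := one_div_pos.mpr (DD_pos h (n + 1))
  rw [key, abs_mul, abs_pow, abs_neg, abs_one, one_pow, one_mul]
  rcases lt_trichotomy y 0 with hy0 | hy0 | hy0
  · have hx1 : 1 ≤ x := by
      by_contra hcon
      have : x ≤ 0 := by linarith
      nlinarith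
    have hx1' : (1 : ℝ) ≤ x := by exact_mod_cast hx1
    have hy1' : (y : ℝ) ≤ 0 := by exact_mod_cast hy0.le
    refine le_trans ?_ (le_abs_self _)
    nlinarith
  · have hx1 : 1 ≤ x := by
      by_contra hcon
      have : x ≤ 0 := by linarith
      rw [hy0] at e1
      nlinarith
    have hx1' : (1 : ℝ) ≤ x := by exact_mod_cast hx1
    rw [hy0]
    refine le_trans ?_ (le_abs_self _)
    push_cast
    nlinarith
  · have hx1 : x ≤ -1 := by
      by_contra hcon
      have : 0 ≤ x := by linarith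
      nlinarith
    have hx1' : (x : ℝ) ≤ -1 := by exact_mod_cast hx1
    have hy1' : (0 : ℝ) ≤ y := by exact_mod_cast hy0.le
    refine le_trans ?_ (neg_le_abs _)
    nlinarith

/-- Two coprime vectors on the same line. -/
lemma prim_eq {u v u' v' : ℤ} (h : IsCoprime u v) (h' : IsCoprime u' v') (hv : 1 ≤ v)
    (hv' : 1 ≤ v') (hd : u * v' = u' * v) : u = u' ∧ v = v' := by
  have h1 : v ∣ v' := by
    have : v ∣ u * v' := ⟨u', by rw [hd]; ring⟩
    exact h.symm.dvd_of_dvd_mul_left this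
  have h2 : v' ∣ v := by
    have : v' ∣ u' * v := ⟨u, by rw [← hd]; ring⟩
    exact h'.symm.dvd_of_dvd_mul_left this
  have h3 : v = v' := Int.dvd_antisymm (by linarith) (by linarith) h1 h2
  subst h3
  refine ⟨?_, rfl⟩
  have : (0 : ℤ) < v := by linarith
  exact mul_right_cancel₀ this.ne' hd

/-- The block of `v`. -/
lemma block {α : ℝ} (h : Irrational α) (v : ℤ) (hv : 1 ≤ v) :
    ∃ n, QQ α (n + 1) ≤ v ∧ v < QQ α (n + 2) := by
  have hex : ∃ n, v < QQ α (n + 1) := by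
    have h1 := QQ_pow h 0 v.toNat
    refine ⟨2 * v.toNat, ?_⟩
    have h2 : QQ α (0 + 1) = 1 := rfl
    rw [h2, mul_one] at h1
    have h3 : (v.toNat : ℤ) = v := Int.toNat_of_nonneg (by linarith)
    have h4 : ((v.toNat : ℕ) : ℤ) < 2 ^ v.toNat := by
      exact_mod_cast Nat.lt_two_pow_self
    have h5 : 0 + 1 + 2 * v.toNat = 2 * v.toNat + 1 := by ring
    rw [h5] at h1
    linarith
  classical
  set m := Nat.find hex with hm
  have h1 : v < QQ α (m + 1) := Nat.find_spec hex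
  have h2 : m ≠ 0 := by
    intro h0
    rw [h0] at h1
    have : QQ α (0 + 1) = 1 := rfl
    linarith
  obtain ⟨k, hk⟩ := Nat.exists_eq_succ_of_ne_zero h2
  refine ⟨k, ?_, ?_⟩
  · have : ¬ (v < QQ α (k + 1)) := Nat.find_min hex (by omega)
    linarith
  · rw [hk] at h1
    exact h1

/-- A determinant smaller than one in absolute value. -/
lemma det_zero {α : ℝ} {u v u' v' : ℤ} (hd : (v : ℝ) * |(v' : ℝ) * α - u'| +
    v' * |(v : ℝ) * α - u| < 1) (hv : 0 ≤ v) (hv' : 0 ≤ v') : u * v' = u' * v := by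
  have h1 : |((u * v' - u' * v : ℤ) : ℝ)| < 1 := by
    have e : ((u * v' - u' * v : ℤ) : ℝ) = v * (v' * α - u') - v' * (v * α - u) := by
      push_cast; ring
    have a1 : (0 : ℝ) ≤ v := by exact_mod_cast hv
    have a2 : (0 : ℝ) ≤ v' := by exact_mod_cast hv'
    rw [e]
    calc |(v : ℝ) * (v' * α - u') - v' * (v * α - u)|
        ≤ |(v : ℝ) * (v' * α - u')| + |v' * (v * α - u)| := abs_sub _ _
      _ = (v : ℝ) * |(v' : ℝ) * α - u'| + v' * |(v : ℝ) * α - u| := by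
          rw [abs_mul, abs_mul, abs_of_nonneg a1, abs_of_nonneg a2]
      _ < 1 := hd
  have h2 : |u * v' - u' * v| < 1 := by
    rw [← Int.cast_abs] at h1
    exact_mod_cast h1
  have h3 := Int.abs_lt_one_iff.mp h2
  linarith

/-- Legendre's criterion. -/
lemma legendre {α : ℝ} (h : Irrational α) {u v : ℤ} (huv : IsCoprime u v) (hv : 1 ≤ v)
    (hq : (v : ℝ) * |(v : ℝ) * α - u| < 1 / 4) :
    ∃ n, u = PP α (n + 1) ∧ v = QQ α (n + 1) := by
  obtain ⟨n, hn1, hn2⟩ := block h v hv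
  have hb := best h n u v hv hn2
  refine ⟨n, ?_⟩
  have hvR : (1 : ℝ) ≤ v := by exact_mod_cast hv
  have hqR := QR_pos h n
  have hqv : (QQ α (n + 1) : ℝ) ≤ v := by exact_mod_cast hn1
  apply prim_eq huv (PQ_coprime α n) hv (QQ_pos h n).1
  apply det_zero (α := α) _ (by linarith) (by linarith [(QQ_pos h n).1])
  rw [abs_err h n]
  have h1 : (v : ℝ) * (1 / DD α n) ≤ v * |(v : ℝ) * α - u| := by
    apply mul_le_mul_of_nonneg_left hb; linarith
  have h2 : (QQ α (n + 1) : ℝ) * |(v : ℝ) * α - u| ≤ v * |(v : ℝ) * α - u| :=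
    mul_le_mul_of_nonneg_right hqv (abs_nonneg _)
  linarith

/-- Every approximation of quality `c` is in the window of a convergent. -/
lemma window {α : ℝ} (h : Irrational α) {c B : ℝ} (hc : 0 < c) (hB : 1 + c ≤ B) {u v : ℤ}
    (huv : IsCoprime u v) (hv : 1 ≤ v) (hq : (v : ℝ) * |(v : ℝ) * α - u| < c) :
    ∃ n, QQ α n ≤ v ∧ (QQ α (n + 1) : ℝ) / B ≤ v ∧ (v : ℝ) < B * QQ α (n + 1) := by
  obtain ⟨n, hn1, hn2⟩ := block h v hv
  have hvR : (1 : ℝ) ≤ v := by exact_mod_cast hv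
  have hqR := QR_pos h n
  have hqv : (QQ α (n + 1) : ℝ) ≤ v := by exact_mod_cast hn1
  have hvq : (v : ℝ) < QQ α (n + 2) := by exact_mod_cast hn2
  have hB0 : 0 < B := by linarith
  have hqR2 := QR_pos h (n + 1)
  by_cases hcase : (v : ℝ) < B * QQ α (n + 1)
  · refine ⟨n, le_trans (QQ_mono h n) hn1, ?_, hcase⟩
    rw [div_le_iff₀ hB0]
    nlinarith
  push Not at hcase
  refine ⟨n + 1, hn1, ?_, ?_⟩
  swap
  · nlinarith
  by_contra hcon
  push Not at hcon
  rw [lt_div_iff₀ hB0] at hcon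
  have hD := DD_ge h n
  have hDpos := DD_pos h n
  have hpar : u * QQ α (n + 1) = PP α (n + 1) * v := by
    apply det_zero (α := α) _ (by linarith) (by linarith [(QQ_pos h n).1])
    rw [abs_err h n]
    have h1 : (v : ℝ) * (1 / DD α n) < 1 / B := by
      rw [mul_one_div, div_lt_div_iff₀ hDpos hB0]
      have : (QQ α (n + 1 + 1) : ℝ) ≤ DD α n := hD
      linarith
    have h2 : (QQ α (n + 1) : ℝ) * |(v : ℝ) * α - u| ≤ c / B := by
      rw [le_div_iff₀ hB0]
      calc (QQ α (n + 1) : ℝ) * |(v : ℝ) * α - u| * B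
          = (B * QQ α (n + 1)) * |(v : ℝ) * α - u| := by ring
        _ ≤ v * |(v : ℝ) * α - u| := mul_le_mul_of_nonneg_right hcase (abs_nonneg _)
        _ ≤ c := hq.le
    have h3 : 1 / B + c / B ≤ 1 := by
      rw [← add_div, div_le_one hB0]; exact hB
    linarith
  have h5 := prim_eq huv (PQ_coprime α n) hv (QQ_pos h n).1 hpar
  have h6 : (v : ℝ) = QQ α (n + 1) := by exact_mod_cast h5.2
  rw [h6] at hcase
  nlinarith

/-- Counting in a window. -/
lemma count (α : ℝ) {c V ρ : ℝ} (hV : 0 < V) (s : Finset (ℤ × ℤ))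
    (hs : ∀ w ∈ s, IsCoprime w.1 w.2 ∧ V ≤ w.2 ∧ (w.2 : ℝ) < ρ * V ∧
      (w.2 : ℝ) * |(w.2 : ℝ) * α - w.1| < c) :
    s.card ≤ (2 * ⌈2 * ρ * c⌉₊ + 1) * (⌈ρ⌉₊ + 1) := by
  classical
  rcases s.eq_empty_or_nonempty with h0 | ⟨w0, hw0⟩
  · rw [h0]; simp
  obtain ⟨hc0, hV0, hV0', hq0⟩ := hs w0 hw0
  set L : ℕ := ⌈2 * ρ * c⌉₊ with hL
  set R : ℕ := ⌈ρ⌉₊ with hR
  set t : Finset (ℤ × ℤ) := Finset.Icc (-(L : ℤ)) L ×ˢ Finset.Icc (0 : ℤ) R with ht
  have htc : t.card = (2 * L + 1) * (R + 1) := by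
    rw [ht, Finset.card_product, Int.card_Icc, Int.card_Icc]
    have h1 : ((L : ℤ) + 1 - -(L : ℤ)).toNat = 2 * L + 1 := by omega
    have h2 : ((R : ℤ) + 1 - 0).toNat = R + 1 := by omega
    rw [h1, h2]
  rw [← htc]
  apply Finset.card_le_card_of_injOn (fun w => (w0.1 * w.2 - w0.2 * w.1, ⌊(w.2 : ℝ) / V⌋))
  · intro w hw
    have hw' : w ∈ s := hw
    obtain ⟨hc1, hV1, hV1', hq1⟩ := hs w hw'
    have hw0pos : 0 < (w0.2 : ℝ) := by linarith
    have hwpos : 0 < (w.2 : ℝ) := by linarith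
    have hρ : 1 < ρ := by
      by_contra hcon
      push Not at hcon
      nlinarith
    have hc : 0 < c := lt_of_le_of_lt (by positivity) hq1
    rw [ht]
    simp only [Finset.coe_product, Finset.coe_Icc, Set.mem_prod, Set.mem_Icc]
    have hdet : |((w0.1 * w.2 - w0.2 * w.1 : ℤ) : ℝ)| ≤ 2 * ρ * c := by
      have e : ((w0.1 * w.2 - w0.2 * w.1 : ℤ) : ℝ) =
          w0.2 * (w.2 * α - w.1) - w.2 * (w0.2 * α - w0.1) := by
        push_cast; ring
      rw [e]
      have b1 : (w0.2 : ℝ) * |(w.2 : ℝ) * α - w.1| ≤ ρ * c := by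
        have : (w0.2 : ℝ) ≤ ρ * w.2 := by nlinarith
        calc (w0.2 : ℝ) * |(w.2 : ℝ) * α - w.1| ≤ ρ * w.2 * |(w.2 : ℝ) * α - w.1| :=
              mul_le_mul_of_nonneg_right this (abs_nonneg _)
          _ = ρ * (w.2 * |(w.2 : ℝ) * α - w.1|) := by ring
          _ ≤ ρ * c := mul_le_mul_of_nonneg_left hq1.le (by linarith)
      have b2 : (w.2 : ℝ) * |(w0.2 : ℝ) * α - w0.1| ≤ ρ * c := by
        have : (w.2 : ℝ) ≤ ρ * w0.2 := by nlinarith
        calc (w.2 : ℝ) * |(w0.2 : ℝ) * α - w0.1| ≤ ρ * w0.2 * |(w0.2 : ℝ) * α - w0.1| :=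
              mul_le_mul_of_nonneg_right this (abs_nonneg _)
          _ = ρ * (w0.2 * |(w0.2 : ℝ) * α - w0.1|) := by ring
          _ ≤ ρ * c := mul_le_mul_of_nonneg_left hq0.le (by linarith)
      calc |(w0.2 : ℝ) * (w.2 * α - w.1) - w.2 * (w0.2 * α - w0.1)|
          ≤ |(w0.2 : ℝ) * (w.2 * α - w.1)| + |(w.2 : ℝ) * (w0.2 * α - w0.1)| := abs_sub _ _
        _ = (w0.2 : ℝ) * |(w.2 : ℝ) * α - w.1| + w.2 * |(w0.2 : ℝ) * α - w0.1| := by
            rw [abs_mul, abs_mul, abs_of_pos hw0pos, abs_of_pos hwpos]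
        _ ≤ 2 * ρ * c := by linarith
    have hdetL : |w0.1 * w.2 - w0.2 * w.1| ≤ (L : ℤ) := by
      have h1 : (2 * ρ * c) ≤ (L : ℝ) := Nat.le_ceil _
      have h2 : ((|w0.1 * w.2 - w0.2 * w.1| : ℤ) : ℝ) ≤ ((L : ℤ) : ℝ) := by
        rw [Int.cast_abs]
        push_cast at hdet ⊢
        linarith
      exact_mod_cast h2
    refine ⟨abs_le.mp hdetL, ?_, ?_⟩
    · exact Int.floor_nonneg.mpr (by positivity)
    · have h1 : (w.2 : ℝ) / V < ρ := by rw [div_lt_iff₀ hV]; exact hV1'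
      have h2 : ρ ≤ (R : ℝ) := Nat.le_ceil _
      have h3 : (⌊(w.2 : ℝ) / V⌋ : ℝ) ≤ (R : ℝ) := by
        have := Int.floor_le ((w.2 : ℝ) / V)
        linarith
      exact_mod_cast h3
  · intro w hw w' hw' heq
    have hw1 : w ∈ s := hw
    have hw1' : w' ∈ s := hw'
    obtain ⟨hc1, hV1, hV1', hq1⟩ := hs w hw1
    obtain ⟨hc2, hV2, hV2', hq2⟩ := hs w' hw1'
    simp only [Prod.mk.injEq] at heq
    obtain ⟨hd, hf⟩ := heq
    have hsub : w0.1 * (w.2 - w'.2) = w0.2 * (w.1 - w'.1) := by linarith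
    have hdvd : w0.2 ∣ w.2 - w'.2 := by
      have : w0.2 ∣ w0.1 * (w.2 - w'.2) := ⟨w.1 - w'.1, hsub⟩
      exact hc0.symm.dvd_of_dvd_mul_left this
    have hsmall : |((w.2 : ℝ) - w'.2)| < V := by
      have a1 := Int.floor_le ((w.2 : ℝ) / V)
      have a2 := Int.lt_floor_add_one ((w.2 : ℝ) / V)
      have a3 := Int.floor_le ((w'.2 : ℝ) / V)
      have a4 := Int.lt_floor_add_one ((w'.2 : ℝ) / V)
      rw [← hf] at a3 a4
      rw [le_div_iff₀ hV] at a1 a3
      rw [div_lt_iff₀ hV] at a2 a4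
      rw [abs_lt]
      constructor <;> nlinarith
    have hz : w.2 - w'.2 = 0 := by
      apply Int.eq_zero_of_abs_lt_dvd hdvd
      have : (|w.2 - w'.2| : ℤ) < w0.2 := by
        have h1 : ((|w.2 - w'.2| : ℤ) : ℝ) < ((w0.2 : ℤ) : ℝ) := by
          rw [Int.cast_abs]
          push_cast
          linarith
        exact_mod_cast h1
      exact this
    have hw02 : w0.2 ≠ 0 := by
      intro h0
      have h1 : (w0.2 : ℝ) = 0 := by exact_mod_cast h0
      linarith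
    have hz1 : w.1 - w'.1 = 0 := by
      rw [hz, mul_zero] at hsub
      rcases mul_eq_zero.mp hsub.symm with h1 | h1
      · exact absurd h1 hw02
      · exact h1
    ext
    · linarith
    · linarith

end Pool.Agent.Lib.MP_7bb85c_nt
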