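import Mathlib

/-! Continued fractions of an irrational number: complete quotients, convergents and the basic
estimates, from scratch. -/

set_option autoImplicit false

namespace Pool.Agent.Lib.MP_7bb85c_nt

/-- The complete quotients. -/
noncomputable def cq (α : ℝ) : ℕ → ℝ
  | 0 => α
  | n + 1 => (Int.fract (cq α n))⁻¹

/-- The partial quotients. -/
noncomputable def pa (α : ℝ) (n : ℕ) : ℤ := ⌊cq α n⌋

/-- Numerators, `PP (n+1)` is the numerator of the `n`-th convergent. -/
noncomputable def PP (α : ℝ) : ℕ → ℤ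
  | 0 => 1
  | 1 => pa α 0
  | n + 2 => pa α (n + 1) * PP α (n + 1) + PP α n

/-- Denominators, `QQ (n+1)` is the denominator of the `n`-th convergent. -/
noncomputable def QQ (α : ℝ) : ℕ → ℤ
  | 0 => 0
  | 1 => 1
  | n + 2 => pa α (n + 1) * QQ α (n + 1) + QQ α n

lemma cq_irr {α : ℝ} (h : Irrational α) (n : ℕ) : Irrational (cq α n) := by
  induction n with
  | zero => exact h
  | succ n ih =>
    show Irrational (Int.fract (cq α n))⁻¹
    rw [irrational_inv_iff]
    show Irrational (cq α n - (⌊cq α n⌋ : ℝ))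
    exact ih.sub_intCast _

lemma fract_pos {α : ℝ} (h : Irrational α) (n : ℕ) : 0 < Int.fract (cq α n) := by
  have h1 := Int.fract_nonneg (cq α n)
  rcases h1.lt_or_eq with h2 | h2
  · exact h2
  · exfalso
    have h3 := cq_irr h n
    apply h3
    refine ⟨(⌊cq α n⌋ : ℤ), ?_⟩
    have := Int.self_sub_floor (cq α n)
    rw [← h2] at this
    push_cast
    linarith

lemma cq_gt {α : ℝ} (h : Irrational α) (n : ℕ) : 1 < cq α (n + 1) := by
  show 1 < (Int.fract (cq α n))⁻¹
  exact (one_lt_inv₀ (fract_pos h n)).mpr (Int.fract_lt_one _)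

lemma pa_pos {α : ℝ} (h : Irrational α) (n : ℕ) : 1 ≤ pa α (n + 1) := by
  unfold pa
  rw [Int.le_floor]
  have := cq_gt h n
  push_cast
  linarith

lemma pa_le (α : ℝ) (n : ℕ) : (pa α n : ℝ) ≤ cq α n := Int.floor_le _

lemma lt_pa (α : ℝ) (n : ℕ) : cq α n < pa α n + 1 := Int.lt_floor_add_one _

lemma cq_eq {α : ℝ} (_h : Irrational α) (n : ℕ) : cq α n = pa α n + 1 / cq α (n + 1) := by
  have h1 : cq α (n + 1) = (Int.fract (cq α n))⁻¹ := rfl
  rw [h1, one_div, inv_inv]
  exact (Int.floor_add_fract _).symm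

lemma QQ_pos {α : ℝ} (h : Irrational α) (n : ℕ) : 1 ≤ QQ α (n + 1) ∧ 0 ≤ QQ α n := by
  induction n with
  | zero => exact ⟨le_refl (1 : ℤ), le_refl (0 : ℤ)⟩
  | succ n ih =>
    refine ⟨?_, by linarith [ih.1]⟩
    show 1 ≤ pa α (n + 1) * QQ α (n + 1) + QQ α n
    have h1 := pa_pos h n
    nlinarith [ih.1, ih.2]

lemma QQ_mono {α : ℝ} (h : Irrational α) (n : ℕ) : QQ α n ≤ QQ α (n + 1) := by
  cases n with
  | zero => exact (zero_le_one : (0 : ℤ) ≤ 1)
  | succ n =>
    show QQ α (n + 1) ≤ pa α (n + 1) * QQ α (n + 1) + QQ α n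
    have h1 := pa_pos h n
    have h2 := QQ_pos h n
    nlinarith [h2.1, h2.2]

lemma QQ_monotone {α : ℝ} (h : Irrational α) : Monotone (QQ α) :=
  monotone_nat_of_le_succ (QQ_mono h)

lemma QQ_two {α : ℝ} (h : Irrational α) (n : ℕ) : 2 * QQ α (n + 1) ≤ QQ α (n + 3) := by
  show 2 * QQ α (n + 1) ≤ pa α (n + 2) * QQ α (n + 2) + QQ α (n + 1)
  have h1 := pa_pos h (n + 1)
  have h2 := QQ_pos h (n + 1)
  have h3 := QQ_mono h (n + 1)
  nlinarith [h2.1, h2.2]

lemma QQ_pow {α : ℝ} (h : Irrational α) (n r : ℕ) : 2 ^ r * QQ α (n + 1) ≤ QQ α (n + 1 + 2 * r) := by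
  induction r with
  | zero => simp
  | succ r ih =>
    have h1 := QQ_two h (n + 2 * r)
    have e1 : n + 2 * r + 1 = n + 1 + 2 * r := by ring
    have e2 : n + 2 * r + 3 = n + 1 + 2 * (r + 1) := by ring
    rw [e1, e2] at h1
    calc (2 : ℤ) ^ (r + 1) * QQ α (n + 1) = 2 * (2 ^ r * QQ α (n + 1)) := by ring
      _ ≤ 2 * QQ α (n + 1 + 2 * r) := by linarith
      _ ≤ _ := h1

/-- The determinant. -/
lemma det_eq (α : ℝ) (n : ℕ) :
    PP α (n + 1) * QQ α n - PP α n * QQ α (n + 1) = (-1) ^ (n + 1) := by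
  induction n with
  | zero => simp [PP, QQ]
  | succ n ih =>
    show (pa α (n + 1) * PP α (n + 1) + PP α n) * QQ α (n + 1) -
      PP α (n + 1) * (pa α (n + 1) * QQ α (n + 1) + QQ α n) = (-1) ^ (n + 2)
    rw [pow_succ, ← ih]
    ring

/-- `q_n α - p_n`, exactly. -/
lemma err_eq {α : ℝ} (h : Irrational α) (n : ℕ) :
    (QQ α (n + 1) * α - PP α (n + 1)) * (cq α (n + 1) * QQ α (n + 1) + QQ α n) = (-1) ^ n := by
  induction n with
  | zero =>
    have h1 := cq_eq h 0
    have h2 : cq α 1 ≠ 0 := by have := cq_gt h 0; positivity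
    have h3 : cq α 0 = α := rfl
    have h4 : PP α 1 = pa α 0 := rfl
    have h5 : QQ α 1 = 1 := rfl
    have h6 : QQ α 0 = 0 := rfl
    rw [h3] at h1
    simp only [zero_add, h4, h5, h6, Int.cast_one, Int.cast_zero, one_mul, mul_one, add_zero,
      pow_zero]
    field_simp at h1
    linarith
  | succ n ih =>
    have h2 : cq α (n + 2) ≠ 0 := by have := cq_gt h (n + 1); positivity
    have h1 := cq_eq h (n + 1)
    have hd := det_eq α (n + 1)
    have hd0 := det_eq α n
    have hq : (QQ α (n + 2) : ℝ) = pa α (n + 1) * QQ α (n + 1) + QQ α n := by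
      show ((pa α (n + 1) * QQ α (n + 1) + QQ α n : ℤ) : ℝ) = _
      push_cast
      ring
    have hp : (PP α (n + 2) : ℝ) = pa α (n + 1) * PP α (n + 1) + PP α n := by
      show ((pa α (n + 1) * PP α (n + 1) + PP α n : ℤ) : ℝ) = _
      push_cast
      ring
    have hd0' : (PP α (n + 1) : ℝ) * QQ α n - PP α n * QQ α (n + 1) = (-1) ^ (n + 1) := by
      exact_mod_cast hd0
    -- the old denominator
    have hden : cq α (n + 1) * QQ α (n + 1) + QQ α n =
        (cq α (n + 2) * QQ α (n + 2) + QQ α (n + 1)) / cq α (n + 2) := by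
      rw [hq, h1]
      field_simp
      ring
    have hpos : 0 < cq α (n + 1) * QQ α (n + 1) + QQ α n := by
      have a1 := cq_gt h n
      have a2 := QQ_pos h n
      have a3 : (1 : ℝ) ≤ QQ α (n + 1) := by exact_mod_cast a2.1
      have a4 : (0 : ℝ) ≤ QQ α n := by exact_mod_cast a2.2
      positivity
    -- α from the induction hypothesis
    set D := cq α (n + 1) * QQ α (n + 1) + QQ α n with hD
    have e1 : (QQ α (n + 1) : ℝ) * α - PP α (n + 1) = (-1) ^ n / D := by
      rw [eq_div_iff hpos.ne']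
      exact ih
    -- q_n * (q_{n-1} α - p_{n-1}) = q_{n-1} (q_n α - p_n) + (p_n q_{n-1} - p_{n-1} q_n)
    have a3 : (QQ α (n + 1) : ℝ) ≠ 0 := by
      have a2 := QQ_pos h n
      have : (1 : ℝ) ≤ QQ α (n + 1) := by exact_mod_cast a2.1
      positivity
    have e2 : (QQ α n : ℝ) * α - PP α n = -(-1) ^ n * cq α (n + 1) / D := by
      have : (QQ α (n + 1) : ℝ) * (QQ α n * α - PP α n) =
          QQ α n * (QQ α (n + 1) * α - PP α (n + 1)) + (-1) ^ (n + 1) := by
        rw [← hd0']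
        ring
      rw [e1] at this
      rw [eq_div_iff hpos.ne']
      have h5 : (QQ α (n + 1) : ℝ) * ((QQ α n * α - PP α n) * D) =
          QQ α (n + 1) * (-(-1) ^ n * cq α (n + 1)) := by
        calc (QQ α (n + 1) : ℝ) * ((QQ α n * α - PP α n) * D)
            = (QQ α (n + 1) * (QQ α n * α - PP α n)) * D := by ring
          _ = (QQ α n * ((-1) ^ n / D) + (-1) ^ (n + 1)) * D := by rw [this]
          _ = QQ α n * (-1) ^ n + (-1) ^ (n + 1) * D := by
              field_simp
          _ = _ := by rw [hD]; ring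
      exact mul_left_cancel₀ a3 h5
    have e3 : (QQ α (n + 2) : ℝ) * α - PP α (n + 2) = (-1) ^ (n + 1) / (D * cq α (n + 2)) := by
      have : (QQ α (n + 2) : ℝ) * α - PP α (n + 2) =
          pa α (n + 1) * (QQ α (n + 1) * α - PP α (n + 1)) + (QQ α n * α - PP α n) := by
        rw [hq, hp]
        ring
      rw [this, e1, e2, h1]
      field_simp
      ring
    show ((QQ α (n + 2) : ℝ) * α - PP α (n + 2)) * (cq α (n + 2) * QQ α (n + 2) + QQ α (n + 1)) =
      (-1) ^ (n + 1)
    have hden2 : cq α (n + 2) * QQ α (n + 2) + QQ α (n + 1) = D * cq α (n + 2) := by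
      rw [hden]
      field_simp
    rw [e3, hden2]
    have : D * cq α (n + 2) ≠ 0 := mul_ne_zero hpos.ne' h2
    field_simp

end Pool.Agent.Lib.MP_7bb85c_nt
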