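import Pool.Agent.Lib.MP_7bb85c_nt.Link

/-! Q1 for the numbers of one cubic field. -/

set_option autoImplicit false

namespace Pool.Agent.Lib.MP_7bb85c_nt

/-- Q1's bound for one number. -/
def Quadratic (α : ℝ) : Prop := ∃ C : ℝ, ∀ n : ℕ, 1 ≤ n → partSum α n ≤ C * (n : ℝ) ^ 2

theorem dep_le {α β : ℝ} (hα : Irrational α) (hβ : Irrational β)
    (hdep : ¬ LinearIndependent ℚ ![(1 : ℝ), α, β, α * β]) :
    ∃ C : ℕ, ∀ n, partSum β n ≤ C * partSum α (C * n) := by
  obtain ⟨A, B, G, H, h⟩ := rel_of_dep hα hβ hdep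
  obtain ⟨C, hC⟩ := sum_le hα hβ h
  refine ⟨C, fun n => ?_⟩
  rw [partSum_eq hβ, partSum_eq hα]
  exact hC n

lemma partSum_zero (α : ℝ) : partSum α 0 = 0 := by
  unfold partSum; simp

lemma quad_of_le {α β : ℝ} {C : ℕ} (h : ∀ n, partSum β n ≤ C * partSum α (C * n))
    (hq : Quadratic α) : Quadratic β := by
  obtain ⟨C₁, hC₁⟩ := hq
  refine ⟨C * (max C₁ 0 * (C : ℝ) ^ 2), ?_⟩
  intro n hn
  refine le_trans (h n) ?_
  rcases Nat.eq_zero_or_pos (C * n) with h0 | h0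
  · rw [h0, partSum_zero, mul_zero]
    positivity
  · have h1 := hC₁ (C * n) h0
    push_cast at h1
    have h2 : C₁ * ((C : ℝ) * n) ^ 2 ≤ max C₁ 0 * ((C : ℝ) * n) ^ 2 :=
      mul_le_mul_of_nonneg_right (le_max_left _ _) (by positivity)
    calc (C : ℝ) * partSum α (C * n) ≤ C * (max C₁ 0 * ((C : ℝ) * n) ^ 2) :=
          mul_le_mul_of_nonneg_left (le_trans h1 h2) (by positivity)
      _ = _ := by ring

lemma dep_symm {α β : ℝ} (hdep : ¬ LinearIndependent ℚ ![(1 : ℝ), α, β, α * β]) :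
    ¬ LinearIndependent ℚ ![(1 : ℝ), β, α, β * α] := by
  intro h
  apply hdep
  have h2 := h.comp ![0, 2, 1, 3] (by decide)
  convert h2 using 1
  funext i
  fin_cases i <;> simp [mul_comm]

theorem dep_iff {α β : ℝ} (hα : Irrational α) (hβ : Irrational β)
    (hdep : ¬ LinearIndependent ℚ ![(1 : ℝ), α, β, α * β]) :
    Quadratic α ↔ Quadratic β := by
  constructor
  · intro h
    obtain ⟨C, hC⟩ := dep_le hα hβ hdep
    exact quad_of_le hC h
  · intro h
    obtain ⟨C, hC⟩ := dep_le hβ hα (dep_symm hdep)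
    exact quad_of_le hC h

lemma irr_of_deg {α : ℝ} (hdeg : (minpoly ℚ α).natDegree = 3) : Irrational α := by
  rintro ⟨q, rfl⟩
  have : minpoly ℚ ((q : ℚ) : ℝ) = Polynomial.X - Polynomial.C q :=
    minpoly.eq_X_sub_C (B := ℝ) q
  rw [this, Polynomial.natDegree_X_sub_C] at hdeg
  omega

theorem cubic_iff {α β : ℝ} (hdeg : (minpoly ℚ α).natDegree = 3) (hβ : Irrational β)
    (hmem : β ∈ IntermediateField.adjoin ℚ {α}) : Quadratic α ↔ Quadratic β :=
  dep_iff (irr_of_deg hdeg) hβ (dep_of_cubic hdeg hmem)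

lemma exists_gen (F : IntermediateField ℚ ℝ) (hF : Module.finrank ℚ F = 3) :
    ∃ θ ∈ F, (minpoly ℚ θ).natDegree = 3 := by
  have hfin : FiniteDimensional ℚ F := Module.finite_of_finrank_pos (by rw [hF]; norm_num)
  obtain ⟨a, ha⟩ := Field.exists_primitive_element ℚ F
  refine ⟨a, a.2, ?_⟩
  have h1 := (Field.primitive_element_iff_minpoly_natDegree_eq ℚ a).mp ha
  rw [hF] at h1
  have h2 : minpoly ℚ ((a : F) : ℝ) = minpoly ℚ a := by
    exact minpoly.algebraMap_eq (B := F) (B' := ℝ) (algebraMap F ℝ).injective a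
  rw [h2]; exact h1

theorem fields_iff :
    (∀ α : ℝ, (minpoly ℚ α).natDegree = 3 → Quadratic α) ↔
      ∀ F : IntermediateField ℚ ℝ, Module.finrank ℚ F = 3 →
        ∃ θ ∈ F, Irrational θ ∧ Quadratic θ := by
  constructor
  · intro h F hF
    obtain ⟨θ, hθ, hd⟩ := exists_gen F hF
    exact ⟨θ, hθ, irr_of_deg hd, h θ hd⟩
  · intro h α hdeg
    have hint : IsIntegral ℚ α := by
      by_contra hcon
      rw [minpoly.eq_zero hcon] at hdeg
      simp at hdeg
    have hfr : Module.finrank ℚ (IntermediateField.adjoin ℚ {α}) = 3 := by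
      rw [IntermediateField.adjoin.finrank hint, hdeg]
    obtain ⟨θ, hθ, hirr, hq⟩ := h _ hfr
    exact (cubic_iff hdeg hirr hθ).mpr hq

end Pool.Agent.Lib.MP_7bb85c_nt
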