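import Pool.Agent.Lib.MP_7bb85c_nt.Un3

/-! The elements of a cubic field and the index form. -/

set_option autoImplicit false

namespace Pool.Agent.Lib.MP_7bb85c_nt

/-- `β = (x + y α + z α²) / w` as an image of `α` under a map of determinant `w I(y, z)`, where
`I` is the index form. -/
lemma rel_cubic {α β : ℝ} (hα : Irrational α) (hβ : Irrational β) {a b c d x y z w : ℤ}
    (ha : a ≠ 0) (hw : w ≠ 0) (h : (a : ℝ) * α ^ 3 + b * α ^ 2 + c * α + d = 0)
    (hβe : β * w = x + y * α + z * α ^ 2) :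
    Rel α β (c * z ^ 2 - a * x * z + a * y ^ 2 - b * y * z) ((a * y - b * z) * x + d * z ^ 2)
      (-(a * z * w)) ((a * y - b * z) * w) ∧
    (c * z ^ 2 - a * x * z + a * y ^ 2 - b * y * z) * ((a * y - b * z) * w) -
      ((a * y - b * z) * x + d * z ^ 2) * (-(a * z * w)) =
      w * (a ^ 2 * y ^ 3 - 2 * a * b * y ^ 2 * z + (b ^ 2 + a * c) * y * z ^ 2 +
        (a * d - b * c) * z ^ 3) := by
  have hdet : (c * z ^ 2 - a * x * z + a * y ^ 2 - b * y * z) * ((a * y - b * z) * w) -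
      ((a * y - b * z) * x + d * z ^ 2) * (-(a * z * w)) =
      w * (a ^ 2 * y ^ 3 - 2 * a * b * y ^ 2 * z + (b ^ 2 + a * c) * y * z ^ 2 +
        (a * d - b * c) * z ^ 3) := by ring
  have hrel : β * (((-(a * z * w) : ℤ) : ℝ) * α + (((a * y - b * z) * w : ℤ) : ℝ)) =
      ((c * z ^ 2 - a * x * z + a * y ^ 2 - b * y * z : ℤ) : ℝ) * α +
        (((a * y - b * z) * x + d * z ^ 2 : ℤ) : ℝ) := by
    push_cast
    have e1 : β * (-((a : ℝ) * z * w) * α + (a * y - b * z) * w) =
        (β * w) * (-((a : ℝ) * z) * α + (a * y - b * z)) := by ring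
    rw [e1, hβe]
    linear_combination (-(z : ℝ) ^ 2) * h
  refine ⟨⟨?_, hrel⟩, hdet⟩
  intro h0
  -- the denominators do not vanish
  have hGH : ¬ ((-(a * z * w) : ℤ) = 0 ∧ ((a * y - b * z) * w : ℤ) = 0) := by
    rintro ⟨h1, h2⟩
    have hz : z = 0 := by
      rw [neg_eq_zero] at h1
      rcases mul_eq_zero.mp h1 with h3 | h3
      · exact (mul_eq_zero.mp h3).resolve_left ha
      · exact absurd h3 hw
    have hy : y = 0 := by
      rw [hz, mul_zero, sub_zero] at h2
      rcases mul_eq_zero.mp h2 with h3 | h3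
      · exact (mul_eq_zero.mp h3).resolve_left ha
      · exact absurd h3 hw
    apply hβ
    refine ⟨(x : ℚ) / w, ?_⟩
    have hwR : (w : ℝ) ≠ 0 := by exact_mod_cast hw
    rw [hz, hy] at hβe
    push_cast at hβe ⊢
    rw [div_eq_iff hwR]
    linarith
  have hL := form_ne hα hGH
  set G : ℤ := -(a * z * w) with hG
  set H : ℤ := (a * y - b * z) * w with hH
  set A : ℤ := c * z ^ 2 - a * x * z + a * y ^ 2 - b * y * z with hA
  set B : ℤ := (a * y - b * z) * x + d * z ^ 2 with hB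
  have h0R : (A : ℝ) * H - B * G = 0 := by exact_mod_cast h0
  by_cases hG0 : G = 0
  · have hH0 : H ≠ 0 := fun h2 => hGH ⟨hG0, h2⟩
    have hG0R : (G : ℝ) = 0 := by exact_mod_cast hG0
    have hH0R : (H : ℝ) ≠ 0 := by exact_mod_cast hH0
    have hA0 : (A : ℝ) = 0 := by
      rw [hG0R, mul_zero, sub_zero] at h0R
      exact (mul_eq_zero.mp h0R).resolve_right hH0R
    apply hβ
    refine ⟨(B : ℚ) / H, ?_⟩
    rw [hG0R, hA0] at hrel
    push_cast
    rw [div_eq_iff hH0R]
    linarith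
  · have hG0R : (G : ℝ) ≠ 0 := by exact_mod_cast hG0
    apply hβ
    refine ⟨(A : ℚ) / G, ?_⟩
    push_cast
    rw [div_eq_iff hG0R]
    have e5 : (β * G) * ((G : ℝ) * α + H) = (A : ℝ) * (G * α + H) := by
      linear_combination (G : ℝ) * hrel - h0R
    have := mul_right_cancel₀ hL e5
    linarith

lemma eq_div_of_rel {α β : ℝ} (hα : Irrational α) {A B G H : ℤ} (h : Rel α β A B G H) :
    β = (A * α + B) / (G * α + H) := by
  rw [eq_div_iff (form_ne_of_det hα h.1)]
  exact h.2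

end Pool.Agent.Lib.MP_7bb85c_nt
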