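import Pool.Agent.Lib.MP_7bb85c_nt.Su

/-! Mathlib's continued fraction and linear dependence. -/

set_option autoImplicit false

namespace Pool.Agent.Lib.MP_7bb85c_nt

open GenContFract

lemma stream_eq {α : ℝ} (h : Irrational α) (n : ℕ) :
    IntFractPair.stream α n = some ⟨⌊cq α n⌋, Int.fract (cq α n)⟩ := by
  induction n with
  | zero => rfl
  | succ n ih =>
    have h1 := IntFractPair.stream_succ_of_some ih (fract_pos h n).ne'
    rw [h1]
    rfl

lemma partDens_eq {α : ℝ} (h : Irrational α) (k : ℕ) :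
    ((GenContFract.of α).partDens.get? k).getD 0 = (pa α (k + 1) : ℝ) := by
  have h1 := get?_of_eq_some_of_succ_get?_intFractPair_stream (stream_eq h (k + 1))
  have h2 := partDen_eq_s_b h1
  rw [h2]
  rfl

/-- The sum of Q1. -/
noncomputable def partSum (α : ℝ) (n : ℕ) : ℝ :=
  ∑ k ∈ Finset.range n, ((GenContFract.of α).partDens.get? k).getD 0

lemma partSum_eq {α : ℝ} (h : Irrational α) (n : ℕ) : partSum α n = SS α n := by
  unfold partSum SS
  exact Finset.sum_congr rfl fun k _ => partDens_eq h k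

/-- Linear dependence of `1, α, β, α β` over the rationals gives the relation. -/
lemma rel_of_dep {α β : ℝ} (hα : Irrational α) (hβ : Irrational β)
    (hdep : ¬ LinearIndependent ℚ ![(1 : ℝ), α, β, α * β]) :
    ∃ A B G H : ℤ, Rel α β A B G H := by
  rw [← LinearIndependent.iff_fractionRing ℤ ℚ, Fintype.not_linearIndependent_iff] at hdep
  obtain ⟨g, hg, i, hi⟩ := hdep
  simp only [Fin.sum_univ_four, zsmul_eq_mul, Matrix.cons_val_zero, Matrix.cons_val_one,
    Matrix.cons_val] at hg
  -- g 0 + g 1 α + g 2 β + g 3 α β = 0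
  have e : β * (g 3 * α + g 2) = (-g 1) * α + (-g 0) := by
    linarith
  refine ⟨-g 1, -g 0, g 3, g 2, ?_, by push_cast; exact e⟩
  intro hdet
  have irr : ∀ a b : ℤ, (a : ℝ) * α + b = 0 → a = 0 ∧ b = 0 := by
    intro a b hab
    by_cases ha : a = 0
    · subst ha
      refine ⟨rfl, ?_⟩
      have : (b : ℝ) = 0 := by push_cast at hab; linarith
      exact_mod_cast this
    · exfalso
      apply hα
      refine ⟨(-b : ℚ) / a, ?_⟩
      have haR : (a : ℝ) ≠ 0 := by exact_mod_cast ha
      push_cast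
      rw [div_eq_iff haR]
      linarith
  -- the two forms are proportional
  have hdetR : (-(g 1 : ℝ)) * g 2 - (-(g 0 : ℝ)) * g 3 = 0 := by exact_mod_cast hdet
  by_cases hz : g 3 = 0 ∧ g 2 = 0
  · have e0 : (-g 1 : ℤ) * α + (-g 0 : ℤ) = 0 := by
      rw [hz.1, hz.2] at e
      push_cast at e ⊢
      linarith
    have := irr _ _ e0
    have h0 : g 0 = 0 := by linarith [this.2]
    have h1 : g 1 = 0 := by linarith [this.1]
    apply hi
    fin_cases i
    · exact h0
    · exact h1
    · exact hz.2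
    · exact hz.1
  · have hne : (g 3 : ℝ) * α + g 2 ≠ 0 := by
      intro h0
      exact hz (irr _ _ h0)
    by_cases h3 : g 3 = 0
    · have h2 : g 2 ≠ 0 := fun h2 => hz ⟨h3, h2⟩
      have h2R : (g 2 : ℝ) ≠ 0 := by exact_mod_cast h2
      have h1 : (g 1 : ℝ) = 0 := by
        have h3R : (g 3 : ℝ) = 0 := by exact_mod_cast h3
        rw [h3R] at hdetR
        have : (g 1 : ℝ) * g 2 = 0 := by linarith
        exact (mul_eq_zero.mp this).resolve_right h2R
      apply hβ
      refine ⟨(-g 0 : ℚ) / g 2, ?_⟩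
      have h3R : (g 3 : ℝ) = 0 := by exact_mod_cast h3
      rw [h3R, h1] at e
      push_cast
      rw [div_eq_iff h2R]
      linarith
    · have h3R : (g 3 : ℝ) ≠ 0 := by exact_mod_cast h3
      apply hβ
      refine ⟨(-g 1 : ℚ) / g 3, ?_⟩
      push_cast
      rw [div_eq_iff h3R]
      -- -g 1 = β g 3
      have e5 : (g 3 : ℝ) * (β * (g 3 * α + g 2)) = (-g 1) * (g 3 * α + g 2) := by
        rw [e]
        linear_combination (-1 : ℝ) * hdetR
      have e6 : ((g 3 : ℝ) * β) * (g 3 * α + g 2) = (-g 1) * (g 3 * α + g 2) := by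
        rw [← e5]; ring
      have := mul_right_cancel₀ hne e6
      linarith

/-- In a cubic field `1, α, β, α β` are dependent. -/
lemma dep_of_cubic {α β : ℝ} (hdeg : (minpoly ℚ α).natDegree = 3)
    (hmem : β ∈ IntermediateField.adjoin ℚ {α}) :
    ¬ LinearIndependent ℚ ![(1 : ℝ), α, β, α * β] := by
  have hint : IsIntegral ℚ α := by
    by_contra hcon
    rw [minpoly.eq_zero hcon] at hdeg
    simp at hdeg
  have hfr : Module.finrank ℚ (IntermediateField.adjoin ℚ {α}) = 3 := by
    rw [IntermediateField.adjoin.finrank hint, hdeg]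
  have hαm : α ∈ IntermediateField.adjoin ℚ {α} := IntermediateField.mem_adjoin_simple_self ℚ α
  intro hli
  set K := IntermediateField.adjoin ℚ {α} with hK
  have hfin : FiniteDimensional ℚ K := IntermediateField.adjoin.finiteDimensional hint
  let w : Fin 4 → K := ![1, ⟨α, hαm⟩, ⟨β, hmem⟩, ⟨α, hαm⟩ * ⟨β, hmem⟩]
  have hw : LinearIndependent ℚ w := by
    apply LinearIndependent.of_comp K.val.toLinearMap
    have : (K.val.toLinearMap ∘ w) = ![(1 : ℝ), α, β, α * β] := by
      funext i
      fin_cases i <;> simp [w]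
    rw [this]
    exact hli
  have := hw.fintype_card_le_finrank
  rw [hfr] at this
  simp at this

end Pool.Agent.Lib.MP_7bb85c_nt
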