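import Pool.Agent.Lib.MP_7bb85c_nt.Cub

/-! The matching of the large partial quotients. -/

set_option autoImplicit false

namespace Pool.Agent.Lib.MP_7bb85c_nt

theorem match_le {α β : ℝ} (hα : Irrational α) (hβ : Irrational β)
    (hdep : ¬ LinearIndependent ℚ ![(1 : ℝ), α, β, α * β]) :
    ∃ (C : ℕ) (ι : ℕ → ℕ), ∀ k : ℕ, (C : ℝ) < pa β (k + 1) →
      ι k ≤ C * (k + 1) ∧ (pa β (k + 1) : ℝ) ≤ C * pa α (ι k + 1) ∧
        ∀ k' : ℕ, (C : ℝ) < pa β (k' + 1) → ι k' = ι k → k' = k := by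
  classical
  obtain ⟨A, B, G, H, h⟩ := rel_of_dep hα hβ hdep
  obtain ⟨C, E, K, hC1, hE, hK, hone⟩ := one_le hα hβ h
  choose! ι hι1 hι2 g hg1 hg2 using hone
  refine ⟨C + ⌈E⌉₊ + ⌈K⌉₊, ι, ?_⟩
  have hEc : E ≤ (⌈E⌉₊ : ℝ) := Nat.le_ceil _
  have hKc : K ≤ (⌈K⌉₊ : ℝ) := Nat.le_ceil _
  have hlt : ∀ k, ((C + ⌈E⌉₊ + ⌈K⌉₊ : ℕ) : ℝ) < pa β (k + 1) → ¬ ((pa β (k + 1) : ℝ) ≤ E) := by
    intro k hk
    push_cast at hk
    have h1 : (0 : ℝ) ≤ (C : ℝ) := Nat.cast_nonneg _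
    have h2 : (0 : ℝ) ≤ (⌈K⌉₊ : ℝ) := Nat.cast_nonneg _
    push Not
    linarith
  intro k hk
  refine ⟨?_, ?_, ?_⟩
  · have h1 := hι1 k (hlt k hk)
    have h2 : C * (k + 1) ≤ (C + ⌈E⌉₊ + ⌈K⌉₊) * (k + 1) := Nat.mul_le_mul_right _ (by omega)
    omega
  · have h1 := hι2 k (hlt k hk)
    have h2 := pa_one hα (ι k)
    refine le_trans h1 (mul_le_mul_of_nonneg_right ?_ (by linarith))
    push_cast
    have h3 : (0 : ℝ) ≤ (C : ℝ) := Nat.cast_nonneg _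
    have h4 : (0 : ℝ) ≤ (⌈E⌉₊ : ℝ) := Nat.cast_nonneg _
    linarith
  · intro k' hk' heq
    have a1 := hg1 k (hlt k hk)
    have a2 := hg2 k (hlt k hk)
    have b1 := hg1 k' (hlt k' hk')
    have b2 := hg2 k' (hlt k' hk')
    rw [heq] at b1 b2
    have := par_inj h.symm.1 (PQ_coprime β k') (PQ_coprime β k) (QQ_pos hβ k').1 (QQ_pos hβ k).1
      b1 b2 a1 a2 rfl
    exact conv_inj hβ this.1 this.2

end Pool.Agent.Lib.MP_7bb85c_nt
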