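import Pool.Agent.Lib.MP_7bb85c_nt.Ba

/-! Moebius maps with integer coefficients and the sums of partial quotients. -/

set_option autoImplicit false

namespace Pool.Agent.Lib.MP_7bb85c_nt

/-- `β = (A α + B) / (G α + H)` with integers `A, B, G, H` and `A H - B G ≠ 0`. -/
def Rel (α β : ℝ) (A B G H : ℤ) : Prop :=
  A * H - B * G ≠ 0 ∧ β * (G * α + H) = A * α + B

lemma Rel.symm {α β : ℝ} {A B G H : ℤ} (h : Rel α β A B G H) : Rel β α H (-B) (-G) A := by
  refine ⟨?_, ?_⟩
  · have := h.1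
    intro h0
    apply this
    linarith
  · have := h.2
    push_cast
    linarith

/-- The image of a good approximation. -/
lemma trans {α β : ℝ} {A B G H : ℤ} (h : Rel α β A B G H) :
    ∃ K : ℝ, 1 ≤ K ∧ ∀ u v : ℤ, IsCoprime u v → 1 ≤ v → (v : ℝ) * |(v : ℝ) * α - u| ≤ 1 →
      ∃ g u' v' : ℤ, g ≠ 0 ∧ IsCoprime u' v' ∧ 0 ≤ v' ∧ g * u' = A * u + B * v ∧
        g * v' = G * u + H * v ∧ (v' : ℝ) ≤ K * v ∧
        (v' : ℝ) * |(v' : ℝ) * β - u'| ≤ K * (v * |(v : ℝ) * α - u|) := by
  set K1 : ℝ := |(G : ℝ)| * (|α| + 1) + |(H : ℝ)| with hK1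
  have hK1n : 0 ≤ K1 := by positivity
  set K2 : ℝ := |(G : ℝ) * β - A| with hK2
  have hK2n : 0 ≤ K2 := abs_nonneg _
  refine ⟨(K1 + 1) * (K2 + 1), by nlinarith [mul_nonneg hK1n hK2n], ?_⟩
  intro u v huv hv hq
  have hvR : (1 : ℝ) ≤ v := by exact_mod_cast hv
  -- the image is not zero
  have hne : ¬ (A * u + B * v = 0 ∧ G * u + H * v = 0) := by
    rintro ⟨h1, h2⟩
    have h3 : (A * H - B * G) * v = 0 := by
      calc (A * H - B * G) * v = A * (G * u + H * v) - G * (A * u + B * v) := by ring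
        _ = 0 := by rw [h1, h2]; ring
    rcases mul_eq_zero.mp h3 with h4 | h4
    · exact h.1 h4
    · linarith
  have hgpos : 0 < Int.gcd (A * u + B * v) (G * u + H * v) := by
    rw [Nat.pos_iff_ne_zero]
    intro h0
    apply hne
    exact Int.gcd_eq_zero_iff.mp h0
  obtain ⟨m, n, hmn, hm, hn⟩ := Int.exists_gcd_one hgpos
  set g0 : ℤ := (Int.gcd (A * u + B * v) (G * u + H * v) : ℤ) with hg0
  have hg0pos : 0 < g0 := by rw [hg0]; exact_mod_cast hgpos
  have hcop : IsCoprime m n := Int.isCoprime_iff_gcd_eq_one.mpr hmn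
  -- normalize the sign
  obtain ⟨g, u', v', hg, hc', hv', e1, e2⟩ : ∃ g u' v' : ℤ, g ≠ 0 ∧ IsCoprime u' v' ∧ 0 ≤ v' ∧
      g * u' = A * u + B * v ∧ g * v' = G * u + H * v := by
    rcases le_total 0 n with hn0 | hn0
    · refine ⟨g0, m, n, hg0pos.ne', hcop, hn0, ?_, ?_⟩
      · rw [mul_comm]; exact hm.symm
      · rw [mul_comm]; exact hn.symm
    · refine ⟨-g0, -m, -n, neg_ne_zero.mpr hg0pos.ne', hcop.neg_neg, by linarith, ?_, ?_⟩
      · rw [neg_mul_neg, mul_comm]; exact hm.symm
      · rw [neg_mul_neg, mul_comm]; exact hn.symm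
  refine ⟨g, u', v', hg, hc', hv', e1, e2, ?_, ?_⟩
  all_goals
    have hgabs : (1 : ℝ) ≤ |(g : ℝ)| := by
      have : (1 : ℤ) ≤ |g| := Int.one_le_abs hg
      have h2 : ((1 : ℤ) : ℝ) ≤ ((|g| : ℤ) : ℝ) := by exact_mod_cast this
      rw [Int.cast_abs] at h2
      simpa using h2
    have hv'R : (0 : ℝ) ≤ v' := by exact_mod_cast hv'
    have e1R : (g : ℝ) * u' = A * u + B * v := by exact_mod_cast e1
    have e2R : (g : ℝ) * v' = G * u + H * v := by exact_mod_cast e2
    have hu : |(u : ℝ)| ≤ (|α| + 1) * v := by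
      have h1 : |(v : ℝ) * α - u| ≤ 1 := by
        have := abs_nonneg ((v : ℝ) * α - u)
        nlinarith
      have h2 : |(u : ℝ)| ≤ |(v : ℝ) * α| + |(v : ℝ) * α - u| := by
        have e : (u : ℝ) = v * α - (v * α - u) := by ring
        calc |(u : ℝ)| = |(v : ℝ) * α - (v * α - u)| := by rw [← e]
          _ ≤ _ := abs_sub _ _
      rw [abs_mul, abs_of_pos (by linarith : (0 : ℝ) < v)] at h2
      nlinarith
    have hV : |(G : ℝ) * u + H * v| ≤ K1 * v := by
      calc |(G : ℝ) * u + H * v| ≤ |(G : ℝ) * u| + |(H : ℝ) * v| := abs_add_le _ _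
        _ = |(G : ℝ)| * |(u : ℝ)| + |(H : ℝ)| * v := by
            rw [abs_mul, abs_mul, abs_of_pos (by linarith : (0 : ℝ) < v)]
        _ ≤ |(G : ℝ)| * ((|α| + 1) * v) + |(H : ℝ)| * v := by
            have := mul_le_mul_of_nonneg_left hu (abs_nonneg (G : ℝ))
            linarith
        _ = K1 * v := by rw [hK1]; ring
    have hv'V : (v' : ℝ) ≤ |(G : ℝ) * u + H * v| := by
      rw [← e2R, abs_mul, abs_of_nonneg hv'R]
      nlinarith
  · calc (v' : ℝ) ≤ K1 * v := le_trans hv'V hV
      _ ≤ (K1 + 1) * (K2 + 1) * v := by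
          have : K1 ≤ (K1 + 1) * (K2 + 1) := by nlinarith [mul_nonneg hK1n hK2n]
          nlinarith
  · have e3 : (g : ℝ) * (v' * β - u') = -((G * β - A) * (v * α - u)) := by
      have := h.2
      calc (g : ℝ) * (v' * β - u') = (g * v') * β - g * u' := by ring
        _ = (G * u + H * v) * β - (A * u + B * v) := by rw [e1R, e2R]
        _ = _ := by linear_combination (v : ℝ) * this
    have e4 : |(g : ℝ)| * |(v' : ℝ) * β - u'| = K2 * |(v : ℝ) * α - u| := by
      rw [← abs_mul, e3, abs_neg, abs_mul]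
    have e5 : |(v' : ℝ) * β - u'| ≤ K2 * |(v : ℝ) * α - u| := by
      rw [← e4]
      have := abs_nonneg ((v' : ℝ) * β - u')
      nlinarith
    calc (v' : ℝ) * |(v' : ℝ) * β - u'| ≤ (K1 * v) * (K2 * |(v : ℝ) * α - u|) := by
          apply mul_le_mul (le_trans hv'V hV) e5 (abs_nonneg _)
          positivity
      _ = (K1 * K2) * (v * |(v : ℝ) * α - u|) := by ring
      _ ≤ (K1 + 1) * (K2 + 1) * (v * |(v : ℝ) * α - u|) := by
          apply mul_le_mul_of_nonneg_right
          · nlinarith [mul_nonneg hK1n hK2n]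
          · positivity

/-- Parallel images come from the same vector. -/
lemma par_inj {A B G H : ℤ} (hD : A * H - B * G ≠ 0) {u v u1 v1 g u' v' g1 u'' v'' : ℤ}
    (h : IsCoprime u v) (h1 : IsCoprime u1 v1) (hv : 1 ≤ v) (hv1 : 1 ≤ v1)
    (e1 : g * u' = A * u + B * v) (e2 : g * v' = G * u + H * v)
    (f1 : g1 * u'' = A * u1 + B * v1) (f2 : g1 * v'' = G * u1 + H * v1)
    (hpar : u' * v'' = u'' * v') : u = u1 ∧ v = v1 := by
  apply prim_eq h h1 hv hv1
  have h3 : (A * H - B * G) * (u * v1 - u1 * v) = 0 := by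
    calc (A * H - B * G) * (u * v1 - u1 * v) =
        (A * u + B * v) * (G * u1 + H * v1) - (A * u1 + B * v1) * (G * u + H * v) := by ring
      _ = (g * u') * (g1 * v'') - (g1 * u'') * (g * v') := by rw [e1, e2, f1, f2]
      _ = g * g1 * (u' * v'' - u'' * v') := by ring
      _ = 0 := by rw [hpar]; ring
  rcases mul_eq_zero.mp h3 with h4 | h4
  · exact absurd h4 hD
  · linarith

lemma conv_inj_aux {α : ℝ} (h : Irrational α) {i j : ℕ} (hij : i < j)
    (hp : PP α (i + 1) = PP α (j + 1)) (hq : QQ α (i + 1) = QQ α (j + 1)) : False := by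
  rcases Nat.lt_or_ge j (i + 2) with h1 | h1
  · have hj : j = i + 1 := by omega
    subst hj
    have hd := det_eq α (i + 1)
    have : PP α (i + 1 + 1) * QQ α (i + 1) - PP α (i + 1) * QQ α (i + 1 + 1) = 0 := by
      rw [← hp, ← hq]; ring
    rw [this] at hd
    exact (pow_ne_zero _ (by norm_num : (-1 : ℤ) ≠ 0)) hd.symm
  · have h2 := QQ_two h i
    have h3 := QQ_monotone h (show i + 3 ≤ j + 1 by omega)
    have h4 := (QQ_pos h i).1
    rw [← hq] at h3
    linarith

lemma conv_inj {α : ℝ} (h : Irrational α) {i j : ℕ}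
    (hp : PP α (i + 1) = PP α (j + 1)) (hq : QQ α (i + 1) = QQ α (j + 1)) : i = j := by
  rcases lt_trichotomy i j with h1 | h1 | h1
  · exact (conv_inj_aux h h1 hp hq).elim
  · exact h1
  · exact (conv_inj_aux h h1 hp.symm hq.symm).elim

lemma conv_quality {α : ℝ} (h : Irrational α) (n : ℕ) :
    (QQ α (n + 1) : ℝ) * |(QQ α (n + 1) : ℝ) * α - PP α (n + 1)| = QQ α (n + 1) / DD α n := by
  rw [abs_err h n, mul_one_div]

lemma conv_quality_le {α : ℝ} (h : Irrational α) (n : ℕ) :
    (QQ α (n + 1) : ℝ) * |(QQ α (n + 1) : ℝ) * α - PP α (n + 1)| ≤ 1 := by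
  rw [conv_quality h n, div_le_one (DD_pos h n)]
  have h1 := DD_ge h n
  have h2 : (QQ α (n + 1) : ℝ) ≤ QQ α (n + 2) := by exact_mod_cast QQ_mono h (n + 1)
  linarith

/-- The index of a convergent of `α` with a denominator at most `C₂ q_k(β)` is at most
`C (k + 1)`. -/
lemma index {α β : ℝ} (hα : Irrational α) (hβ : Irrational β) {A B G H : ℤ}
    (h : Rel α β A B G H) (C₂ : ℝ) :
    ∃ C : ℕ, ∀ i k : ℕ, (QQ α (i + 1) : ℝ) ≤ C₂ * QQ β (k + 1) → i + 1 ≤ C * (k + 1) := by
  classical
  obtain ⟨K, hK1, hK⟩ := trans h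
  have hch : ∀ m : ℕ, ∃ g u' v' : ℤ, g ≠ 0 ∧ IsCoprime u' v' ∧ 0 ≤ v' ∧
      g * u' = A * PP α (m + 1) + B * QQ α (m + 1) ∧
      g * v' = G * PP α (m + 1) + H * QQ α (m + 1) ∧ (v' : ℝ) ≤ K * QQ α (m + 1) ∧
      (v' : ℝ) * |(v' : ℝ) * β - u'| ≤
        K * (QQ α (m + 1) * |(QQ α (m + 1) : ℝ) * α - PP α (m + 1)|) := fun m =>
    hK _ _ (PQ_coprime α m) (QQ_pos hα m).1 (conv_quality_le hα m)
  choose g u' v' hg hcop hv' e1 e2 hle hqual using hch
  have hqualc : ∀ m, (v' m : ℝ) * |(v' m : ℝ) * β - u' m| < K + 1 := by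
    intro m
    have h1 := hqual m
    have h2 := conv_quality_le hα m
    nlinarith
  have hinj : ∀ m m', u' m * v' m' = u' m' * v' m → m = m' := by
    intro m m' hpar
    have := par_inj h.1 (PQ_coprime α m) (PQ_coprime α m') (QQ_pos hα m).1 (QQ_pos hα m').1
      (e1 m) (e2 m) (e1 m') (e2 m') hpar
    exact conv_inj hα this.1 this.2
  have hwin : ∀ m, 1 ≤ v' m → ∃ n, QQ β n ≤ v' m ∧ (QQ β (n + 1) : ℝ) / (K + 2) ≤ v' m ∧
      (v' m : ℝ) < (K + 2) * QQ β (n + 1) := fun m hm =>
    window hβ (by linarith) (by linarith) (hcop m) hm (hqualc m)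
  choose! w hw1 hw2 hw3 using hwin
  obtain ⟨r, hr⟩ : ∃ r : ℕ, K * C₂ < 2 ^ r := pow_unbounded_of_one_lt _ (by norm_num)
  set N : ℕ := (2 * ⌈2 * (K + 2) ^ 2 * (K + 1)⌉₊ + 1) * (⌈(K + 2) ^ 2⌉₊ + 1) with hN
  have hN1 : 1 ≤ N := by
    rw [hN]
    exact Nat.one_le_iff_ne_zero.mpr (by positivity)
  set b : ℕ → ℕ := fun m => if v' m = 0 then 0 else w m + 1 with hb
  refine ⟨N * (2 * r + 2), ?_⟩
  intro i k hik
  have hmaps : ∀ m ∈ Finset.range (i + 1), b m ∈ Finset.range (k + 2 * r + 2) := by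
    intro m hm
    rw [Finset.mem_range] at hm ⊢
    simp only [hb]
    split_ifs with h0
    · omega
    · have hv1 : 1 ≤ v' m := by
        have := hv' m
        omega
      have h1 := hw1 m hv1
      have h2 : (v' m : ℝ) < QQ β (k + 1 + 2 * r) := by
        have a1 := hle m
        have a2 : (QQ α (m + 1) : ℝ) ≤ QQ α (i + 1) := by
          exact_mod_cast QQ_monotone hα (show m + 1 ≤ i + 1 by omega)
        have a3 : (2 : ℝ) ^ r * QQ β (k + 1) ≤ QQ β (k + 1 + 2 * r) := by
          exact_mod_cast QQ_pow hβ k r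
        have a4 := QR_pos hβ k
        calc (v' m : ℝ) ≤ K * QQ α (m + 1) := a1
          _ ≤ K * (C₂ * QQ β (k + 1)) := by
              apply mul_le_mul_of_nonneg_left (le_trans a2 hik); linarith
          _ = (K * C₂) * QQ β (k + 1) := by ring
          _ < 2 ^ r * QQ β (k + 1) := by
              apply mul_lt_mul_of_pos_right hr; linarith
          _ ≤ _ := a3
      have h3 : QQ β (w m) < QQ β (k + 1 + 2 * r) := by
        have : (v' m : ℤ) < QQ β (k + 1 + 2 * r) := by exact_mod_cast h2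
        linarith
      have h4 : w m < k + 1 + 2 * r := by
        by_contra hcon
        push Not at hcon
        have := QQ_monotone hβ hcon
        linarith
      omega
  have hfib : ∀ j ∈ Finset.range (k + 2 * r + 2),
      (Finset.filter (fun m => b m = j) (Finset.range (i + 1))).card ≤ N := by
    intro j _
    rcases Nat.eq_zero_or_pos j with hj | hj
    · refine le_trans ?_ hN1
      rw [Finset.card_le_one]
      intro m hm m' hm'
      rw [Finset.mem_filter] at hm hm'
      apply hinj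
      have z1 : v' m = 0 := by
        by_contra hcon
        have := hm.2
        simp only [hb, if_neg hcon] at this
        omega
      have z2 : v' m' = 0 := by
        by_contra hcon
        have := hm'.2
        simp only [hb, if_neg hcon] at this
        omega
      rw [z1, z2]; ring
    · have hcard : (Finset.filter (fun m => b m = j) (Finset.range (i + 1))).card =
          ((Finset.filter (fun m => b m = j) (Finset.range (i + 1))).image
            (fun m => (u' m, v' m))).card := by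
        rw [Finset.card_image_of_injOn]
        intro m _ m' _ heq
        simp only [Prod.mk.injEq] at heq
        apply hinj
        rw [heq.1, heq.2]
      rw [hcard]
      have hKK : 0 < K + 2 := by linarith
      apply count β (c := K + 1) (V := (QQ β j : ℝ) / (K + 2)) (ρ := (K + 2) ^ 2)
      · have hq : (1 : ℝ) ≤ QQ β j := by
          obtain ⟨j', rfl⟩ := Nat.exists_eq_succ_of_ne_zero hj.ne'
          exact QR_pos hβ j'
        positivity
      · intro x hx
        rw [Finset.mem_image] at hx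
        obtain ⟨m, hm, rfl⟩ := hx
        rw [Finset.mem_filter] at hm
        have hbm := hm.2
        have hne : v' m ≠ 0 := by
          intro h0
          simp only [hb, if_pos h0] at hbm
          omega
        have hv1 : 1 ≤ v' m := by
          have := hv' m
          omega
        have hwm : w m + 1 = j := by
          simp only [hb, if_neg hne] at hbm
          exact hbm
        subst hwm
        refine ⟨hcop m, hw2 m hv1, ?_, hqualc m⟩
        have := hw3 m hv1
        calc (v' m : ℝ) < (K + 2) * QQ β (w m + 1) := this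
          _ = (K + 2) ^ 2 * (QQ β (w m + 1) / (K + 2)) := by field_simp
  have hcount := Finset.card_le_mul_card_image_of_maps_to hmaps N hfib
  rw [Finset.card_range, Finset.card_range] at hcount
  calc i + 1 ≤ N * (k + 2 * r + 2) := hcount
    _ ≤ N * ((2 * r + 2) * (k + 1)) := by
        apply Nat.mul_le_mul_left
        nlinarith [Nat.zero_le (r * k), Nat.zero_le k]
    _ = N * (2 * r + 2) * (k + 1) := by ring

end Pool.Agent.Lib.MP_7bb85c_nt
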