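import Pool.Agent.Lib.MP_7bb85c_nt.Pisot

/-! Irrational numbers with unbounded partial quotients have very good approximations; conjugates
and integrality of the images of an algebraic number under integer Moebius maps. -/

set_option autoImplicit false

namespace Pool.Agent.Lib.MP_7bb85c_nt

open Polynomial

lemma good_approx {α : ℝ} (h : Irrational α) (hunb : ¬ ∃ M : ℝ, ∀ k, (pa α (k + 1) : ℝ) ≤ M)
    {ε : ℝ} (hε : 0 < ε) (X : ℝ) :
    ∃ n : ℕ, X ≤ QQ α (n + 1) ∧
      (QQ α (n + 1) : ℝ) * |(QQ α (n + 1) : ℝ) * α - PP α (n + 1)| ≤ ε := by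
  by_contra hcon
  push Not at hcon
  apply hunb
  obtain ⟨m0, hm0⟩ := big h X
  have hlarge : ∀ n, m0 ≤ n → (pa α (n + 1) : ℝ) ≤ 1 / ε := by
    intro n hn
    have h1 := hcon n (hm0 n hn)
    rw [conv_quality h n] at h1
    have h2 := DD_pos h n
    have h3 := pa_le α (n + 1)
    have h4 := QR_pos h n
    have h5 := QR_nonneg h n
    rw [lt_div_iff₀ h2] at h1
    rw [le_div_iff₀ hε]
    have h6 : cq α (n + 1) * QQ α (n + 1) ≤ DD α n := by
      unfold DD; linarith
    have h7 : ε * (cq α (n + 1) * QQ α (n + 1)) < QQ α (n + 1) :=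
      lt_of_le_of_lt (mul_le_mul_of_nonneg_left h6 hε.le) h1
    have h8 : (ε * cq α (n + 1)) * QQ α (n + 1) < 1 * QQ α (n + 1) := by linarith
    have h9 : ε * cq α (n + 1) < 1 := lt_of_mul_lt_mul_right h8 (by linarith)
    have h10 : (pa α (n + 1) : ℝ) * ε ≤ cq α (n + 1) * ε := mul_le_mul_of_nonneg_right h3 hε.le
    linarith
  refine ⟨max (SS α m0) (1 / ε), fun k => ?_⟩
  rcases lt_or_ge k m0 with hk | hk
  · refine le_trans ?_ (le_max_left _ _)
    unfold SS
    exact Finset.single_le_sum (f := fun k => (pa α (k + 1) : ℝ))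
      (fun i _ => by have := pa_one h i; linarith) (Finset.mem_range.mpr hk)
  · exact le_trans (hlarge k hk) (le_max_right _ _)

lemma quad_of_bdd {α : ℝ} (h : Irrational α) {M : ℝ} (hM : ∀ k, (pa α (k + 1) : ℝ) ≤ M) :
    Quadratic α := by
  refine ⟨M, fun n hn => ?_⟩
  rw [partSum_eq h]
  have hM0 : 0 ≤ M := by
    have h1 := hM 0
    have h2 := pa_one h 0
    linarith
  have h1 : SS α n ≤ n * M := by
    unfold SS
    have := Finset.sum_le_card_nsmul (Finset.range n) (fun k => (pa α (k + 1) : ℝ)) M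
      (fun k _ => hM k)
    simpa [Finset.card_range, nsmul_eq_mul] using this
  have h2 : (1 : ℝ) ≤ n := by exact_mod_cast hn
  have h3 : (n : ℝ) * M ≤ M * (n : ℝ) ^ 2 := by
    nlinarith [mul_nonneg hM0 (by positivity : (0 : ℝ) ≤ n)]
  linarith

/-- The value at `(p, q)` of the homogeneous form of degree `d` of `f`. -/
def form (f : ℤ[X]) (d : ℕ) (p q : ℤ) : ℤ :=
  ∑ i ∈ Finset.range (d + 1), f.coeff i * (p ^ i * q ^ (d - i))

lemma form_real (f : ℤ[X]) {d : ℕ} (hd : f.natDegree ≤ d) (p q : ℤ) (hq : (q : ℝ) ≠ 0) :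
    ((form f d p q : ℤ) : ℝ) = (q : ℝ) ^ d * aeval ((p : ℝ) / q) f := by
  unfold form
  rw [aeval_eq_sum_range' (Nat.lt_succ_of_le hd), Finset.mul_sum]
  push_cast
  apply Finset.sum_congr rfl
  intro i hi
  have hi' : i ≤ d := Nat.lt_succ_iff.mp (Finset.mem_range.mp hi)
  have : (q : ℝ) ^ d = q ^ i * q ^ (d - i) := by rw [← pow_add, Nat.add_sub_cancel' hi']
  rw [this, zsmul_eq_mul, div_pow]
  field_simp

lemma integral_of_form (f : ℤ[X]) {d : ℕ} (hd : f.natDegree ≤ d) {p q r s : ℤ} {α w : ℝ}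
    (hα : aeval α f = 0) (hw : (p : ℝ) * w + r = α * (q * w + s)) (hm : form f d p q ≠ 0) :
    IsIntegral ℤ ((form f d p q : ℝ) * w) := by
  classical
  set g : ℤ[X] := ∑ i ∈ Finset.range (d + 1),
    C (f.coeff i) * ((C p * X + C r) ^ i * (C q * X + C s) ^ (d - i)) with hg
  have hlin : ∀ a b : ℤ, (C a * X + C b : ℤ[X]).natDegree ≤ 1 := fun a b => natDegree_linear_le
  have hdeg1 : ∀ i ≤ d, ((C p * X + C r : ℤ[X]) ^ i * (C q * X + C s) ^ (d - i)).natDegree ≤ d := by
    intro i hi
    refine le_trans natDegree_mul_le ?_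
    have h1 : ((C p * X + C r : ℤ[X]) ^ i).natDegree ≤ i * 1 :=
      natDegree_pow_le_of_le i (hlin p r)
    have h2 : ((C q * X + C s : ℤ[X]) ^ (d - i)).natDegree ≤ (d - i) * 1 :=
      natDegree_pow_le_of_le (d - i) (hlin q s)
    omega
  have hdeg : g.natDegree ≤ d := by
    rw [hg]
    apply natDegree_sum_le_of_forall_le
    intro i hi
    refine le_trans (natDegree_C_mul_le _ _) (hdeg1 i ?_)
    exact Nat.lt_succ_iff.mp (Finset.mem_range.mp hi)
  have hcoeff : g.coeff d = form f d p q := by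
    rw [hg, finsetSum_coeff]
    unfold form
    apply Finset.sum_congr rfl
    intro i hi
    have hi' : i ≤ d := Nat.lt_succ_iff.mp (Finset.mem_range.mp hi)
    rw [coeff_C_mul]
    congr 1
    have h1 : ((C p * X + C r : ℤ[X]) ^ i).natDegree ≤ i := by
      simpa using natDegree_pow_le_of_le i (hlin p r)
    have h2 : ((C q * X + C s : ℤ[X]) ^ (d - i)).natDegree ≤ d - i := by
      simpa using natDegree_pow_le_of_le (d - i) (hlin q s)
    have h3 := coeff_mul_add_eq_of_natDegree_le h1 h2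
    rw [Nat.add_sub_cancel' hi'] at h3
    rw [h3]
    have h4 := coeff_pow_of_natDegree_le (m := i) (hlin p r)
    have h5 := coeff_pow_of_natDegree_le (m := d - i) (hlin q s)
    rw [mul_one] at h4 h5
    have h6 : ∀ a b : ℤ, (C a * X + C b : ℤ[X]).coeff 1 = a := by
      intro a b
      rw [coeff_add, coeff_C_mul, coeff_X_one, coeff_C_of_ne_zero one_ne_zero]
      ring
    rw [h4, h5, h6, h6]
  have hlead : g.leadingCoeff = form f d p q := by
    have h1 : g.natDegree = d := by
      apply le_antisymm hdeg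
      apply le_natDegree_of_ne_zero
      rw [hcoeff]; exact hm
    rw [leadingCoeff, h1, hcoeff]
  have heval : aeval w g = 0 := by
    rw [hg, map_sum]
    have h1 : ∀ i ∈ Finset.range (d + 1),
        aeval w (C (f.coeff i) * ((C p * X + C r) ^ i * (C q * X + C s) ^ (d - i)) : ℤ[X]) =
          ((q : ℝ) * w + s) ^ d * (f.coeff i • α ^ i) := by
      intro i hi
      have hi' : i ≤ d := Nat.lt_succ_iff.mp (Finset.mem_range.mp hi)
      have h2 : ((q : ℝ) * w + s) ^ d = (q * w + s) ^ i * (q * w + s) ^ (d - i) := by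
        rw [← pow_add, Nat.add_sub_cancel' hi']
      simp only [map_mul, map_pow, map_add, aeval_C, aeval_X]
      simp only [algebraMap_int_eq, eq_intCast]
      rw [hw, h2, zsmul_eq_mul, mul_pow]
      ring
    rw [Finset.sum_congr rfl h1, ← Finset.mul_sum,
      ← aeval_eq_sum_range' (Nat.lt_succ_of_le hd), hα, mul_zero]
  have := isIntegral_leadingCoeff_smul g w heval
  rw [hlead, zsmul_eq_mul] at this
  exact this

end Pool.Agent.Lib.MP_7bb85c_nt
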