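import Pool.Agent.Lib.MP_7bb85c_nt.NearA

/-! Degrees and conjugates under integer Moebius maps. -/

set_option autoImplicit false

namespace Pool.Agent.Lib.MP_7bb85c_nt

open Polynomial

lemma integral_of_deg {α : ℝ} {d : ℕ} (hd : 1 ≤ d) (hdeg : (minpoly ℚ α).natDegree = d) :
    IsIntegral ℚ α := by
  by_contra hcon
  rw [minpoly.eq_zero hcon] at hdeg
  simp at hdeg
  omega

lemma irr_of_deg' {α : ℝ} {d : ℕ} (hd : 2 ≤ d) (hdeg : (minpoly ℚ α).natDegree = d) :
    Irrational α := by
  rintro ⟨q, hq⟩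
  have h1 : minpoly ℚ α = X - C q := by
    rw [← hq]
    exact minpoly.eq_X_sub_C ℝ q
  rw [h1, natDegree_X_sub_C] at hdeg
  omega

lemma mem_adjoin {α β : ℝ} (hα : Irrational α) {A B G H : ℤ} (h : Rel α β A B G H) :
    β ∈ IntermediateField.adjoin ℚ {α} := by
  rw [eq_div_of_rel hα h]
  have h1 : α ∈ IntermediateField.adjoin ℚ {α} :=
    IntermediateField.mem_adjoin_simple_self ℚ α
  have hi : ∀ n : ℤ, (n : ℝ) ∈ IntermediateField.adjoin ℚ {α} := fun n => intCast_mem _ n
  exact div_mem (add_mem (mul_mem (hi A) h1) (hi B)) (add_mem (mul_mem (hi G) h1) (hi H))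

lemma deg_eq {α β : ℝ} (hα : Irrational α) (hβ : Irrational β) {A B G H : ℤ}
    (h : Rel α β A B G H) {d : ℕ} (hd : 1 ≤ d) (hdeg : (minpoly ℚ α).natDegree = d) :
    (minpoly ℚ β).natDegree = d := by
  have h1 : β ∈ IntermediateField.adjoin ℚ {α} := mem_adjoin hα h
  have h2 : α ∈ IntermediateField.adjoin ℚ {β} := mem_adjoin hβ h.symm
  have h3 : IntermediateField.adjoin ℚ {β} = IntermediateField.adjoin ℚ {α} := by
    apply le_antisymm
    · rw [IntermediateField.adjoin_simple_le_iff]; exact h1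
    · rw [IntermediateField.adjoin_simple_le_iff]; exact h2
  have hint := integral_of_deg hd hdeg
  have hfin : FiniteDimensional ℚ (IntermediateField.adjoin ℚ {α}) :=
    IntermediateField.adjoin.finiteDimensional hint
  have hintβ : IsIntegral ℚ β := by
    have h4 : IsIntegral ℚ (⟨β, h1⟩ : IntermediateField.adjoin ℚ {α}) :=
      Algebra.IsIntegral.isIntegral _
    exact h4.map (IntermediateField.adjoin ℚ {α}).val
  rw [← IntermediateField.adjoin.finrank hintβ, h3, IntermediateField.adjoin.finrank hint, hdeg]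

lemma conj_rel {α β : ℝ} (hα : Irrational α) {A B G H : ℤ} (h : Rel α β A B G H) {d : ℕ}
    (hd : 1 ≤ d) (hdeg : (minpoly ℚ α).natDegree = d) {z : ℂ} (hz : aeval z (minpoly ℚ β) = 0) :
    ∃ x : ℂ, aeval x (minpoly ℚ α) = 0 ∧ z * (G * x + H) = A * x + B := by
  have h1 : β ∈ IntermediateField.adjoin ℚ {α} := mem_adjoin hα h
  have h0 : α ∈ IntermediateField.adjoin ℚ {α} := IntermediateField.mem_adjoin_simple_self ℚ α
  have hint := integral_of_deg hd hdeg
  have hfin : FiniteDimensional ℚ (IntermediateField.adjoin ℚ {α}) :=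
    IntermediateField.adjoin.finiteDimensional hint
  set b : IntermediateField.adjoin ℚ {α} := ⟨β, h1⟩ with hb
  set a : IntermediateField.adjoin ℚ {α} := ⟨α, h0⟩ with ha
  have hmb : minpoly ℚ β = minpoly ℚ b :=
    minpoly.algebraMap_eq (B := IntermediateField.adjoin ℚ {α}) (B' := ℝ)
      (algebraMap (IntermediateField.adjoin ℚ {α}) ℝ).injective b
  have hma : minpoly ℚ α = minpoly ℚ a :=
    minpoly.algebraMap_eq (B := IntermediateField.adjoin ℚ {α}) (B' := ℝ)
      (algebraMap (IntermediateField.adjoin ℚ {α}) ℝ).injective a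
  have hne : minpoly ℚ b ≠ 0 := minpoly.ne_zero (Algebra.IsIntegral.isIntegral b)
  have hzr : z ∈ (minpoly ℚ b).rootSet ℂ := by
    rw [mem_rootSet]
    exact ⟨hne, by rw [← hmb]; exact hz⟩
  rw [← Algebra.IsAlgebraic.range_eval_eq_rootSet_minpoly ℂ b] at hzr
  obtain ⟨σ, hσ⟩ := hzr
  refine ⟨σ a, ?_, ?_⟩
  · rw [hma, aeval_algHom_apply, minpoly.aeval, map_zero]
  · have h2 : b * ((G : IntermediateField.adjoin ℚ {α}) * a + H) = A * a + B := by
      apply Subtype.ext
      push_cast
      exact h.2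
    have h3 := congrArg σ h2
    simp only [map_mul, map_add, map_intCast] at h3
    have hσ' : σ b = z := hσ
    rw [hσ'] at h3
    exact h3

end Pool.Agent.Lib.MP_7bb85c_nt
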