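import Pool.Agent.Lib.MP_7bb85c_nt.NearB

/-! Nearly Pisot numbers in the orbits of algebraic integers. -/

set_option autoImplicit false

namespace Pool.Agent.Lib.MP_7bb85c_nt

open Polynomial

lemma local_bounds {α : ℝ} {f : ℤ[X]} (hf : aeval α f = 0) (hd : aeval α (derivative f) ≠ 0) :
    ∃ c : ℝ, 0 < c ∧ ∃ δ : ℝ, 0 < δ ∧ ∀ x : ℝ, |x - α| < δ →
      c * |x - α| ≤ |aeval x f| ∧ |aeval x f| ≤ 3 * c * |x - α| := by
  have h1 : HasDerivAt (fun x : ℝ => aeval x f) (aeval α (derivative f)) α :=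
    f.hasDerivAt_aeval α
  have h2 := hasDerivAt_iff_isLittleO.mp h1
  set D : ℝ := aeval α (derivative f) with hD
  have hD0 : 0 < |D| := abs_pos.mpr hd
  have h3 := h2.def (show 0 < |D| / 2 by positivity)
  rw [Metric.eventually_nhds_iff] at h3
  obtain ⟨δ, hδ, h4⟩ := h3
  refine ⟨|D| / 2, by positivity, δ, hδ, fun x hx => ?_⟩
  have h5 := h4 (show dist x α < δ by rw [Real.dist_eq]; exact hx)
  simp only [Real.norm_eq_abs, smul_eq_mul, hf, sub_zero] at h5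
  have h6 : |(x - α) * D| = |x - α| * |D| := abs_mul _ _
  have h7 : |(aeval x f : ℝ)| ≤ |aeval x f - (x - α) * D| + |(x - α) * D| := by
    have := abs_add_le (aeval x f - (x - α) * D) ((x - α) * D)
    rwa [sub_add_cancel] at this
  have h8 : |(x - α) * D| ≤ |aeval x f - (x - α) * D| + |(aeval x f : ℝ)| := by
    have := abs_add_le (-(aeval x f - (x - α) * D)) (aeval x f : ℝ)
    rw [abs_neg] at this
    have h9 : -(aeval x f - (x - α) * D) + aeval x f = (x - α) * D := by ring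
    rwa [h9] at this
  constructor
  · nlinarith
  · nlinarith

lemma z_eq {z x : ℂ} {p q r s m N σ : ℤ} (hq : 0 < q) (hdet : p * s - q * r = 1)
    (hY : (p : ℂ) - q * x ≠ 0)
    (h : z * (((-q : ℤ) : ℂ) * x + p) = ((σ * (m * s - N * q) : ℤ) : ℂ) * x +
      ((σ * (N * p - m * r) : ℤ) : ℂ)) :
    z = σ * (((N : ℂ) - m * s / q) + m / (q * (p - q * x))) := by
  have hq0 : (q : ℂ) ≠ 0 := by exact_mod_cast hq.ne'
  have hdet' : (p : ℂ) * s - q * r = 1 := by exact_mod_cast hdet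
  push_cast at h
  have h1 : z * ((p : ℂ) - q * x) = σ * (m * s - N * q) * x + σ * (N * p - m * r) := by
    linear_combination h
  have h2 : z * ((p : ℂ) - q * x) * q =
      σ * (((N : ℂ) - m * s / q) + m / (q * (p - q * x))) * ((p : ℂ) - q * x) * q := by
    have h3 : σ * (((N : ℂ) - m * s / q) + m / (q * (p - q * x))) * ((p : ℂ) - q * x) * q =
        σ * ((N * q - m * s) * (p - q * x) + m) := by
      field_simp
    rw [h3, h1]
    linear_combination ((σ : ℂ) * m) * hdet'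
  have h4 := mul_right_cancel₀ hq0 h2
  exact mul_right_cancel₀ hY h4

lemma z_bound {z x : ℂ} {p q r s m N σ : ℤ} (hq : 0 < q) (hdet : p * s - q * r = 1)
    (hσ : |σ| = 1) (hY : (p : ℂ) - q * x ≠ 0)
    (h : z * (((-q : ℤ) : ℂ) * x + p) = ((σ * (m * s - N * q) : ℤ) : ℂ) * x +
      ((σ * (N * p - m * r) : ℤ) : ℂ)) :
    ‖z - (((σ : ℝ) * ((N : ℝ) - (m : ℝ) * s / q) : ℝ) : ℂ)‖ =
      |(m : ℝ)| / (q * ‖(p : ℂ) - q * x‖) := by
  have h1 : ‖(σ : ℂ)‖ = 1 := by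
    rw [Complex.norm_intCast]
    have : ((|σ| : ℤ) : ℝ) = 1 := by rw [hσ]; norm_num
    rwa [Int.cast_abs] at this
  have h2 : z - (((σ : ℝ) * ((N : ℝ) - (m : ℝ) * s / q) : ℝ) : ℂ) =
      σ * (m / (q * (p - q * x))) := by
    rw [z_eq hq hdet hY h]
    push_cast
    ring
  rw [h2, norm_mul, h1, one_mul, norm_div, norm_mul, Complex.norm_intCast, Complex.norm_intCast]
  congr 2
  exact abs_of_pos (by exact_mod_cast hq)

lemma pow_rpow {q c θ : ℝ} {d : ℕ} (hd : 3 ≤ d) (hq : 1 ≤ q) (hc : 0 < c)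
    (hθ : c / 2 * q ^ (d - 2) ≤ θ) (hθ' : θ ≤ 4 * c * q ^ (d - 2)) :
    q ^ (d - 2) / q ^ 2 ≤ ((2 / c) ^ (((d : ℝ) - 4) / (d - 2)) +
      (1 / (4 * c)) ^ (((d : ℝ) - 4) / (d - 2))) * θ ^ (((d : ℝ) - 4) / (d - 2)) := by
  have hd3 : (3 : ℝ) ≤ d := by exact_mod_cast hd
  have hq0 : 0 < q := by linarith
  have hQ : 0 < q ^ (d - 2) := by positivity
  have hθ0 : 0 < θ := lt_of_lt_of_le (by positivity) hθ
  set κ : ℝ := ((d : ℝ) - 4) / (d - 2) with hκ
  have h6 : ((d - 2 : ℕ) : ℝ) = (d : ℝ) - 2 := by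
    rw [Nat.cast_sub (show 2 ≤ d by omega)]; norm_num
  have h7 : (d : ℝ) - 2 ≠ 0 := by linarith
  have heq : q ^ (d - 2) / q ^ 2 = (q ^ (d - 2)) ^ κ := by
    rw [← Real.rpow_natCast q (d - 2), ← Real.rpow_mul hq0.le, ← Real.rpow_natCast q 2,
      ← Real.rpow_sub hq0, h6, hκ, mul_div_cancel₀ _ h7]
    congr 1
    push_cast
    ring
  rw [heq, add_mul]
  have hA : 0 ≤ (2 / c) ^ κ * θ ^ κ := by positivity
  have hB : 0 ≤ (1 / (4 * c)) ^ κ * θ ^ κ := by positivity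
  rcases le_total 0 κ with hk | hk
  · have h1 : q ^ (d - 2) ≤ 2 / c * θ := by
      have h2 : 2 / c * (c / 2 * q ^ (d - 2)) ≤ 2 / c * θ :=
        mul_le_mul_of_nonneg_left hθ (by positivity)
      have h3 : 2 / c * (c / 2 * q ^ (d - 2)) = q ^ (d - 2) := by field_simp
      linarith
    have h4 : (q ^ (d - 2)) ^ κ ≤ (2 / c * θ) ^ κ := Real.rpow_le_rpow hQ.le h1 hk
    rw [Real.mul_rpow (by positivity) hθ0.le] at h4
    linarith
  · have h1 : 1 / (4 * c) * θ ≤ q ^ (d - 2) := by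
      have h2 : 1 / (4 * c) * θ ≤ 1 / (4 * c) * (4 * c * q ^ (d - 2)) :=
        mul_le_mul_of_nonneg_left hθ' (by positivity)
      have h3 : 1 / (4 * c) * (4 * c * q ^ (d - 2)) = q ^ (d - 2) := by field_simp
      linarith
    have h4 : (q ^ (d - 2)) ^ κ ≤ (1 / (4 * c) * θ) ^ κ :=
      Real.rpow_le_rpow_of_nonpos (by positivity) h1 hk
    rw [Real.mul_rpow (by positivity) hθ0.le] at h4
    linarith

end Pool.Agent.Lib.MP_7bb85c_nt
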