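import Pool.Agent.Lib.MP_7bb85c_nt.NearC

/-! Nearly Pisot numbers in the orbits of algebraic integers: the main construction. -/

set_option autoImplicit false

namespace Pool.Agent.Lib.MP_7bb85c_nt

open Polynomial

lemma root_gap {α : ℝ} {d : ℕ} (hd : 1 ≤ d) (hdeg : (minpoly ℚ α).natDegree = d) :
    ∃ δ : ℝ, 0 < δ ∧ ∀ x : ℂ, aeval x (minpoly ℚ α) = 0 → x ≠ α → δ ≤ ‖x - α‖ := by
  have hne : minpoly ℚ α ≠ 0 := minpoly.ne_zero (integral_of_deg hd hdeg)
  have hfin : (((minpoly ℚ α).rootSet ℂ) \ {(α : ℂ)}).Finite :=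
    (rootSet_finite (minpoly ℚ α) ℂ).subset Set.sdiff_subset
  have hmem : (((minpoly ℚ α).rootSet ℂ) \ {(α : ℂ)})ᶜ ∈ nhds (α : ℂ) :=
    hfin.isClosed.isOpen_compl.mem_nhds (fun h => h.2 rfl)
  obtain ⟨δ, hδ, hball⟩ := Metric.mem_nhds_iff.mp hmem
  refine ⟨δ, hδ, fun x hx hxα => ?_⟩
  by_contra hcon
  push Not at hcon
  have h1 : x ∈ Metric.ball (α : ℂ) δ := by
    rw [Metric.mem_ball, dist_eq_norm]; exact hcon
  exact hball h1 ⟨(mem_rootSet.mpr ⟨hne, hx⟩), hxα⟩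

lemma minpoly_int {α : ℝ} {d : ℕ} (hd : 1 ≤ d) (hdeg : (minpoly ℚ α).natDegree = d)
    (hint : IsIntegral ℤ α) :
    (minpoly ℤ α).natDegree = d ∧ aeval α (derivative (minpoly ℤ α)) ≠ 0 := by
  have hmin : minpoly ℚ α = (minpoly ℤ α).map (algebraMap ℤ ℚ) :=
    minpoly.isIntegrallyClosed_eq_field_fractions' ℚ hint
  constructor
  · rw [← hdeg, hmin, natDegree_map_eq_of_injective]
    exact (algebraMap ℤ ℚ).injective_int
  · have h1 : (minpoly ℚ α).Separable :=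
      (minpoly.irreducible (integral_of_deg hd hdeg)).separable
    have h2 := h1.aeval_derivative_ne_zero (minpoly.aeval ℚ α)
    rw [hmin, derivative_map, aeval_map_algebraMap] at h2
    exact h2

theorem near {α : ℝ} {d : ℕ} (hd : 3 ≤ d) (hdeg : (minpoly ℚ α).natDegree = d)
    (hint : IsIntegral ℤ α) (hunb : ¬ ∃ M : ℝ, ∀ k, (pa α (k + 1) : ℝ) ≤ M) {ε : ℝ} (hε : 0 < ε) {T : ℝ} (hT : 0 < T) :
    ∃ (θ : ℝ) (A B G H : ℤ), Rel α θ A B G H ∧ IsIntegral ℤ θ ∧ T < θ ∧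
      ∃ t : ℝ, |t| ≤ 1 / 2 ∧ ∀ z : ℂ, aeval z (minpoly ℚ θ) = 0 → z ≠ θ →
        ‖z - t‖ < ε * θ ^ (((d : ℝ) - 4) / (d - 2)) := by
  have hirr : Irrational α := irr_of_deg' (by omega) hdeg
  obtain ⟨hfd, hder⟩ := minpoly_int (by omega) hdeg hint
  set f : ℤ[X] := minpoly ℤ α with hf
  have hfα : aeval α f = 0 := minpoly.aeval ℤ α
  obtain ⟨c, hc, δ, hδ, hloc⟩ := local_bounds hfα hder
  obtain ⟨δ0, hδ0, hgap⟩ := root_gap (by omega) hdeg
  set κ : ℝ := ((d : ℝ) - 4) / (d - 2) with hκ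
  set K : ℝ := 6 * c / δ0 * ((2 / c) ^ κ + (1 / (4 * c)) ^ κ) with hK
  have hK0 : 0 < K := by positivity
  set η : ℝ := min (ε / (2 * K)) 1 with hη
  have hη0 : 0 < η := lt_min (by positivity) one_pos
  have hη1 : η ≤ 1 := min_le_right _ _
  have hηK : K * η ≤ ε / 2 := by
    have h1 : η ≤ ε / (2 * K) := min_le_left _ _
    have h2 : K * η ≤ K * (ε / (2 * K)) := mul_le_mul_of_nonneg_left h1 hK0.le
    have h3 : K * (ε / (2 * K)) = ε / 2 := by field_simp
    linarith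
  obtain ⟨n, hX, happ⟩ := good_approx hirr hunb hη0 (1 + 1 / δ + 2 / δ0 + (3 + T) / c)
  obtain ⟨s, b, hsb⟩ := PQ_coprime α n
  set q : ℤ := QQ α (n + 1) with hq
  set p : ℤ := PP α (n + 1) with hp
  have hdet : p * s - q * (-b) = 1 := by linarith
  set r : ℤ := -b with hr
  have hq1 : (1 : ℝ) ≤ q := QR_pos hirr n
  have hqZ : 0 < q := by
    have : (0 : ℝ) < q := by linarith
    exact_mod_cast this
  have hqR : (0 : ℝ) < q := by linarith
  have hδ1 : 0 < 1 / δ := by positivity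
  have hδ2 : 0 < 2 / δ0 := by positivity
  have hc3 : 0 < (3 + T) / c := by positivity
  have hXδ : 1 / δ < q := by linarith
  have hXδ0 : 2 / δ0 < q := by linarith
  have hXc : (3 + T) / c < q := by linarith
  set E : ℝ := (q : ℝ) * α - p with hE
  have hE0 : E ≠ 0 := by
    have h1 : (q : ℝ) * α - p ≠ 0 := by
      have := form_ne hirr (a := q) (b := -p) (fun h => by omega)
      intro h0
      apply this
      push_cast
      linarith
    exact h1
  have hEa : 0 < |E| := abs_pos.mpr hE0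
  have hEq : |E| ≤ η / q := by
    rw [le_div_iff₀ hqR]
    linarith [happ, mul_comm |E| (q : ℝ)]
  have hE1 : |E| ≤ 1 := by
    refine le_trans hEq ?_
    rw [div_le_one hqR]
    linarith
  -- the approximation is close to `α`
  have hpq : (p : ℝ) / q - α = -E / q := by
    rw [hE]; field_simp; ring
  have hpqa : |(p : ℝ) / q - α| = |E| / q := by
    rw [hpq, abs_div, abs_neg, abs_of_pos hqR]
  have hclose : |(p : ℝ) / q - α| < δ := by
    rw [hpqa, div_lt_iff₀ hqR]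
    have h1 : 1 < δ * q := by
      rw [div_lt_iff₀ hδ] at hXδ
      linarith
    linarith
  obtain ⟨hlow, hup⟩ := hloc _ hclose
  rw [hpqa] at hlow hup
  set m : ℤ := form f d p q with hm
  have hmR : (m : ℝ) = (q : ℝ) ^ d * aeval ((p : ℝ) / q) f :=
    form_real f (le_of_eq hfd) p q hqR.ne'
  have hqd : (q : ℝ) ^ d = q ^ (d - 2) * q * q := by
    rw [mul_assoc, ← sq, ← pow_add]
    congr 1; omega
  have hma : |(m : ℝ)| = (q : ℝ) ^ d * |(aeval ((p : ℝ) / q) f : ℝ)| := by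
    rw [hmR, abs_mul, abs_of_pos (by positivity : (0 : ℝ) < (q : ℝ) ^ d)]
  have hqd2 : 0 < (q : ℝ) ^ (d - 2) := by positivity
  have hmlow : c * |E| * (q ^ (d - 2) * q) ≤ |(m : ℝ)| := by
    rw [hma, hqd]
    have h1 : (q : ℝ) ^ (d - 2) * q * q * (c * (|E| / q)) ≤
        (q : ℝ) ^ (d - 2) * q * q * |(aeval ((p : ℝ) / q) f : ℝ)| :=
      mul_le_mul_of_nonneg_left hlow (by positivity)
    have h2 : (q : ℝ) ^ (d - 2) * q * q * (c * (|E| / q)) = c * |E| * (q ^ (d - 2) * q) := by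
      field_simp
    linarith
  have hmup : |(m : ℝ)| ≤ 3 * c * |E| * (q ^ (d - 2) * q) := by
    rw [hma, hqd]
    have h1 : (q : ℝ) ^ (d - 2) * q * q * |(aeval ((p : ℝ) / q) f : ℝ)| ≤
        (q : ℝ) ^ (d - 2) * q * q * (3 * c * (|E| / q)) :=
      mul_le_mul_of_nonneg_left hup (by positivity)
    have h2 : (q : ℝ) ^ (d - 2) * q * q * (3 * c * (|E| / q)) =
        3 * c * |E| * (q ^ (d - 2) * q) := by
      field_simp
    linarith
  have hmpos : 0 < |(m : ℝ)| := lt_of_lt_of_le (by positivity) hmlow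
  have hm0 : m ≠ 0 := by
    intro h0
    rw [h0] at hmpos
    simp at hmpos
  -- the algebraic integer
  set w : ℝ := -((s : ℝ) * α - r) / E with hw
  have hdetR : (p : ℝ) * s - q * r = 1 := by exact_mod_cast hdet
  have hwrel : (p : ℝ) * w + r = α * (q * w + s) := by
    rw [hw]
    field_simp
    rw [hE]
    ring
  have hwint : IsIntegral ℤ ((m : ℝ) * w) := integral_of_form f (le_of_eq hfd) hfα hwrel hm0
  set N : ℤ := round ((m : ℝ) * s / q) with hN
  have hNb : |(m : ℝ) * s / q - N| ≤ 1 / 2 := abs_sub_round _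
  set ω : ℝ := (m : ℝ) * w + N with hω
  have hωint : IsIntegral ℤ ω := hwint.add (isIntegral_algebraMap (R := ℤ) (x := N))
  have hωeq : ω = -((m : ℝ) / (q * E)) - ((m : ℝ) * s / q - N) := by
    rw [hω, hw]
    field_simp
    rw [hE]
    linear_combination (-(m : ℝ)) * hdetR
  have hωlow : c * (q : ℝ) ^ (d - 2) - 1 / 2 ≤ |ω| := by
    have h1 : |(m : ℝ) / (q * E)| = |(m : ℝ)| / (q * |E|) := by
      rw [abs_div, abs_mul, abs_of_pos hqR]
    have h2 : c * (q : ℝ) ^ (d - 2) ≤ |(m : ℝ) / (q * E)| := by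
      rw [h1, le_div_iff₀ (by positivity)]
      linarith [hmlow]
    have h3 : |(m : ℝ) / (q * E)| ≤ |ω| + |(m : ℝ) * s / q - N| := by
      have h4 : (m : ℝ) / (q * E) = -ω + -((m : ℝ) * s / q - N) := by rw [hωeq]; ring
      rw [h4]
      refine le_trans (abs_add_le _ _) ?_
      rw [abs_neg, abs_neg]
    linarith
  have hqq : (q : ℝ) ≤ q ^ (d - 2) := by
    have : (q : ℝ) ^ 1 ≤ q ^ (d - 2) := pow_le_pow_right₀ hq1 (by omega)
    simpa using this
  have hc3' : 3 + T ≤ c * (q : ℝ) ^ (d - 2) := by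
    rw [div_lt_iff₀ hc] at hXc
    have : c * (q : ℝ) ≤ c * q ^ (d - 2) := mul_le_mul_of_nonneg_left hqq hc.le
    linarith
  have hω1 : 1 < |ω| := by linarith
  have hωT : T < |ω| := by linarith
  have hω2 : c / 2 * (q : ℝ) ^ (d - 2) ≤ |ω| := by linarith
  have hω3 : |ω| ≤ 4 * c * (q : ℝ) ^ (d - 2) := by
    have h1 : |(m : ℝ) / (q * E)| = |(m : ℝ)| / (q * |E|) := by
      rw [abs_div, abs_mul, abs_of_pos hqR]
    have h2 : |(m : ℝ) / (q * E)| ≤ 3 * c * (q : ℝ) ^ (d - 2) := by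
      rw [h1, div_le_iff₀ (by positivity)]
      linarith [hmup]
    have h3 : |ω| ≤ |(m : ℝ) / (q * E)| + |(m : ℝ) * s / q - N| := by
      rw [hωeq]
      refine le_trans (abs_sub _ _) ?_
      rw [abs_neg]
    linarith
  obtain ⟨σ, hσ1, hσω⟩ : ∃ σ : ℤ, |σ| = 1 ∧ |ω| = σ * ω := by
    rcases abs_cases ω with ⟨h1, _⟩ | ⟨h1, _⟩
    · exact ⟨1, by simp, by rw [h1]; simp⟩
    · exact ⟨-1, by simp, by rw [h1]; simp⟩
  have hσ0 : σ ≠ 0 := by
    intro h0
    rw [h0] at hσ1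
    simp at hσ1
  have hrel : Rel α |ω| (σ * (m * s - N * q)) (σ * (N * p - m * r)) (-q) p := by
    constructor
    · have : σ * (m * s - N * q) * p - σ * (N * p - m * r) * -q = σ * m * (p * s - q * r) := by
        ring
      rw [this, hdet, mul_one]
      exact mul_ne_zero hσ0 hm0
    · rw [hσω, hω, hw]
      push_cast
      have h1 : (-(q : ℝ)) * α + p = -E := by rw [hE]; ring
      rw [h1]
      have h2 : (σ : ℝ) * ((m : ℝ) * (-((s : ℝ) * α - r) / E) + N) * -E =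
          σ * (m * (s * α - r) - N * E) := by
        field_simp
        ring
      rw [h2, hE]
      ring
  refine ⟨|ω|, _, _, _, _, hrel, ?_, hωT, ?_⟩
  · rw [hσω]
    exact (isIntegral_algebraMap (R := ℤ) (x := σ)).mul hωint
  · refine ⟨(σ : ℝ) * ((N : ℝ) - (m : ℝ) * s / q), ?_, ?_⟩
    · have h1 : |(σ : ℝ)| = 1 := by
        have : ((|σ| : ℤ) : ℝ) = 1 := by rw [hσ1]; norm_num
        rwa [Int.cast_abs] at this
      rw [abs_mul, h1, one_mul, abs_sub_comm]
      exact hNb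
    intro z hz hzne
    obtain ⟨x, hx, hzx⟩ := conj_rel hirr hrel (by omega) hdeg hz
    have hxα : x ≠ α := by
      intro h0
      apply hzne
      have h1 : (((-q : ℤ) : ℝ) * α + p) ≠ 0 := by
        have h2 : ((-q : ℤ) : ℝ) * α + p = -E := by rw [hE]; push_cast; ring
        rw [h2]
        exact neg_ne_zero.mpr hE0
      have h3 : ((((-q : ℤ) : ℝ) * α + p : ℝ) : ℂ) ≠ 0 := by exact_mod_cast h1
      have h4 := congrArg (fun t : ℝ => (t : ℂ)) hrel.2
      rw [h0] at hzx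
      push_cast at h3 h4 hzx
      exact mul_right_cancel₀ h3 (hzx.trans h4.symm)
    have hgapx := hgap x hx hxα
    have hYlow : (q : ℝ) * δ0 / 2 ≤ ‖(p : ℂ) - q * x‖ := by
      have h1 : (p : ℂ) - q * x = -((q : ℂ) * (x - α) + ((E : ℝ) : ℂ)) := by
        rw [hE]; push_cast; ring
      rw [h1, norm_neg]
      have h2 : ‖(q : ℂ) * (x - α)‖ ≤ ‖(q : ℂ) * (x - α) + ((E : ℝ) : ℂ)‖ + ‖((E : ℝ) : ℂ)‖ := by
        have := norm_sub_le ((q : ℂ) * (x - α) + ((E : ℝ) : ℂ)) ((E : ℝ) : ℂ)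
        rwa [add_sub_cancel_right] at this
      rw [norm_mul, Complex.norm_intCast, Complex.norm_real, Real.norm_eq_abs,
        abs_of_pos hqR] at h2
      have h3 : (q : ℝ) * δ0 ≤ q * ‖x - α‖ := mul_le_mul_of_nonneg_left hgapx hqR.le
      have h4 : 2 < q * δ0 := by
        rw [div_lt_iff₀ hδ0] at hXδ0
        exact hXδ0
      linarith
    have hYpos : 0 < ‖(p : ℂ) - q * x‖ := lt_of_lt_of_le (by positivity) hYlow
    have hY : (p : ℂ) - q * x ≠ 0 := norm_pos_iff.mp hYpos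
    have hzb := z_bound hqZ hdet hσ1 hY hzx
    have h5 : |(m : ℝ)| / (q * ‖(p : ℂ) - q * x‖) ≤
        6 * c / δ0 * η * (q ^ (d - 2) / q ^ 2) := by
      rw [div_le_iff₀ (by positivity)]
      have h6 : 6 * c / δ0 * η * ((q : ℝ) ^ (d - 2) / q ^ 2) * (q * (q * δ0 / 2)) ≤
          6 * c / δ0 * η * ((q : ℝ) ^ (d - 2) / q ^ 2) * (q * ‖(p : ℂ) - q * x‖) :=
        mul_le_mul_of_nonneg_left (mul_le_mul_of_nonneg_left hYlow hqR.le) (by positivity)
      refine le_trans ?_ h6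
      have h8 : 6 * c / δ0 * η * ((q : ℝ) ^ (d - 2) / q ^ 2) * (q * (q * δ0 / 2)) =
          3 * c * η * q ^ (d - 2) := by
        field_simp
        ring
      rw [h8]
      refine le_trans hmup ?_
      have h9 : |E| * q ≤ η := by
        rw [le_div_iff₀ hqR] at hEq
        exact hEq
      have h10 : 3 * c * q ^ (d - 2) * (|E| * q) ≤ 3 * c * q ^ (d - 2) * η :=
        mul_le_mul_of_nonneg_left h9 (by positivity)
      linarith
    have h11 := pow_rpow hd hq1 hc hω2 hω3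
    have h12 : 6 * c / δ0 * η * ((q : ℝ) ^ (d - 2) / q ^ 2) ≤
        6 * c / δ0 * η * (((2 / c) ^ κ + (1 / (4 * c)) ^ κ) * |ω| ^ κ) :=
      mul_le_mul_of_nonneg_left h11 (by positivity)
    have h13 : 6 * c / δ0 * η * (((2 / c) ^ κ + (1 / (4 * c)) ^ κ) * |ω| ^ κ) =
        K * η * |ω| ^ κ := by
      rw [hK]; ring
    have h14 : 0 < |ω| ^ κ := Real.rpow_pos_of_pos (by linarith) κ
    have h15 : K * η * |ω| ^ κ ≤ ε / 2 * |ω| ^ κ := mul_le_mul_of_nonneg_right hηK h14.le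
    have h16 : ε / 2 * |ω| ^ κ < ε * |ω| ^ κ := mul_lt_mul_of_pos_right (by linarith) h14
    linarith

end Pool.Agent.Lib.MP_7bb85c_nt
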