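import Pool.Agent.Lib.MP_7bb85c_nt.NearD

/-! Q1 for numbers of degree at least three and nearly Pisot numbers. -/

set_option autoImplicit false

namespace Pool.Agent.Lib.MP_7bb85c_nt

open Polynomial

lemma rel_iff {α β : ℝ} (hα : Irrational α) (hβ : Irrational β) {A B G H : ℤ}
    (h : Rel α β A B G H) : Quadratic α ↔ Quadratic β := by
  constructor
  · intro hq
    obtain ⟨C, hC⟩ := sum_le hα hβ h
    exact quad_of_le (fun n => by rw [partSum_eq hβ, partSum_eq hα]; exact hC n) hq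
  · intro hq
    obtain ⟨C, hC⟩ := sum_le hβ hα h.symm
    exact quad_of_le (fun n => by rw [partSum_eq hβ, partSum_eq hα]; exact hC n) hq

lemma exists_int_mul {α : ℝ} {d : ℕ} (hd : 1 ≤ d) (hdeg : (minpoly ℚ α).natDegree = d) :
    ∃ b : ℤ, b ≠ 0 ∧ IsIntegral ℤ ((b : ℝ) * α) := by
  have h1 : IsAlgebraic ℚ α := (integral_of_deg hd hdeg).isAlgebraic
  have h2 : IsAlgebraic ℤ α := (IsFractionRing.isAlgebraic_iff ℤ ℚ ℝ).mpr h1
  obtain ⟨b, hb, hb'⟩ := h2.exists_integral_multiple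
  refine ⟨b, hb, ?_⟩
  rwa [zsmul_eq_mul] at hb'

/-- `θ > 1` is an algebraic integer of degree `d` with small conjugates. -/
def Near (d : ℕ) (ε θ : ℝ) : Prop :=
  (minpoly ℚ θ).natDegree = d ∧ IsIntegral ℤ θ ∧ 1 < θ ∧
    ∀ z : ℂ, aeval z (minpoly ℚ θ) = 0 → z ≠ θ →
      ‖z‖ < ε * max 1 (θ ^ (((d : ℝ) - 4) / (d - 2))) ∧
      ∀ z' : ℂ, aeval z' (minpoly ℚ θ) = 0 → z' ≠ θ →
        ‖z - z'‖ < ε * θ ^ (((d : ℝ) - 4) / (d - 2))

/-- A multiple of `θ`, translated by an integer, has small conjugates. -/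
lemma recentre {θ : ℝ} {d : ℕ} (hd : 3 ≤ d) (hdeg : (minpoly ℚ θ).natDegree = d)
    (hint : IsIntegral ℤ θ) (hθ4 : 4 < θ) {ε : ℝ} (hε : 0 < ε) {L : ℕ} (hL : 2 ≤ ε * (L + 1))
    (hL0 : 0 < L) {t : ℝ} (ht : |t| ≤ 1 / 2)
    (hz : ∀ z : ℂ, aeval z (minpoly ℚ θ) = 0 → z ≠ θ →
      ‖z - t‖ < ε / (4 * L ^ 2) * θ ^ (((d : ℝ) - 4) / (d - 2))) :
    ∃ (θ' : ℝ) (A B G H : ℤ), Rel θ θ' A B G H ∧ Near d ε θ' := by
  have hirr : Irrational θ := irr_of_deg' (by omega) hdeg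
  have hd3 : (3 : ℝ) ≤ d := by exact_mod_cast hd
  set κ : ℝ := ((d : ℝ) - 4) / (d - 2) with hκ
  have hκ1 : κ ≤ 1 := by
    rw [hκ, div_le_one (by linarith)]
    linarith
  have hκ2 : -1 ≤ κ := by
    rw [hκ, le_div_iff₀ (by linarith)]
    linarith
  obtain ⟨j, k, hk0, hkL, hjk⟩ := Real.exists_int_int_abs_mul_sub_le t hL0
  have hkR : (1 : ℝ) ≤ k := by exact_mod_cast hk0
  have hkLR : (k : ℝ) ≤ L := by exact_mod_cast hkL
  have hLR : (1 : ℝ) ≤ L := by exact_mod_cast hL0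
  have hj : |(j : ℝ)| ≤ k / 2 + 1 / 2 := by
    have h1 : (j : ℝ) = k * t - (k * t - j) := by ring
    have h2 : |(j : ℝ)| ≤ |(k : ℝ) * t| + |(k : ℝ) * t - j| := by
      conv_lhs => rw [h1]
      exact abs_sub _ _
    have h3 : |(k : ℝ) * t| ≤ k / 2 := by
      rw [abs_mul, abs_of_pos (by linarith : (0 : ℝ) < k)]
      nlinarith
    have h4 : (1 : ℝ) / (L + 1) ≤ 1 / 2 := by
      apply one_div_le_one_div_of_le (by norm_num)
      linarith
    linarith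
  have hjle := abs_le.mp hj
  have hrel : Rel θ ((k : ℝ) * θ - j) k (-j) 0 1 := by
    refine ⟨by simpa using hk0.ne', by push_cast; ring⟩
  have hθ' : θ / 2 ≤ (k : ℝ) * θ - j := by nlinarith
  have hθ'1 : 1 < (k : ℝ) * θ - j := by linarith
  have hθ'2 : (k : ℝ) * θ - j ≤ 2 * L * θ := by nlinarith
  have hirr' : Irrational ((k : ℝ) * θ - j) :=
    (hirr.intCast_mul hk0.ne').sub_intCast j
  -- the conjugates
  set θ' : ℝ := (k : ℝ) * θ - j with hθ'def
  have hpow : θ ^ κ ≤ 2 * L * θ' ^ κ := by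
    have h5 : 0 ≤ θ' ^ κ := Real.rpow_nonneg (by linarith) κ
    rcases le_total 0 κ with hk | hk
    · have h3 : θ ^ κ ≤ (2 * θ') ^ κ :=
        Real.rpow_le_rpow (by linarith) (by linarith) hk
      rw [Real.mul_rpow (by norm_num) (by linarith)] at h3
      have h4 : (2 : ℝ) ^ κ ≤ 2 := by
        have := Real.rpow_le_rpow_of_exponent_le (show (1 : ℝ) ≤ 2 by norm_num) hκ1
        rwa [Real.rpow_one] at this
      have h6 : (2 : ℝ) ^ κ * θ' ^ κ ≤ 2 * θ' ^ κ := mul_le_mul_of_nonneg_right h4 h5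
      have h7 : 2 * θ' ^ κ ≤ 2 * L * θ' ^ κ := by nlinarith
      linarith
    · have h1 : 1 / (2 * (L : ℝ)) * θ' ≤ θ := by
        rw [one_div, inv_mul_le_iff₀ (by positivity)]
        exact hθ'2
      have h3 : θ ^ κ ≤ (1 / (2 * (L : ℝ)) * θ') ^ κ :=
        Real.rpow_le_rpow_of_nonpos (by positivity) h1 hk
      rw [Real.mul_rpow (by positivity) (by linarith)] at h3
      have h4 : (1 / (2 * (L : ℝ))) ^ κ ≤ 2 * L := by
        rw [one_div, Real.inv_rpow (by positivity), ← Real.rpow_neg (by positivity)]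
        have := Real.rpow_le_rpow_of_exponent_le (show (1 : ℝ) ≤ 2 * L by linarith)
          (show -κ ≤ 1 by linarith)
        rwa [Real.rpow_one] at this
      have h6 : (1 / (2 * (L : ℝ))) ^ κ * θ' ^ κ ≤ 2 * L * θ' ^ κ :=
        mul_le_mul_of_nonneg_right h4 h5
      linarith
  have hθκ : 0 < θ' ^ κ := Real.rpow_pos_of_pos (by linarith) κ
  have hkey : ∀ z : ℂ, aeval z (minpoly ℚ θ') = 0 → z ≠ θ' →
      ‖z - (((k : ℝ) * t - j : ℝ) : ℂ)‖ < ε / 2 * θ' ^ κ := by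
    intro z hz' hzne
    obtain ⟨x, hx, hzx⟩ := conj_rel hirr hrel (by omega) hdeg hz'
    have hzx' : z = k * x - j := by
      push_cast at hzx
      linear_combination hzx
    have hxθ : x ≠ θ := by
      intro h0
      apply hzne
      rw [hzx', h0, hθ'def]
      push_cast
      ring
    have h1 := hz x hx hxθ
    have h7 : z - (((k : ℝ) * t - j : ℝ) : ℂ) = k * (x - t) := by
      rw [hzx']; push_cast; ring
    rw [h7, norm_mul, Complex.norm_intCast, abs_of_pos (by linarith : (0 : ℝ) < k)]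
    have h9 : (k : ℝ) * ‖x - t‖ < k * (ε / (4 * L ^ 2) * θ ^ κ) :=
      mul_lt_mul_of_pos_left h1 (by linarith)
    have h10 : (k : ℝ) * (ε / (4 * L ^ 2) * θ ^ κ) ≤ L * (ε / (4 * L ^ 2) * (2 * L * θ' ^ κ)) := by
      have h11 : 0 ≤ ε / (4 * (L : ℝ) ^ 2) := by positivity
      have h12 : ε / (4 * (L : ℝ) ^ 2) * θ ^ κ ≤ ε / (4 * (L : ℝ) ^ 2) * (2 * L * θ' ^ κ) :=
        mul_le_mul_of_nonneg_left hpow h11
      have h13 : 0 ≤ ε / (4 * (L : ℝ) ^ 2) * (2 * L * θ' ^ κ) := by positivity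
      calc (k : ℝ) * (ε / (4 * L ^ 2) * θ ^ κ)
          ≤ k * (ε / (4 * (L : ℝ) ^ 2) * (2 * L * θ' ^ κ)) :=
            mul_le_mul_of_nonneg_left h12 (by linarith)
        _ ≤ L * (ε / (4 * (L : ℝ) ^ 2) * (2 * L * θ' ^ κ)) :=
            mul_le_mul_of_nonneg_right hkLR h13
    have h14 : (L : ℝ) * (ε / (4 * (L : ℝ) ^ 2) * (2 * L * θ' ^ κ)) = ε / 2 * θ' ^ κ := by
      field_simp
      ring
    linarith
  refine ⟨θ', _, _, _, _, hrel, deg_eq hirr hirr' hrel (by omega) hdeg, ?_, hθ'1, ?_⟩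
  · exact ((isIntegral_algebraMap (R := ℤ) (x := k)).mul hint).sub
      (isIntegral_algebraMap (R := ℤ) (x := j))
  · intro z hz' hzne
    have h1 := hkey z hz' hzne
    refine ⟨?_, ?_⟩
    · have h2 : ‖z‖ ≤ ‖z - (((k : ℝ) * t - j : ℝ) : ℂ)‖ + |(k : ℝ) * t - j| := by
        have := norm_add_le (z - (((k : ℝ) * t - j : ℝ) : ℂ)) (((k : ℝ) * t - j : ℝ) : ℂ)
        rwa [sub_add_cancel, Complex.norm_real, Real.norm_eq_abs] at this
      have h13 : (1 : ℝ) / (L + 1) ≤ ε / 2 := by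
        rw [div_le_iff₀ (by linarith)]
        linarith
      have h3 : ε / 2 * θ' ^ κ ≤ ε / 2 * max 1 (θ' ^ κ) :=
        mul_le_mul_of_nonneg_left (le_max_right _ _) (by positivity)
      have h4 : ε / 2 * 1 ≤ ε / 2 * max 1 (θ' ^ κ) :=
        mul_le_mul_of_nonneg_left (le_max_left _ _) (by positivity)
      linarith
    · intro z' hz1 hz1ne
      have h2 := hkey z' hz1 hz1ne
      have h3 : z - z' = (z - (((k : ℝ) * t - j : ℝ) : ℂ)) - (z' - (((k : ℝ) * t - j : ℝ) : ℂ)) := by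
        ring
      rw [h3]
      refine lt_of_le_of_lt (norm_sub_le _ _) ?_
      linarith

lemma mem_of_rel {F : IntermediateField ℚ ℝ} {α β : ℝ} (hα : Irrational α) (hF : α ∈ F)
    {A B G H : ℤ} (h : Rel α β A B G H) : β ∈ F := by
  have h1 := mem_adjoin hα h
  have h2 : IntermediateField.adjoin ℚ {α} ≤ F := by
    rw [IntermediateField.adjoin_simple_le_iff]
    exact hF
  exact h2 h1

/-- Two integer Moebius maps compose. -/
lemma Rel.comp {α β γ : ℝ} (hα : Irrational α) {A B G H A' B' G' H' : ℤ}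
    (h : Rel α β A B G H) (h' : Rel β γ A' B' G' H') :
    Rel α γ (A' * A + B' * G) (A' * B + B' * H) (G' * A + H' * G) (G' * B + H' * H) := by
  constructor
  · have h1 : (A' * A + B' * G) * (G' * B + H' * H) - (A' * B + B' * H) * (G' * A + H' * G) =
        (A' * H' - B' * G') * (A * H - B * G) := by ring
    rw [h1]
    exact mul_ne_zero h'.1 h.1
  · have h2 : (G : ℝ) * α + H ≠ 0 := form_ne_of_det hα h.1
    have h3 := h.2
    have h4 := h'.2
    push_cast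
    linear_combination ((G : ℝ) * α + H) * h4 + (A' - γ * G') * h3

lemma bdd_of_rel {α β : ℝ} (hα : Irrational α) (hβ : Irrational β) {A B G H : ℤ}
    (h : Rel α β A B G H) (hM : ∃ M : ℝ, ∀ k, (pa α (k + 1) : ℝ) ≤ M) :
    ∃ M : ℝ, ∀ k, (pa β (k + 1) : ℝ) ≤ M := by
  obtain ⟨M, hM⟩ := hM
  obtain ⟨c, ι, hι⟩ := match' hα hβ h (D := (A * H - B * G).natAbs) (Int.abs_eq_natAbs _)
  set D : ℕ := (A * H - B * G).natAbs
  refine ⟨max (SS β c) (max ((8 * D : ℕ) : ℝ) (((6 * D : ℕ) : ℝ) * M)), fun k => ?_⟩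
  rcases lt_or_ge k c with hk | hk
  · refine le_trans ?_ (le_max_left _ _)
    unfold SS
    exact Finset.single_le_sum (f := fun k => (pa β (k + 1) : ℝ))
      (fun i _ => by have := pa_one hβ i; linarith) (Finset.mem_range.mpr hk)
  · refine le_trans ?_ (le_max_right _ _)
    rcases le_or_gt (pa β (k + 1) : ℝ) ((8 * D : ℕ) : ℝ) with h1 | h1
    · exact le_trans h1 (le_max_left _ _)
    · refine le_trans (hι k hk h1).2.1 (le_trans ?_ (le_max_right _ _))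
      exact mul_le_mul_of_nonneg_left (hM _) (by positivity)

theorem unbounded_near {α : ℝ} (d : ℕ) (ε : ℝ) (hd : 3 ≤ d) (hε : 0 < ε)
    (hdeg : (minpoly ℚ α).natDegree = d) (hunb : ¬ ∃ M : ℝ, ∀ k, (pa α (k + 1) : ℝ) ≤ M) :
    ∃ (θ : ℝ) (A B G H : ℤ), Rel α θ A B G H ∧ Near d ε θ := by
  have hα : Irrational α := irr_of_deg' (by omega) hdeg
  obtain ⟨b, hb, hbint⟩ := exists_int_mul (by omega) hdeg
  have hbα : Irrational ((b : ℝ) * α) := hα.intCast_mul hb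
  have hrel : Rel α ((b : ℝ) * α) b 0 0 1 := by
    refine ⟨by simpa using hb, by push_cast; ring⟩
  have hbdeg := deg_eq hα hbα hrel (by omega) hdeg
  have hunb' : ¬ ∃ M : ℝ, ∀ k, (pa ((b : ℝ) * α) (k + 1) : ℝ) ≤ M :=
    fun h => hunb (bdd_of_rel hbα hα hrel.symm h)
  obtain ⟨L, hL⟩ := exists_nat_ge (2 / ε)
  have hL' : 2 ≤ ε * ((L + 1 : ℕ) + 1) := by
    rw [div_le_iff₀ hε] at hL
    push_cast
    nlinarith
  obtain ⟨θ, A, B, G, H, hr, hint, h1, t, ht, hz⟩ :=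
    near hd hbdeg hbint hunb' (ε := ε / (4 * (L + 1 : ℕ) ^ 2)) (by positivity)
      (T := 4) (by norm_num)
  have hθ : Irrational θ := by
    rw [eq_div_of_rel hbα hr]
    exact irr_div hbα (rel_div hbα hr.1)
  have hθd := deg_eq hbα hθ hr (by omega) hbdeg
  obtain ⟨θ', A', B', G', H', hr', hnear⟩ :=
    recentre hd hθd hint h1 hε hL' (Nat.succ_pos L) ht hz
  exact ⟨θ', _, _, _, _, (hrel.comp hα hr).comp hα hr', hnear⟩

theorem near_orbit (d : ℕ) (ε : ℝ) (hd : 3 ≤ d) (hε : 0 < ε) {α : ℝ}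
    (hdeg : (minpoly ℚ α).natDegree = d) (hunb : ¬ ∃ M : ℝ, ∀ k, (pa α (k + 1) : ℝ) ≤ M) :
    ∃ A B G H : ℤ, A * H - B * G ≠ 0 ∧ Near d ε ((A * α + B) / (G * α + H)) := by
  have hα : Irrational α := irr_of_deg' (by omega) hdeg
  obtain ⟨θ, A, B, G, H, hr, hn⟩ := unbounded_near d ε hd hε hdeg hunb
  refine ⟨A, B, G, H, hr.1, ?_⟩
  rw [← eq_div_of_rel hα hr]
  exact hn

theorem near_fields (d : ℕ) (ε : ℝ) (hd : 3 ≤ d) (hε : 0 < ε) (F : IntermediateField ℚ ℝ) :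
    (∀ α ∈ F, (minpoly ℚ α).natDegree = d → Quadratic α) ↔
      ∀ θ ∈ F, Near d ε θ → Quadratic θ := by
  constructor
  · intro h θ hθF hθ
    exact h θ hθF hθ.1
  · intro h α hαF hdeg
    have hα : Irrational α := irr_of_deg' (by omega) hdeg
    by_cases hb : ∃ M : ℝ, ∀ k, (pa α (k + 1) : ℝ) ≤ M
    · obtain ⟨M, hM⟩ := hb
      exact quad_of_bdd hα hM
    · obtain ⟨θ, A, B, G, H, hr, hn⟩ := unbounded_near d ε hd hε hdeg hb
      have hθ : Irrational θ := irr_of_deg' (by omega) hn.1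
      exact (rel_iff hα hθ hr).mpr (h θ (mem_of_rel hα hαF hr) hn)

end Pool.Agent.Lib.MP_7bb85c_nt
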