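import Pool.Agent.Lib.MP_7bb85c_nt.Unit

/-! Cubic Pisot units of norm one. -/

set_option autoImplicit false

namespace Pool.Agent.Lib.MP_7bb85c_nt

open NumberField NumberField.Units

/-- The identity embedding of a real field. -/
noncomputable def idEmb (F : IntermediateField ℚ ℝ) : F →+* ℂ :=
  Complex.ofRealHom.comp (algebraMap F ℝ)

lemma idEmb_apply (F : IntermediateField ℚ ℝ) (x : F) : idEmb F x = ((x : ℝ) : ℂ) := rfl

lemma idEmb_conj (F : IntermediateField ℚ ℝ) :
    ComplexEmbedding.conjugate (idEmb F) = idEmb F := by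
  ext x
  rw [ComplexEmbedding.conjugate_coe_eq, idEmb_apply, Complex.conj_ofReal]

lemma exists_pisot_unit (F : IntermediateField ℚ ℝ) (hF : Module.finrank ℚ F = 3)
    [NumberField F] :
    ∃ u : (𝓞 F)ˣ, 1 < |((((u : 𝓞 F) : F) : ℝ))| ∧
      ∀ φ : F →+* ℂ, φ ≠ idEmb F → ‖φ ((u : 𝓞 F) : F)‖ < 1 := by
  classical
  set w1 : InfinitePlace F := InfinitePlace.mk (idEmb F) with hw1
  obtain ⟨u, hu⟩ := dirichletUnitTheorem.exists_unit F w1
  have hu0 : ((u : 𝓞 F) : F) ≠ 0 := by
    intro h0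
    have h1 : (u : 𝓞 F) = 0 := by
      apply RingOfIntegers.ext
      rw [h0]; rfl
    exact u.ne_zero h1
  have hcard : 1 < Fintype.card (InfinitePlace F) := by
    have h1 := InfinitePlace.card_add_two_mul_card_eq_rank F
    have h2 := InfinitePlace.card_eq_nrRealPlaces_add_nrComplexPlaces F
    rw [hF] at h1
    omega
  refine ⟨u, ?_, ?_⟩
  · have hsum := sum_mult_mul_log u
    rw [← Finset.add_sum_erase _ _ (Finset.mem_univ w1)] at hsum
    have hne : (Finset.univ.erase w1).Nonempty := by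
      rw [← Finset.card_pos, Finset.card_erase_of_mem (Finset.mem_univ w1), Finset.card_univ]
      omega
    have hneg : ∑ w ∈ Finset.univ.erase w1, (w.mult : ℝ) * Real.log (w ((u : 𝓞 F) : F)) < 0 := by
      apply Finset.sum_neg _ hne
      intro w hw
      have h1 := hu w (Finset.ne_of_mem_erase hw)
      have h2 : (0 : ℝ) < w.mult := by exact_mod_cast InfinitePlace.mult_pos
      exact mul_neg_of_pos_of_neg h2 h1
    have hpos : 0 < (w1.mult : ℝ) * Real.log (w1 ((u : 𝓞 F) : F)) := by linarith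
    have h2 : (0 : ℝ) < w1.mult := by exact_mod_cast InfinitePlace.mult_pos
    have h3 : 0 < Real.log (w1 ((u : 𝓞 F) : F)) := (mul_pos_iff_of_pos_left h2).mp hpos
    have h4 : w1 ((u : 𝓞 F) : F) = |((((u : 𝓞 F) : F) : ℝ))| := by
      rw [hw1, InfinitePlace.apply, idEmb_apply, Complex.norm_real, Real.norm_eq_abs]
    rw [h4] at h3
    by_contra hcon
    push Not at hcon
    have := Real.log_nonpos (abs_nonneg _) hcon
    linarith
  · intro φ hφ
    have hne : InfinitePlace.mk φ ≠ w1 := by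
      intro h0
      rw [hw1, InfinitePlace.mk_eq_iff] at h0
      rcases h0 with h1 | h1
      · exact hφ h1
      · apply hφ
        rw [← idEmb_conj F, ← h1]
        exact (ComplexEmbedding.involutive_conjugate F φ).symm
    have h1 := hu _ hne
    rw [InfinitePlace.apply] at h1
    by_contra hcon
    push Not at hcon
    have := Real.log_nonneg hcon
    linarith

/-- The polynomial of an algebraic integer of a cubic field. -/
lemma int_root (F : IntermediateField ℚ ℝ) (hF : Module.finrank ℚ F = 3) [NumberField F]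
    (x : 𝓞 F) : ∃ b c : ℤ,
      (((x : F) : ℝ)) ^ 3 + b * (((x : F) : ℝ)) ^ 2 + c * (((x : F) : ℝ)) -
        LinearMap.det (Algebra.lmul ℤ (𝓞 F) x) = 0 := by
  have hrk : Module.finrank ℤ (𝓞 F) = 3 := by rw [RingOfIntegers.rank, hF]
  set T : (𝓞 F) →ₗ[ℤ] (𝓞 F) := Algebra.lmul ℤ (𝓞 F) x with hT
  have hdeg : T.charpoly.natDegree = 3 := by rw [LinearMap.charpoly_natDegree, hrk]
  have hmon : T.charpoly.coeff 3 = 1 := by
    have := T.charpoly_monic
    unfold Polynomial.Monic Polynomial.leadingCoeff at this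
    rw [hdeg] at this
    exact this
  have hcoef : T.charpoly.coeff 0 = -LinearMap.det T := by
    have h1 := LinearMap.det_eq_sign_charpoly_coeff T
    rw [hrk] at h1
    linarith
  have hroot : Polynomial.aeval x T.charpoly = 0 := by
    have h1 := T.aeval_self_charpoly
    have h2 : Polynomial.aeval T T.charpoly = Algebra.lmul ℤ (𝓞 F)
        (Polynomial.aeval x T.charpoly) := by
      rw [hT, Polynomial.aeval_algHom_apply]
    rw [h2] at h1
    exact (Algebra.lmul_injective (R := ℤ) (A := 𝓞 F)) (by rw [h1, map_zero])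
  refine ⟨T.charpoly.coeff 2, T.charpoly.coeff 1, ?_⟩
  rw [Polynomial.aeval_eq_sum_range, hdeg] at hroot
  simp only [Finset.sum_range_succ, Finset.sum_range_zero, zero_add, hmon] at hroot
  set φ : 𝓞 F →+* ℝ := (algebraMap F ℝ).comp (algebraMap (𝓞 F) F) with hφ
  have h5 := congrArg φ hroot
  simp only [map_add, map_mul, map_intCast, map_pow, map_zero, zsmul_eq_mul, pow_zero, pow_one,
    mul_one, Int.cast_one, one_mul] at h5
  have h6 : φ x = (((x : F) : ℝ)) := rfl
  rw [h6, hcoef] at h5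
  push_cast at h5
  linarith

/-- Every cubic subfield of the real numbers contains a Pisot unit `θ > 1` which is a root of some
`X³ + b X² + c X - 1`. -/
theorem exists_pisot (F : IntermediateField ℚ ℝ) (hF : Module.finrank ℚ F = 3) :
    ∃ θ ∈ F, Irrational θ ∧ (minpoly ℚ θ).natDegree = 3 ∧ 1 < θ ∧
      ∃ b c : ℤ, θ ^ 3 + b * θ ^ 2 + c * θ - 1 = 0 ∧
        ∀ z : ℂ, z ^ 3 + b * z ^ 2 + c * z - 1 = 0 → z ≠ θ → ‖z‖ < 1 := by
  have hfin : FiniteDimensional ℚ F := Module.finite_of_finrank_pos (by rw [hF]; norm_num)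
  have hNF : NumberField F := { to_charZero := inferInstance, to_finiteDimensional := hfin }
  obtain ⟨u, hu1, hu2⟩ := exists_pisot_unit F hF
  set v : (𝓞 F)ˣ := u * u with hv
  set θ : ℝ := ((((v : 𝓞 F) : F) : ℝ)) with hθ
  have hθu : θ = ((((u : 𝓞 F) : F) : ℝ)) ^ 2 := by
    rw [hθ, hv, sq]
    push_cast
    rfl
  have hθ1 : 1 < θ := by
    rw [hθu, ← sq_abs]
    nlinarith
  have hvt : v ∉ torsion F := by
    intro hmem
    have h1 := (mem_torsion F).mp hmem (InfinitePlace.mk (idEmb F))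
    rw [InfinitePlace.apply, idEmb_apply, Complex.norm_real, Real.norm_eq_abs] at h1
    rw [← hθ, abs_of_pos (by linarith)] at h1
    linarith
  have hirr : Irrational θ := unit_irr F hF hvt
  have hmem : θ ∈ F := (((v : 𝓞 F) : F)).2
  have hdeg := deg_three F hF hmem hirr
  obtain ⟨b, c, hroot⟩ := int_root F hF (v : 𝓞 F)
  have hdet : LinearMap.det (Algebra.lmul ℤ (𝓞 F) (v : 𝓞 F)) = 1 := by
    have h1 : Algebra.lmul ℤ (𝓞 F) (v : 𝓞 F) =
        Algebra.lmul ℤ (𝓞 F) (u : 𝓞 F) * Algebra.lmul ℤ (𝓞 F) (u : 𝓞 F) := by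
      rw [hv, Units.val_mul, map_mul]
    rw [h1, map_mul]
    have h2 : IsUnit (LinearMap.det (Algebra.lmul ℤ (𝓞 F) (u : 𝓞 F))) :=
      (u.isUnit.map (Algebra.lmul ℤ (𝓞 F))).map LinearMap.det
    rcases Int.isUnit_iff.mp h2 with h3 | h3 <;> rw [h3] <;> norm_num
  rw [hdet, ← hθ] at hroot
  push_cast at hroot
  refine ⟨θ, hmem, hirr, hdeg, hθ1, b, c, hroot, ?_⟩
  intro z hz hzθ
  -- the minimal polynomial
  set P : Polynomial ℚ := Polynomial.X ^ 3 + (Polynomial.C (b : ℚ) * Polynomial.X ^ 2 +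
    Polynomial.C (c : ℚ) * Polynomial.X - 1) with hP
  have hPmon : P.Monic := by
    rw [hP]
    apply Polynomial.monic_X_pow_add
    apply lt_of_le_of_lt (b := (2 : WithBot ℕ))
    · compute_degree
    · exact_mod_cast (by norm_num : (2 : ℕ) < 3)
  have hPdeg : P.natDegree = 3 := by
    rw [hP]
    compute_degree!
  set a : F := ((v : 𝓞 F) : F) with ha
  have hint : IsIntegral ℚ a := Algebra.IsIntegral.isIntegral a
  have hmin : minpoly ℚ θ = minpoly ℚ a :=
    minpoly.algebraMap_eq (B := F) (B' := ℝ) (algebraMap F ℝ).injective a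
  have hPa : Polynomial.aeval θ P = 0 := by
    rw [hP]
    simp only [map_add, map_sub, map_mul, map_pow, Polynomial.aeval_X, Polynomial.aeval_C,
      map_one, eq_ratCast, Rat.cast_intCast]
    linarith
  have hPmin : P = minpoly ℚ a := by
    rw [← hmin]
    have hintθ : IsIntegral ℚ θ := by
      have : IsIntegral ℚ ((algebraMap F ℝ) a) := hint.map (IsScalarTower.toAlgHom ℚ F ℝ)
      exact this
    exact Polynomial.eq_of_monic_of_dvd_of_natDegree_le (minpoly.monic hintθ) hPmon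
      (minpoly.dvd ℚ θ hPa) (by rw [hPdeg, hdeg])
  have hzroot : z ∈ (minpoly ℚ a).rootSet ℂ := by
    rw [← hPmin, Polynomial.mem_rootSet]
    refine ⟨hPmon.ne_zero, ?_⟩
    rw [hP]
    simp only [map_add, map_sub, map_mul, map_pow, Polynomial.aeval_X, Polynomial.aeval_C,
      map_one, eq_ratCast, Rat.cast_intCast]
    linear_combination hz
  rw [← Algebra.IsAlgebraic.range_eval_eq_rootSet_minpoly ℂ a] at hzroot
  obtain ⟨ψ, hψ⟩ := hzroot
  simp only at hψ
  have hne : (ψ : F →+* ℂ) ≠ idEmb F := by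
    intro h0
    apply hzθ
    have h1 : (ψ : F →+* ℂ) a = idEmb F a := by rw [h0]
    rw [idEmb_apply] at h1
    rw [← hψ]
    exact h1
  have h2 := hu2 _ hne
  have h3 : (ψ : F →+* ℂ) a = ((ψ : F →+* ℂ) ((u : 𝓞 F) : F)) ^ 2 := by
    rw [← map_pow, ha, hv]
    congr 1
    rw [sq]
    push_cast
    rfl
  have h4 : z = ((ψ : F →+* ℂ) ((u : 𝓞 F) : F)) ^ 2 := by
    rw [← h3, ← hψ]
    rfl
  rw [h4, norm_pow]
  have h5 := norm_nonneg ((ψ : F →+* ℂ) ((u : 𝓞 F) : F))
  nlinarith

/-- Q1's bound for all real cubic irrational numbers follows from the bound for cubic Pisot units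
of norm one. -/
theorem pisot_iff :
    (∀ α : ℝ, (minpoly ℚ α).natDegree = 3 → Quadratic α) ↔
      ∀ (θ : ℝ) (b c : ℤ), 1 < θ → θ ^ 3 + b * θ ^ 2 + c * θ - 1 = 0 →
        (∀ z : ℂ, z ^ 3 + b * z ^ 2 + c * z - 1 = 0 → z ≠ θ → ‖z‖ < 1) →
        (minpoly ℚ θ).natDegree = 3 → Quadratic θ := by
  constructor
  · intro h θ b c _ _ _ hd
    exact h θ hd
  · intro h
    rw [fields_iff]
    intro F hF
    obtain ⟨θ, hθ, hirr, hd, h1, b, c, hroot, hz⟩ := exists_pisot F hF
    exact ⟨θ, hθ, hirr, h θ b c h1 hroot hz hd⟩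

end Pool.Agent.Lib.MP_7bb85c_nt
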