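import Pool.Agent.Lib.MP_7bb85c_nt.NearE

/-! If the sums of the partial quotients are not bounded by a quadratic function, then there are
convergents with a next partial quotient which is large in terms of the denominator. -/

set_option autoImplicit false

namespace Pool.Agent.Lib.MP_7bb85c_nt

open Polynomial

lemma fail_record {α : ℝ} (h : Irrational α) (hq : ¬ Quadratic α) (C : ℝ) (K : ℕ) :
    ∃ k : ℕ, K ≤ k ∧ (∀ j ≤ k, pa α (j + 1) ≤ pa α (k + 1)) ∧ C * (k + 1) < pa α (k + 1) := by
  have hS : 0 ≤ SS α K := by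
    unfold SS
    exact Finset.sum_nonneg (fun i _ => by have := pa_one h i; linarith)
  set C' : ℝ := max C 0 + SS α K with hC'
  have hC'0 : 0 ≤ C' := add_nonneg (le_max_right _ _) hS
  have hex : ∃ n : ℕ, 1 ≤ n ∧ C' * (n : ℝ) ^ 2 < SS α n := by
    by_contra hcon
    push Not at hcon
    exact hq ⟨C', fun n hn => by rw [partSum_eq h]; exact hcon n hn⟩
  obtain ⟨n, hn, hlt⟩ := hex
  have hne : (Finset.range n).Nonempty := Finset.nonempty_range_iff.mpr (by omega)
  obtain ⟨k, hk, hmax⟩ := Finset.exists_max_image (Finset.range n) (fun j => pa α (j + 1)) hne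
  have hkn : k < n := Finset.mem_range.mp hk
  have h1 : SS α n ≤ n * (pa α (k + 1) : ℝ) := by
    unfold SS
    have := Finset.sum_le_card_nsmul (Finset.range n) (fun j => (pa α (j + 1) : ℝ))
      (pa α (k + 1) : ℝ) (fun j hj => by exact_mod_cast hmax j hj)
    simpa [Finset.card_range, nsmul_eq_mul] using this
  have hnR : (1 : ℝ) ≤ n := by exact_mod_cast hn
  have h2 : C' * n < pa α (k + 1) := by
    by_contra hcon
    push Not at hcon
    have h3 : (n : ℝ) * pa α (k + 1) ≤ n * (C' * n) :=
      mul_le_mul_of_nonneg_left hcon (by linarith)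
    nlinarith
  have hkR : ((k : ℝ) + 1) ≤ n := by exact_mod_cast hkn
  refine ⟨k, ?_, ?_, ?_⟩
  · by_contra hcon
    push Not at hcon
    have h3 : (pa α (k + 1) : ℝ) ≤ SS α K := by
      unfold SS
      exact Finset.single_le_sum (f := fun k => (pa α (k + 1) : ℝ))
        (fun i _ => by have := pa_one h i; linarith) (Finset.mem_range.mpr hcon)
    have h4 : SS α K ≤ C' := by
      have := le_max_right C 0
      linarith
    nlinarith
  · intro j hj
    exact hmax j (Finset.mem_range.mpr (by omega))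
  · have h3 : C * (k + 1) ≤ C' * (k + 1) := by
      apply mul_le_mul_of_nonneg_right _ (by positivity)
      have := le_max_left C 0
      linarith
    have h4 : C' * (k + 1) ≤ C' * n := mul_le_mul_of_nonneg_left hkR hC'0
    linarith

lemma den_le {α : ℝ} (h : Irrational α) {k : ℕ} {a : ℤ} (ha : ∀ j ≤ k, pa α (j + 1) ≤ a) :
    ∀ n ≤ k, QQ α (n + 1) ≤ (a + 1) ^ n := by
  have ha0 : 1 ≤ a := le_trans (pa_pos h 0) (ha 0 (Nat.zero_le _))
  intro n
  induction n with
  | zero => intro _; show (1 : ℤ) ≤ (a + 1) ^ 0; simp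
  | succ n ih =>
    intro hn
    have h1 := ih (by omega)
    have h2 := QQ_mono h n
    have h3 := ha n (by omega)
    have h4 := (QQ_pos h n).1
    have h5 := pa_pos h n
    show pa α (n + 1) * QQ α (n + 1) + QQ α n ≤ (a + 1) ^ (n + 1)
    have h6 : pa α (n + 1) * QQ α (n + 1) + QQ α n ≤ (a + 1) * QQ α (n + 1) := by nlinarith
    have h7 : (a + 1) * QQ α (n + 1) ≤ (a + 1) * (a + 1) ^ n :=
      mul_le_mul_of_nonneg_left h1 (by omega)
    calc _ ≤ _ := h6
      _ ≤ _ := h7
      _ = (a + 1) ^ (n + 1) := by ring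

theorem rate {α : ℝ} (h : Irrational α) (hq : ¬ Quadratic α) {ε : ℝ} (hε : 0 < ε) (X : ℝ) :
    ∃ n : ℕ, X ≤ QQ α (n + 1) ∧
      (QQ α (n + 1) : ℝ) * |(QQ α (n + 1) : ℝ) * α - PP α (n + 1)| * Real.log (QQ α (n + 1)) ≤
        ε * Real.log (Real.log (QQ α (n + 1))) := by
  obtain ⟨K, hK⟩ := big h (max X (max (Real.exp (Real.exp (1 / ε))) (Real.exp 2)))
  obtain ⟨k, hk, hrec, hbig⟩ := fail_record h hq (2 / ε) K
  have hX := hK k hk
  set q : ℝ := (QQ α (k + 1) : ℝ) with hqdef
  have hX1 : X ≤ q := le_trans (le_max_left _ _) hX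
  have hX2 : Real.exp (Real.exp (1 / ε)) ≤ q :=
    le_trans (le_trans (le_max_left _ _) (le_max_right _ _)) hX
  have hX3 : Real.exp 2 ≤ q := le_trans (le_trans (le_max_right _ _) (le_max_right _ _)) hX
  have hq0 : 0 < q := lt_of_lt_of_le (Real.exp_pos _) hX3
  have hlog2 : 2 ≤ Real.log q := by
    rw [← Real.log_exp 2]
    exact Real.log_le_log (Real.exp_pos _) hX3
  have hlogexp : Real.exp (1 / ε) ≤ Real.log q := by
    rw [← Real.log_exp (Real.exp (1 / ε))]
    exact Real.log_le_log (Real.exp_pos _) hX2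
  have hloglog : 1 / ε ≤ Real.log (Real.log q) := by
    rw [← Real.log_exp (1 / ε)]
    exact Real.log_le_log (Real.exp_pos _) hlogexp
  refine ⟨k, hX1, ?_⟩
  set a : ℝ := (pa α (k + 1) : ℝ) with ha
  have ha1 : 1 ≤ a := pa_one h k
  have hu : q * |q * α - PP α (k + 1)| ≤ 1 / a := by
    have h1 := conv_quality h k
    rw [← hqdef] at h1
    rw [h1]
    have h2 := DD_pos h k
    have h3 := pa_le α (k + 1)
    have h5 := QR_nonneg h k
    rw [div_le_div_iff₀ h2 (by linarith)]
    have h6 : cq α (k + 1) * q ≤ DD α k := by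
      unfold DD; linarith
    have h7 : a * q ≤ cq α (k + 1) * q := mul_le_mul_of_nonneg_right h3 hq0.le
    linarith
  have hden : q ≤ (a + 1) ^ k := by
    have := den_le h hrec k le_rfl
    rw [hqdef, ha]
    exact_mod_cast this
  have hlogq : Real.log q ≤ k * Real.log (a + 1) := by
    have := Real.log_le_log hq0 hden
    rwa [Real.log_pow] at this
  have hloga : 0 < Real.log (a + 1) := Real.log_pos (by linarith)
  have hmain : Real.log q / a ≤ ε * Real.log (Real.log q) := by
    rcases le_or_gt (Real.log q) a with hc | hc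
    · have h1 : Real.log q / a ≤ 1 := by
        rw [div_le_one (by linarith)]
        exact hc
      have h2 : 1 ≤ ε * Real.log (Real.log q) := by
        have := mul_le_mul_of_nonneg_left hloglog hε.le
        rwa [mul_one_div_cancel hε.ne'] at this
      linarith
    · have h1 : Real.log (a + 1) ≤ 2 * Real.log (Real.log q) := by
        have h2 : a + 1 ≤ Real.log q ^ 2 := by nlinarith
        have := Real.log_le_log (by linarith) h2
        rwa [Real.log_pow] at this
      have h3 : (k : ℝ) ≤ ε / 2 * a := by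
        have h4 : 2 / ε * ((k : ℝ) + 1) < a := hbig
        have h5 : ε / 2 * (2 / ε * ((k : ℝ) + 1)) ≤ ε / 2 * a :=
          mul_le_mul_of_nonneg_left h4.le (by positivity)
        have h6 : ε / 2 * (2 / ε * ((k : ℝ) + 1)) = k + 1 := by field_simp
        linarith
      rw [div_le_iff₀ (by linarith)]
      have h7 : (k : ℝ) * Real.log (a + 1) ≤ ε / 2 * a * Real.log (a + 1) :=
        mul_le_mul_of_nonneg_right h3 hloga.le
      have h8 : ε / 2 * a * Real.log (a + 1) ≤ ε / 2 * a * (2 * Real.log (Real.log q)) :=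
        mul_le_mul_of_nonneg_left h1 (by positivity)
      linarith
  have h1 : q * |q * α - PP α (k + 1)| * Real.log q ≤ 1 / a * Real.log q :=
    mul_le_mul_of_nonneg_right hu (by linarith)
  have h2 : 1 / a * Real.log q = Real.log q / a := by ring
  linarith

/-- The function `log x / x`, up to constants. -/
lemma f_le {m x y : ℝ} (hm : 1 ≤ m) (hx : 0 < x) (hy : Real.exp 1 ≤ y) (hyx : y ≤ m * x) :
    Real.log x / x ≤ m * (Real.log y / y) := by
  have h1 : Real.log (m * x) / (m * x) ≤ Real.log y / y :=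
    Real.log_div_self_antitoneOn hy (le_trans hy hyx) hyx
  have h2 : Real.log x ≤ Real.log (m * x) :=
    Real.log_le_log hx (by nlinarith)
  have h3 : Real.log x / x ≤ m * (Real.log (m * x) / (m * x)) := by
    have h4 : m * (Real.log (m * x) / (m * x)) = Real.log (m * x) / x := by
      field_simp
    rw [h4]
    exact div_le_div_of_nonneg_right h2 hx.le
  have h5 : m * (Real.log (m * x) / (m * x)) ≤ m * (Real.log y / y) :=
    mul_le_mul_of_nonneg_left h1 (by linarith)
  linarith

end Pool.Agent.Lib.MP_7bb85c_nt
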