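import Pool.Agent.Lib.MP_7bb85c_nt.RateB

/-! Q1 for numbers of degree at least three and nearly Pisot numbers, with a rate. -/

set_option autoImplicit false

namespace Pool.Agent.Lib.MP_7bb85c_nt

open Polynomial

/-- `θ^((d-4)/(d-2)) log log θ / log θ`. -/
noncomputable def rad (d : ℕ) (θ : ℝ) : ℝ :=
  θ ^ (((d : ℝ) - 4) / (d - 2)) * (Real.log (Real.log θ) / Real.log θ)

/-- `θ > 1` is an algebraic integer of degree `d` with small and clustered conjugates. -/
def NearR (d : ℕ) (ε θ : ℝ) : Prop :=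
  (minpoly ℚ θ).natDegree = d ∧ IsIntegral ℤ θ ∧ 1 < θ ∧
    ∀ z : ℂ, aeval z (minpoly ℚ θ) = 0 → z ≠ θ →
      ‖z‖ < ε * max 1 (rad d θ) ∧
      ∀ z' : ℂ, aeval z' (minpoly ℚ θ) = 0 → z' ≠ θ → ‖z - z'‖ < ε * rad d θ

lemma log_ge_e {x : ℝ} (hx : 16 ≤ x) : Real.exp 1 ≤ Real.log x := by
  have h1 : Real.exp 1 < 2.7182818286 := Real.exp_one_lt_d9
  have h2 : (0.6931471803 : ℝ) < Real.log 2 := Real.log_two_gt_d9
  have h3 : Real.log 16 = 4 * Real.log 2 := by
    rw [show (16 : ℝ) = 2 ^ 4 by norm_num, Real.log_pow]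
    norm_num
  have h4 : Real.log 16 ≤ Real.log x := Real.log_le_log (by norm_num) hx
  linarith

lemma loglog_pos {x : ℝ} (hx : 16 ≤ x) : 0 < Real.log (Real.log x) / Real.log x := by
  have h1 := log_ge_e hx
  have h2 : 2 < Real.exp 1 := by
    have := Real.exp_one_gt_d9
    linarith
  exact div_pos (Real.log_pos (by linarith)) (by linarith)

/-- A multiple of `θ`, translated by an integer, has small conjugates. -/
lemma recentreR {θ : ℝ} {d : ℕ} (hd : 3 ≤ d) (hdeg : (minpoly ℚ θ).natDegree = d)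
    (hint : IsIntegral ℤ θ) {L : ℕ} (hθ4 : 32 * (L : ℝ) < θ) {ε : ℝ} (hε : 0 < ε)
    (hL : 2 ≤ ε * (L + 1)) (hL0 : 0 < L) {t : ℝ} (ht : |t| ≤ 1 / 2)
    (hz : ∀ z : ℂ, aeval z (minpoly ℚ θ) = 0 → z ≠ θ →
      ‖z - t‖ < ε / (8 * L ^ 2) * rad d θ) :
    ∃ (θ' : ℝ) (A B G H : ℤ), Rel θ θ' A B G H ∧ NearR d ε θ' := by
  have hirr : Irrational θ := irr_of_deg' (by omega) hdeg
  have hd3 : (3 : ℝ) ≤ d := by exact_mod_cast hd
  set κ : ℝ := ((d : ℝ) - 4) / (d - 2) with hκ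
  have hκ1 : κ ≤ 1 := by
    rw [hκ, div_le_one (by linarith)]
    linarith
  have hκ2 : -1 ≤ κ := by
    rw [hκ, le_div_iff₀ (by linarith)]
    linarith
  obtain ⟨j, k, hk0, hkL, hjk⟩ := Real.exists_int_int_abs_mul_sub_le t hL0
  have hkR : (1 : ℝ) ≤ k := by exact_mod_cast hk0
  have hkLR : (k : ℝ) ≤ L := by exact_mod_cast hkL
  have hLR : (1 : ℝ) ≤ L := by exact_mod_cast hL0
  have hθ32 : 32 < θ := by linarith
  have hj : |(j : ℝ)| ≤ k / 2 + 1 / 2 := by
    have h1 : (j : ℝ) = k * t - (k * t - j) := by ring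
    have h2 : |(j : ℝ)| ≤ |(k : ℝ) * t| + |(k : ℝ) * t - j| := by
      conv_lhs => rw [h1]
      exact abs_sub _ _
    have h3 : |(k : ℝ) * t| ≤ k / 2 := by
      rw [abs_mul, abs_of_pos (by linarith : (0 : ℝ) < k)]
      nlinarith
    have h4 : (1 : ℝ) / (L + 1) ≤ 1 / 2 := by
      apply one_div_le_one_div_of_le (by norm_num)
      linarith
    linarith
  have hjle := abs_le.mp hj
  have hrel : Rel θ ((k : ℝ) * θ - j) k (-j) 0 1 := by
    refine ⟨by simpa using hk0.ne', by push_cast; ring⟩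
  have hθ' : θ / 2 ≤ (k : ℝ) * θ - j := by nlinarith
  have hθ'1 : 1 < (k : ℝ) * θ - j := by linarith
  have hθ'16 : 16 ≤ (k : ℝ) * θ - j := by linarith
  have hθ'2 : (k : ℝ) * θ - j ≤ 2 * L * θ := by nlinarith
  have hirr' : Irrational ((k : ℝ) * θ - j) :=
    (hirr.intCast_mul hk0.ne').sub_intCast j
  set θ' : ℝ := (k : ℝ) * θ - j with hθ'def
  have hpow : θ ^ κ ≤ 2 * L * θ' ^ κ := by
    have h5 : 0 ≤ θ' ^ κ := Real.rpow_nonneg (by linarith) κ
    rcases le_total 0 κ with hk | hk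
    · have h3 : θ ^ κ ≤ (2 * θ') ^ κ :=
        Real.rpow_le_rpow (by linarith) (by linarith) hk
      rw [Real.mul_rpow (by norm_num) (by linarith)] at h3
      have h4 : (2 : ℝ) ^ κ ≤ 2 := by
        have := Real.rpow_le_rpow_of_exponent_le (show (1 : ℝ) ≤ 2 by norm_num) hκ1
        rwa [Real.rpow_one] at this
      have h6 : (2 : ℝ) ^ κ * θ' ^ κ ≤ 2 * θ' ^ κ := mul_le_mul_of_nonneg_right h4 h5
      have h7 : 2 * θ' ^ κ ≤ 2 * L * θ' ^ κ := by nlinarith
      linarith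
    · have h1 : 1 / (2 * (L : ℝ)) * θ' ≤ θ := by
        rw [one_div, inv_mul_le_iff₀ (by positivity)]
        exact hθ'2
      have h3 : θ ^ κ ≤ (1 / (2 * (L : ℝ)) * θ') ^ κ :=
        Real.rpow_le_rpow_of_nonpos (by positivity) h1 hk
      rw [Real.mul_rpow (by positivity) (by linarith)] at h3
      have h4 : (1 / (2 * (L : ℝ))) ^ κ ≤ 2 * L := by
        rw [one_div, Real.inv_rpow (by positivity), ← Real.rpow_neg (by positivity)]
        have := Real.rpow_le_rpow_of_exponent_le (show (1 : ℝ) ≤ 2 * L by linarith)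
          (show -κ ≤ 1 by linarith)
        rwa [Real.rpow_one] at this
      have h6 : (1 / (2 * (L : ℝ))) ^ κ * θ' ^ κ ≤ 2 * L * θ' ^ κ :=
        mul_le_mul_of_nonneg_right h4 h5
      linarith
  have hθκ : 0 < θ' ^ κ := Real.rpow_pos_of_pos (by linarith) κ
  have hf : Real.log (Real.log θ) / Real.log θ ≤
      2 * (Real.log (Real.log θ') / Real.log θ') := by
    apply f_le (by norm_num) (Real.log_pos (by linarith)) (log_ge_e hθ'16)
    have h1 : θ' ≤ θ ^ 2 := by nlinarith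
    have h2 := Real.log_le_log (by linarith) h1
    rw [Real.log_pow] at h2
    exact_mod_cast h2
  have hf0 : 0 < Real.log (Real.log θ) / Real.log θ := loglog_pos (by linarith)
  have hf0' : 0 < Real.log (Real.log θ') / Real.log θ' := loglog_pos hθ'16
  have hrad0 : 0 < rad d θ' := mul_pos hθκ hf0'
  have hrad : rad d θ ≤ 4 * L * rad d θ' := by
    unfold rad
    calc θ ^ κ * (Real.log (Real.log θ) / Real.log θ)
        ≤ (2 * L * θ' ^ κ) * (2 * (Real.log (Real.log θ') / Real.log θ')) :=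
          mul_le_mul hpow hf hf0.le (by positivity)
      _ = 4 * L * (θ' ^ κ * (Real.log (Real.log θ') / Real.log θ')) := by ring
  have hkey : ∀ z : ℂ, aeval z (minpoly ℚ θ') = 0 → z ≠ θ' →
      ‖z - (((k : ℝ) * t - j : ℝ) : ℂ)‖ < ε / 2 * rad d θ' := by
    intro z hz' hzne
    obtain ⟨x, hx, hzx⟩ := conj_rel hirr hrel (by omega) hdeg hz'
    have hzx' : z = k * x - j := by
      push_cast at hzx
      linear_combination hzx
    have hxθ : x ≠ θ := by
      intro h0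
      apply hzne
      rw [hzx', h0, hθ'def]
      push_cast
      ring
    have h1 := hz x hx hxθ
    have h7 : z - (((k : ℝ) * t - j : ℝ) : ℂ) = k * (x - t) := by
      rw [hzx']; push_cast; ring
    rw [h7, norm_mul, Complex.norm_intCast, abs_of_pos (by linarith : (0 : ℝ) < k)]
    have h9 : (k : ℝ) * ‖x - t‖ < k * (ε / (8 * L ^ 2) * rad d θ) :=
      mul_lt_mul_of_pos_left h1 (by linarith)
    have h10 : (k : ℝ) * (ε / (8 * L ^ 2) * rad d θ) ≤
        L * (ε / (8 * L ^ 2) * (4 * L * rad d θ')) := by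
      have h11 : 0 ≤ ε / (8 * (L : ℝ) ^ 2) := by positivity
      have h12 : ε / (8 * (L : ℝ) ^ 2) * rad d θ ≤ ε / (8 * (L : ℝ) ^ 2) * (4 * L * rad d θ') :=
        mul_le_mul_of_nonneg_left hrad h11
      have h13 : 0 ≤ ε / (8 * (L : ℝ) ^ 2) * (4 * L * rad d θ') := by positivity
      calc (k : ℝ) * (ε / (8 * L ^ 2) * rad d θ)
          ≤ k * (ε / (8 * (L : ℝ) ^ 2) * (4 * L * rad d θ')) :=
            mul_le_mul_of_nonneg_left h12 (by linarith)
        _ ≤ L * (ε / (8 * (L : ℝ) ^ 2) * (4 * L * rad d θ')) :=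
            mul_le_mul_of_nonneg_right hkLR h13
    have h14 : (L : ℝ) * (ε / (8 * (L : ℝ) ^ 2) * (4 * L * rad d θ')) = ε / 2 * rad d θ' := by
      field_simp
      ring
    linarith
  refine ⟨θ', _, _, _, _, hrel, deg_eq hirr hirr' hrel (by omega) hdeg, ?_, hθ'1, ?_⟩
  · exact ((isIntegral_algebraMap (R := ℤ) (x := k)).mul hint).sub
      (isIntegral_algebraMap (R := ℤ) (x := j))
  · intro z hz' hzne
    have h1 := hkey z hz' hzne
    refine ⟨?_, ?_⟩
    · have h2 : ‖z‖ ≤ ‖z - (((k : ℝ) * t - j : ℝ) : ℂ)‖ + |(k : ℝ) * t - j| := by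
        have := norm_add_le (z - (((k : ℝ) * t - j : ℝ) : ℂ)) (((k : ℝ) * t - j : ℝ) : ℂ)
        rwa [sub_add_cancel, Complex.norm_real, Real.norm_eq_abs] at this
      have h13 : (1 : ℝ) / (L + 1) ≤ ε / 2 := by
        rw [div_le_iff₀ (by linarith)]
        linarith
      have h3 : ε / 2 * rad d θ' ≤ ε / 2 * max 1 (rad d θ') :=
        mul_le_mul_of_nonneg_left (le_max_right _ _) (by positivity)
      have h4 : ε / 2 * 1 ≤ ε / 2 * max 1 (rad d θ') :=
        mul_le_mul_of_nonneg_left (le_max_left _ _) (by positivity)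
      linarith
    · intro z' hz1 hz1ne
      have h2 := hkey z' hz1 hz1ne
      have h3 : z - z' = (z - (((k : ℝ) * t - j : ℝ) : ℂ)) - (z' - (((k : ℝ) * t - j : ℝ) : ℂ)) := by
        ring
      rw [h3]
      refine lt_of_le_of_lt (norm_sub_le _ _) ?_
      linarith

theorem fail_near {α : ℝ} (d : ℕ) (ε : ℝ) (hd : 3 ≤ d) (hε : 0 < ε)
    (hdeg : (minpoly ℚ α).natDegree = d) (hfail : ¬ Quadratic α) :
    ∃ (θ : ℝ) (A B G H : ℤ), Rel α θ A B G H ∧ NearR d ε θ := by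
  have hα : Irrational α := irr_of_deg' (by omega) hdeg
  obtain ⟨b, hb, hbint⟩ := exists_int_mul (by omega) hdeg
  have hbα : Irrational ((b : ℝ) * α) := hα.intCast_mul hb
  have hrel : Rel α ((b : ℝ) * α) b 0 0 1 := by
    refine ⟨by simpa using hb, by push_cast; ring⟩
  have hbdeg := deg_eq hα hbα hrel (by omega) hdeg
  have hfail' : ¬ Quadratic ((b : ℝ) * α) := fun h => hfail ((rel_iff hα hbα hrel).mpr h)
  obtain ⟨L0, hL⟩ := exists_nat_ge (2 / ε)
  set L : ℕ := L0 + 1 with hLdef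
  have hL0 : 0 < L := Nat.succ_pos L0
  have hLR : (1 : ℝ) ≤ L := by exact_mod_cast hL0
  have hL' : 2 ≤ ε * (L + 1) := by
    rw [div_le_iff₀ hε] at hL
    rw [hLdef]
    push_cast
    nlinarith
  obtain ⟨K, hK, M, hM, X, hnear⟩ := near_at hd hbdeg hbint (T := 32 * (L : ℝ)) (by positivity)
  have hd3 : (3 : ℝ) ≤ d := by exact_mod_cast hd
  set ε1 : ℝ := ε / (8 * L ^ 2) / (2 * K * (d - 1)) with hε1
  have hd1 : (0 : ℝ) < d - 1 := by linarith
  have hε1pos : 0 < ε1 := by positivity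
  obtain ⟨n, hn, hrate⟩ := rate hbα hfail' hε1pos (max X (max M 3))
  obtain ⟨θ, A, B, G, H, hr, hint, h1, hup, t, ht, hz⟩ := hnear n (le_trans (le_max_left _ _) hn)
  set q : ℝ := (QQ ((b : ℝ) * α) (n + 1) : ℝ) with hq
  have hqM : M ≤ q := le_trans (le_trans (le_max_left _ _) (le_max_right _ _)) hn
  have hq3 : 3 ≤ q := le_trans (le_trans (le_max_right _ _) (le_max_right _ _)) hn
  have hθ : Irrational θ := by
    rw [eq_div_of_rel hbα hr]
    exact irr_div hbα (rel_div hbα hr.1)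
  have hθd := deg_eq hbα hθ hr (by omega) hbdeg
  have hθ32 : 32 < θ := by linarith
  have hlogq : 0 < Real.log q := Real.log_pos (by linarith)
  have hθq : Real.log θ ≤ (d - 1) * Real.log q := by
    have h2 : θ ≤ q ^ (d - 1) := by
      have h3 : M * q ^ (d - 2) ≤ q * q ^ (d - 2) :=
        mul_le_mul_of_nonneg_right hqM (by positivity)
      have h4 : q * q ^ (d - 2) = q ^ (d - 1) := by
        rw [← pow_succ']
        congr 1; omega
      linarith
    have h5 := Real.log_le_log (by linarith) h2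
    rw [Real.log_pow, Nat.cast_sub (by omega)] at h5
    exact_mod_cast h5
  have hf := f_le (m := (d : ℝ) - 1) (by linarith) hlogq (log_ge_e (by linarith)) hθq
  have hθκ : 0 < θ ^ (((d : ℝ) - 4) / (d - 2)) := Real.rpow_pos_of_pos (by linarith) _
  have hf0 : 0 < Real.log (Real.log θ) / Real.log θ := loglog_pos (by linarith)
  set u : ℝ := q * |q * ((b : ℝ) * α) - PP ((b : ℝ) * α) (n + 1)| with hu
  have hule : u ≤ ε1 * ((d - 1) * (Real.log (Real.log θ) / Real.log θ)) := by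
    have h2 : u ≤ ε1 * (Real.log (Real.log q) / Real.log q) := by
      rw [← mul_div_assoc, le_div_iff₀ hlogq]
      exact hrate
    have h3 : ε1 * (Real.log (Real.log q) / Real.log q) ≤
        ε1 * ((d - 1) * (Real.log (Real.log θ) / Real.log θ)) :=
      mul_le_mul_of_nonneg_left hf hε1pos.le
    linarith
  have hz' : ∀ z : ℂ, aeval z (minpoly ℚ θ) = 0 → z ≠ θ →
      ‖z - t‖ < ε / (8 * L ^ 2) * rad d θ := by
    intro z hz1 hz2
    refine lt_of_le_of_lt (hz z hz1 hz2) ?_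
    unfold rad
    have h2 : K * u * θ ^ (((d : ℝ) - 4) / (d - 2)) ≤
        K * (ε1 * ((d - 1) * (Real.log (Real.log θ) / Real.log θ))) *
          θ ^ (((d : ℝ) - 4) / (d - 2)) :=
      mul_le_mul_of_nonneg_right (mul_le_mul_of_nonneg_left hule hK.le) hθκ.le
    have h3 : K * (ε1 * ((d - 1) * (Real.log (Real.log θ) / Real.log θ))) *
          θ ^ (((d : ℝ) - 4) / (d - 2)) =
        ε / (8 * L ^ 2) * (θ ^ (((d : ℝ) - 4) / (d - 2)) *
          (Real.log (Real.log θ) / Real.log θ)) / 2 := by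
      rw [hε1]
      field_simp
    have h4 : 0 < ε / (8 * (L : ℝ) ^ 2) * (θ ^ (((d : ℝ) - 4) / (d - 2)) *
        (Real.log (Real.log θ) / Real.log θ)) := by positivity
    linarith
  obtain ⟨θ', A', B', G', H', hr', hn'⟩ := recentreR hd hθd hint h1 hε hL' hL0 ht hz'
  exact ⟨θ', _, _, _, _, (hrel.comp hα hr).comp hα hr', hn'⟩

theorem fail_orbit (d : ℕ) (ε : ℝ) (hd : 3 ≤ d) (hε : 0 < ε) {α : ℝ}
    (hdeg : (minpoly ℚ α).natDegree = d) (hfail : ¬ Quadratic α) :
    ∃ A B G H : ℤ, A * H - B * G ≠ 0 ∧ NearR d ε ((A * α + B) / (G * α + H)) := by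
  have hα : Irrational α := irr_of_deg' (by omega) hdeg
  obtain ⟨θ, A, B, G, H, hr, hn⟩ := fail_near d ε hd hε hdeg hfail
  refine ⟨A, B, G, H, hr.1, ?_⟩
  rw [← eq_div_of_rel hα hr]
  exact hn

theorem fail_fields (d : ℕ) (ε : ℝ) (hd : 3 ≤ d) (hε : 0 < ε) (F : IntermediateField ℚ ℝ) :
    (∀ α ∈ F, (minpoly ℚ α).natDegree = d → Quadratic α) ↔
      ∀ θ ∈ F, NearR d ε θ → Quadratic θ := by
  constructor
  · intro h θ hθF hθ
    exact h θ hθF hθ.1
  · intro h α hαF hdeg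
    have hα : Irrational α := irr_of_deg' (by omega) hdeg
    by_contra hfail
    obtain ⟨θ, A, B, G, H, hr, hn⟩ := fail_near d ε hd hε hdeg hfail
    have hθ : Irrational θ := irr_of_deg' (by omega) hn.1
    exact hfail ((rel_iff hα hθ hr).mpr (h θ (mem_of_rel hα hαF hr) hn))

lemma rad_le_one {d : ℕ} (hd : 3 ≤ d) (hd4 : d ≤ 4) {θ : ℝ} (hθ : 1 < θ) : rad d θ ≤ 1 := by
  have hd3 : (3 : ℝ) ≤ d := by exact_mod_cast hd
  have hd4' : (d : ℝ) ≤ 4 := by exact_mod_cast hd4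
  have hκ : ((d : ℝ) - 4) / (d - 2) ≤ 0 := div_nonpos_of_nonpos_of_nonneg (by linarith) (by linarith)
  have h1 : θ ^ (((d : ℝ) - 4) / (d - 2)) ≤ 1 :=
    Real.rpow_le_one_of_one_le_of_nonpos hθ.le hκ
  have h0 : 0 < θ ^ (((d : ℝ) - 4) / (d - 2)) := Real.rpow_pos_of_pos (by linarith) _
  have hlog : 0 < Real.log θ := Real.log_pos hθ
  have h2 : Real.log (Real.log θ) / Real.log θ ≤ 1 := by
    rw [div_le_one hlog]
    exact Real.log_le_self hlog.le
  unfold rad
  rcases le_total (Real.log (Real.log θ) / Real.log θ) 0 with h3 | h3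
  · have := mul_nonpos_of_nonneg_of_nonpos h0.le h3
    linarith
  · exact mul_le_one₀ h1 h3 h2

theorem pisot_of_near {d : ℕ} {ε θ : ℝ} (hd : 3 ≤ d) (hd4 : d ≤ 4) (hε : ε ≤ 1)
    (h : NearR d ε θ) (z : ℂ) (hz : aeval z (minpoly ℚ θ) = 0) (hne : z ≠ θ) : ‖z‖ < 1 := by
  have h1 := (h.2.2.2 z hz hne).1
  rw [max_eq_left (rad_le_one hd hd4 h.2.2.1), mul_one] at h1
  linarith

end Pool.Agent.Lib.MP_7bb85c_nt
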