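import Pool.Agent.Lib.MP_7bb85c_nt.Mo

/-! The comparison of the sums of partial quotients. -/

set_option autoImplicit false

namespace Pool.Agent.Lib.MP_7bb85c_nt

/-- The sum of the first `n` partial quotients `a_1, …, a_n`. -/
noncomputable def SS (α : ℝ) (n : ℕ) : ℝ := ∑ k ∈ Finset.range n, (pa α (k + 1) : ℝ)

lemma pa_one {α : ℝ} (h : Irrational α) (n : ℕ) : (1 : ℝ) ≤ pa α (n + 1) := by
  exact_mod_cast pa_pos h n

lemma SS_mono {α : ℝ} (h : Irrational α) {m n : ℕ} (hmn : m ≤ n) : SS α m ≤ SS α n := by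
  unfold SS
  apply Finset.sum_le_sum_of_subset_of_nonneg
  · intro x hx
    rw [Finset.mem_range] at hx ⊢
    omega
  · intro i _ _
    have := pa_one h i
    linarith

lemma le_SS {α : ℝ} (h : Irrational α) (n : ℕ) : (n : ℝ) ≤ SS α n := by
  unfold SS
  calc (n : ℝ) = ∑ _k ∈ Finset.range n, (1 : ℝ) := by simp
    _ ≤ _ := Finset.sum_le_sum fun k _ => pa_one h k

/-- The comparison for one partial quotient. -/
lemma one_le {α β : ℝ} (hα : Irrational α) (hβ : Irrational β) {A B G H : ℤ}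
    (h : Rel α β A B G H) :
    ∃ (C : ℕ) (E K : ℝ), 1 ≤ C ∧ 0 ≤ E ∧ 0 ≤ K ∧ ∀ k, ¬ ((pa β (k + 1) : ℝ) ≤ E) →
      ∃ i, i + 1 ≤ C * (k + 1) ∧ (pa β (k + 1) : ℝ) ≤ K * pa α (i + 1) ∧
        ∃ g : ℤ, g * PP α (i + 1) = H * PP β (k + 1) + (-B) * QQ β (k + 1) ∧
          g * QQ α (i + 1) = (-G) * PP β (k + 1) + A * QQ β (k + 1) := by
  classical
  obtain ⟨K, hK1, hK⟩ := trans h.symm
  obtain ⟨C, hC⟩ := index hα hβ h K
  have hC1 : 1 ≤ C := by
    have h0 : (QQ α (0 + 1) : ℝ) ≤ K * QQ β (0 + 1) := by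
      have e1 : QQ α (0 + 1) = 1 := rfl
      have e2 : QQ β (0 + 1) = 1 := rfl
      rw [e1, e2]
      push_cast
      linarith
    have := hC 0 0 h0
    omega
  have hch : ∀ m : ℕ, ∃ g u' v' : ℤ, g ≠ 0 ∧ IsCoprime u' v' ∧ 0 ≤ v' ∧
      g * u' = H * PP β (m + 1) + (-B) * QQ β (m + 1) ∧
      g * v' = (-G) * PP β (m + 1) + A * QQ β (m + 1) ∧ (v' : ℝ) ≤ K * QQ β (m + 1) ∧
      (v' : ℝ) * |(v' : ℝ) * α - u'| ≤
        K * (QQ β (m + 1) * |(QQ β (m + 1) : ℝ) * β - PP β (m + 1)|) := fun m =>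
    hK _ _ (PQ_coprime β m) (QQ_pos hβ m).1 (conv_quality_le hβ m)
  choose g u' v' hg hcop hv' e1 e2 hle hqual using hch
  have hinj : ∀ m m', u' m * v' m' = u' m' * v' m → m = m' := by
    intro m m' hpar
    have := par_inj h.symm.1 (PQ_coprime β m) (PQ_coprime β m') (QQ_pos hβ m).1 (QQ_pos hβ m').1
      (e1 m) (e2 m) (e1 m') (e2 m') hpar
    exact conv_inj hβ this.1 this.2
  obtain ⟨E0, hE0⟩ : ∃ E0 : ℝ, ∀ k, v' k = 0 → (pa β (k + 1) : ℝ) ≤ E0 := by
    by_cases hex : ∃ k, v' k = 0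
    · obtain ⟨k0, hk0⟩ := hex
      refine ⟨pa β (k0 + 1), ?_⟩
      intro k hk
      have : k = k0 := by
        apply hinj
        rw [hk, hk0]; ring
      rw [this]
    · exact ⟨0, fun k hk => absurd ⟨k, hk⟩ hex⟩
  refine ⟨C, max (max E0 (4 * K)) 0, 3 * K, hC1, le_max_right _ _, by linarith, ?_⟩
  intro k hk
  push Not at hk
  have hk1 : E0 < pa β (k + 1) := lt_of_le_of_lt (le_trans (le_max_left _ _) (le_max_left _ _)) hk
  have hk2 : 4 * K < pa β (k + 1) :=
    lt_of_le_of_lt (le_trans (le_max_right _ _) (le_max_left _ _)) hk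
  have hv0 : v' k ≠ 0 := by
    intro h0
    have := hE0 k h0
    linarith
  have hv1 : 1 ≤ v' k := by
    have := hv' k
    omega
  have hqpos := QR_pos hβ k
  have hDpos := DD_pos hβ k
  have hD1 := DD_ge' hβ k
  have hq1 := hqual k
  rw [conv_quality hβ k] at hq1
  -- the quality of the convergent of `β`
  have hθ : (QQ β (k + 1) : ℝ) / DD β k ≤ 1 / pa β (k + 1) := by
    have hp := pa_one hβ k
    rw [div_le_div_iff₀ hDpos (by linarith)]
    linarith
  have hsmall : (v' k : ℝ) * |(v' k : ℝ) * α - u' k| < 1 / 4 := by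
    have hp := pa_one hβ k
    calc (v' k : ℝ) * |(v' k : ℝ) * α - u' k| ≤ K * (QQ β (k + 1) / DD β k) := hq1
      _ ≤ K * (1 / pa β (k + 1)) := mul_le_mul_of_nonneg_left hθ (by linarith)
      _ < 1 / 4 := by
          rw [mul_one_div, div_lt_div_iff₀ (by linarith) (by norm_num)]
          linarith
  obtain ⟨i, hi1, hi2⟩ := legendre hα (hcop k) hv1 hsmall
  refine ⟨i, ?_, ?_, g k, ?_, ?_⟩
  · apply hC
    rw [← hi2]
    exact hle k
  · rw [hi1, hi2, conv_quality hα i] at hq1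
    have hDi := DD_pos hα i
    have hqi := QR_pos hα i
    have hDle := DD_le hα i
    have hai := pa_one hα i
    have hp := pa_one hβ k
    -- q_i / D_i ≤ K / a'
    have h1 : (QQ α (i + 1) : ℝ) / DD α i ≤ K / pa β (k + 1) := by
      calc (QQ α (i + 1) : ℝ) / DD α i ≤ K * (QQ β (k + 1) / DD β k) := hq1
        _ ≤ K * (1 / pa β (k + 1)) := mul_le_mul_of_nonneg_left hθ (by linarith)
        _ = K / pa β (k + 1) := by rw [mul_one_div]
    rw [div_le_div_iff₀ hDi (by linarith)] at h1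
    -- a' q_i ≤ K D_i ≤ K (a_i + 2) q_i
    have h2 : (pa β (k + 1) : ℝ) * QQ α (i + 1) ≤ (3 * K * pa α (i + 1)) * QQ α (i + 1) := by
      calc (pa β (k + 1) : ℝ) * QQ α (i + 1) = QQ α (i + 1) * pa β (k + 1) := by ring
        _ ≤ K * DD α i := h1
        _ ≤ K * ((pa α (i + 1) + 2) * QQ α (i + 1)) :=
            mul_le_mul_of_nonneg_left hDle (by linarith)
        _ ≤ K * ((3 * pa α (i + 1)) * QQ α (i + 1)) := by
            apply mul_le_mul_of_nonneg_left _ (by linarith)
            apply mul_le_mul_of_nonneg_right _ (by linarith)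
            linarith
        _ = _ := by ring
    exact le_of_mul_le_mul_right h2 (by linarith)
  · rw [← hi1]; exact e1 k
  · rw [← hi2]; exact e2 k

/-- **The sums of partial quotients of `α` and of `(A α + B) / (G α + H)`.** -/
theorem sum_le {α β : ℝ} (hα : Irrational α) (hβ : Irrational β) {A B G H : ℤ}
    (h : Rel α β A B G H) : ∃ C : ℕ, ∀ n, SS β n ≤ C * SS α (C * n) := by
  classical
  obtain ⟨C, E, K, hC1, hE, hK, hone⟩ := one_le hα hβ h
  choose! ι hι1 hι2 g hg1 hg2 using hone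
  refine ⟨C + ⌈E + K⌉₊, ?_⟩
  intro n
  set T := Finset.filter (fun k => ¬ ((pa β (k + 1) : ℝ) ≤ E)) (Finset.range n) with hT
  have hinj : Set.InjOn ι T := by
    intro k hk k' hk' heq
    have hk1 := (Finset.mem_filter.mp hk).2
    have hk1' := (Finset.mem_filter.mp hk').2
    have a1 := hg1 k hk1
    have a2 := hg2 k hk1
    have b1 := hg1 k' hk1'
    have b2 := hg2 k' hk1'
    rw [← heq] at b1 b2
    have := par_inj h.symm.1 (PQ_coprime β k) (PQ_coprime β k') (QQ_pos hβ k).1 (QQ_pos hβ k').1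
      a1 a2 b1 b2 rfl
    exact conv_inj hβ this.1 this.2
  have h1 : SS β n ≤ n * E + ∑ k ∈ T, (pa β (k + 1) : ℝ) := by
    unfold SS
    rw [← Finset.sum_filter_add_sum_filter_not (Finset.range n)
      (fun k => ((pa β (k + 1) : ℝ) ≤ E))]
    gcongr
    · calc ∑ k ∈ Finset.range n with ((pa β (k + 1) : ℝ) ≤ E), (pa β (k + 1) : ℝ)
          ≤ ∑ k ∈ Finset.range n with ((pa β (k + 1) : ℝ) ≤ E), E :=
            Finset.sum_le_sum fun k hk => (Finset.mem_filter.mp hk).2
        _ = (Finset.filter (fun k => ((pa β (k + 1) : ℝ) ≤ E)) (Finset.range n)).card * E := by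
            rw [Finset.sum_const, nsmul_eq_mul]
        _ ≤ n * E := by
            apply mul_le_mul_of_nonneg_right _ hE
            have := Finset.card_filter_le (Finset.range n) (fun k => ((pa β (k + 1) : ℝ) ≤ E))
            rw [Finset.card_range] at this
            exact_mod_cast this
  have h2 : ∑ k ∈ T, (pa β (k + 1) : ℝ) ≤ K * SS α (C * n) := by
    calc ∑ k ∈ T, (pa β (k + 1) : ℝ) ≤ ∑ k ∈ T, K * (pa α (ι k + 1) : ℝ) :=
          Finset.sum_le_sum fun k hk => hι2 k (Finset.mem_filter.mp hk).2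
      _ = K * ∑ k ∈ T, (pa α (ι k + 1) : ℝ) := by rw [Finset.mul_sum]
      _ = K * ∑ i ∈ T.image ι, (pa α (i + 1) : ℝ) := by
          rw [Finset.sum_image hinj]
      _ ≤ K * SS α (C * n) := by
          apply mul_le_mul_of_nonneg_left _ hK
          unfold SS
          apply Finset.sum_le_sum_of_subset_of_nonneg
          · intro x hx
            rw [Finset.mem_image] at hx
            obtain ⟨k, hk, rfl⟩ := hx
            rw [Finset.mem_filter, Finset.mem_range] at hk
            have := hι1 k hk.2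
            rw [Finset.mem_range]
            have h3 : C * (k + 1) ≤ C * n := Nat.mul_le_mul_left _ (by omega)
            omega
          · intro i _ _
            have := pa_one hα i
            linarith
  have h3 : (n : ℝ) ≤ SS α (C * n) :=
    le_trans (le_SS hα n) (SS_mono hα (Nat.le_mul_of_pos_left n hC1))
  have h4 : SS α (C * n) ≤ SS α ((C + ⌈E + K⌉₊) * n) :=
    SS_mono hα (Nat.mul_le_mul_right n (by omega))
  have h5 : E + K ≤ (⌈E + K⌉₊ : ℝ) := Nat.le_ceil _
  have h6 : (0 : ℝ) ≤ SS α (C * n) := le_trans (Nat.cast_nonneg n) h3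
  have h7 : (1 : ℝ) ≤ C := by exact_mod_cast hC1
  calc SS β n ≤ n * E + K * SS α (C * n) := by linarith
    _ ≤ (E + K) * SS α (C * n) := by nlinarith
    _ ≤ ((C + ⌈E + K⌉₊ : ℕ) : ℝ) * SS α (C * n) := by
        apply mul_le_mul_of_nonneg_right _ h6
        push_cast
        linarith
    _ ≤ _ := mul_le_mul_of_nonneg_left h4 (by positivity)

end Pool.Agent.Lib.MP_7bb85c_nt
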