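import Pool.Agent.Lib.MP_7bb85c_nt.Mat

/-! The comparison with constants that depend only on the determinant. -/

set_option autoImplicit false

namespace Pool.Agent.Lib.MP_7bb85c_nt

/-- A linear form with integer coefficients does not vanish at an irrational number. -/
lemma form_ne {α : ℝ} (hα : Irrational α) {a b : ℤ} (h : ¬ (a = 0 ∧ b = 0)) :
    (a : ℝ) * α + b ≠ 0 := by
  intro hab
  apply h
  by_cases ha : a = 0
  · subst ha
    refine ⟨rfl, ?_⟩
    have : (b : ℝ) = 0 := by push_cast at hab; linarith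
    exact_mod_cast this
  · exfalso
    apply hα
    refine ⟨(-b : ℚ) / a, ?_⟩
    have haR : (a : ℝ) ≠ 0 := by exact_mod_cast ha
    push_cast
    rw [div_eq_iff haR]
    linarith

lemma form_ne_of_det {α : ℝ} (hα : Irrational α) {A B G H : ℤ} (hD : A * H - B * G ≠ 0) :
    (G : ℝ) * α + H ≠ 0 := by
  apply form_ne hα
  rintro ⟨h1, h2⟩
  apply hD
  rw [h1, h2]; ring

lemma rel_div {α : ℝ} (hα : Irrational α) {A B G H : ℤ} (hD : A * H - B * G ≠ 0) :
    Rel α ((A * α + B) / (G * α + H)) A B G H :=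
  ⟨hD, div_mul_cancel₀ _ (form_ne_of_det hα hD)⟩

lemma irr_div {α β : ℝ} (hα : Irrational α) {A B G H : ℤ} (h : Rel α β A B G H) :
    Irrational β := by
  rintro ⟨r, hr⟩
  obtain ⟨hD, he⟩ := h
  have hden : (r.den : ℝ) ≠ 0 := by exact_mod_cast r.den_ne_zero
  have hβ : β = (r.num : ℝ) / r.den := by
    rw [← hr]
    exact_mod_cast (Rat.num_div_den r).symm
  rw [hβ] at he
  have he2 : (r.num : ℝ) * (G * α + H) = r.den * (A * α + B) := by
    field_simp at he
    linarith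
  have he3 : ((r.num * G - r.den * A : ℤ) : ℝ) * α + ((r.num * H - r.den * B : ℤ) : ℝ) = 0 := by
    push_cast
    linarith
  by_cases hz : (r.num * G - r.den * A = 0 ∧ r.num * H - r.den * B = 0)
  · have hden' : (r.den : ℤ) ≠ 0 := by exact_mod_cast r.den_ne_zero
    have : (r.den : ℤ) * (A * H - B * G) = 0 := by
      linear_combination (-H) * hz.1 + G * hz.2
    rcases mul_eq_zero.mp this with h1 | h1
    · exact hden' h1
    · exact hD h1
  · exact form_ne hα hz he3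

/-- The image of a good approximation, with the factor `2 |det|` for large denominators. -/
lemma trans' {α β : ℝ} (hα : Irrational α) {A B G H : ℤ} (h : Rel α β A B G H) {D : ℕ}
    (hD : |A * H - B * G| = D) :
    ∃ K v0 L : ℝ, 1 ≤ K ∧ 0 < L ∧ ∀ u v : ℤ, IsCoprime u v → 1 ≤ v →
      (v : ℝ) * |(v : ℝ) * α - u| ≤ 1 →
      ∃ g u' v' : ℤ, g ≠ 0 ∧ IsCoprime u' v' ∧ 0 ≤ v' ∧ g * u' = A * u + B * v ∧
        g * v' = G * u + H * v ∧ (v' : ℝ) ≤ K * v ∧
        (v0 ≤ v → 1 ≤ v' ∧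
          (v' : ℝ) * |(v' : ℝ) * β - u'| ≤ 2 * D * (v * |(v : ℝ) * α - u|) ∧
          L * v ≤ 2 * D * v' ∧ (v' : ℝ) ≤ 2 * L * v) := by
  obtain ⟨K, hK1, hK⟩ := trans h
  set L : ℝ := |(G : ℝ) * α + H| with hL
  have hLpos : 0 < L := abs_pos.mpr (form_ne_of_det hα h.1)
  refine ⟨K, 2 * |(G : ℝ)| / L + 1, L, hK1, hLpos, ?_⟩
  intro u v huv hv hq
  obtain ⟨g, u', v', hg, hc', hv', e1, e2, hle, _⟩ := hK u v huv hv hq
  refine ⟨g, u', v', hg, hc', hv', e1, e2, hle, ?_⟩
  intro hv0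
  have hvR : (1 : ℝ) ≤ v := by exact_mod_cast hv
  have hgabs : (1 : ℝ) ≤ |(g : ℝ)| := by
    have : (1 : ℤ) ≤ |g| := Int.one_le_abs hg
    have h2 : ((1 : ℤ) : ℝ) ≤ ((|g| : ℤ) : ℝ) := by exact_mod_cast this
    rw [Int.cast_abs] at h2
    simpa using h2
  -- `g` divides the determinant
  have hgD : |(g : ℝ)| ≤ D := by
    have d1 : g ∣ (A * H - B * G) * u := by
      refine ⟨H * u' - B * v', ?_⟩
      calc (A * H - B * G) * u = H * (A * u + B * v) - B * (G * u + H * v) := by ring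
        _ = _ := by rw [← e1, ← e2]; ring
    have d2 : g ∣ (A * H - B * G) * v := by
      refine ⟨A * v' - G * u', ?_⟩
      calc (A * H - B * G) * v = A * (G * u + H * v) - G * (A * u + B * v) := by ring
        _ = _ := by rw [← e1, ← e2]; ring
    have d3 : g ∣ A * H - B * G := by
      obtain ⟨s, t, hst⟩ := huv
      have : A * H - B * G = s * ((A * H - B * G) * u) + t * ((A * H - B * G) * v) := by
        calc A * H - B * G = (A * H - B * G) * (s * u + t * v) := by rw [hst]; ring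
          _ = _ := by ring
      rw [this]
      exact dvd_add (Dvd.dvd.mul_left d1 s) (Dvd.dvd.mul_left d2 t)
    have d4 : |g| ≤ |A * H - B * G| := by
      apply Int.le_of_dvd (abs_pos.mpr h.1)
      exact (abs_dvd_abs g (A * H - B * G)).mpr d3
    rw [hD] at d4
    have d5 : ((|g| : ℤ) : ℝ) ≤ ((D : ℤ) : ℝ) := by exact_mod_cast d4
    rw [Int.cast_abs] at d5
    simpa using d5
  have hv'R : (0 : ℝ) ≤ v' := by exact_mod_cast hv'
  have e1R : (g : ℝ) * u' = A * u + B * v := by exact_mod_cast e1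
  have e2R : (g : ℝ) * v' = G * u + H * v := by exact_mod_cast e2
  have hG : 2 * |(G : ℝ)| < v * L := by
    have : 2 * |(G : ℝ)| / L < v := by linarith
    rwa [div_lt_iff₀ hLpos] at this
  have hG0 := abs_nonneg (G : ℝ)
  have herr : |(v : ℝ) * α - u| ≤ 1 := by
    have := abs_nonneg ((v : ℝ) * α - u)
    nlinarith
  -- the new denominator before dividing by `g`
  have hVeq : (G : ℝ) * u + H * v = v * (G * α + H) - G * (v * α - u) := by ring
  have hGerr : |(G : ℝ) * (v * α - u)| ≤ |(G : ℝ)| := by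
    rw [abs_mul]
    nlinarith
  have hvL : |(v : ℝ) * (G * α + H)| = v * L := by
    rw [abs_mul, abs_of_pos (by linarith : (0 : ℝ) < v)]
  have hVle : |(G : ℝ) * u + H * v| ≤ 2 * (v * L) := by
    rw [hVeq]
    calc |(v : ℝ) * (G * α + H) - G * (v * α - u)|
        ≤ |(v : ℝ) * (G * α + H)| + |(G : ℝ) * (v * α - u)| := abs_sub _ _
      _ ≤ v * L + |(G : ℝ)| := by rw [hvL]; linarith
      _ ≤ 2 * (v * L) := by linarith
  have hVge : v * L / 2 ≤ |(G : ℝ) * u + H * v| := by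
    have h1 : |(v : ℝ) * (G * α + H)| ≤ |(G : ℝ) * u + H * v| + |(G : ℝ) * (v * α - u)| := by
      have : (v : ℝ) * (G * α + H) = (G * u + H * v) + G * (v * α - u) := by ring
      rw [this]
      exact abs_add_le _ _
    rw [hvL] at h1
    linarith
  have hgv : |(g : ℝ)| * v' = |(G : ℝ) * u + H * v| := by
    rw [← e2R, abs_mul, abs_of_nonneg hv'R]
  have hv'ne : v' ≠ 0 := by
    intro h0
    rw [h0] at hgv
    push_cast at hgv
    rw [mul_zero] at hgv
    rw [← hgv] at hVge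
    have : 0 < v * L := by positivity
    linarith
  have e3 : (g : ℝ) * (v' * β - u') = -((G * β - A) * (v * α - u)) := by
    have := h.2
    calc (g : ℝ) * (v' * β - u') = (g * v') * β - g * u' := by ring
      _ = (G * u + H * v) * β - (A * u + B * v) := by rw [e1R, e2R]
      _ = _ := by linear_combination (v : ℝ) * this
  have e4 : |(g : ℝ)| * |(v' : ℝ) * β - u'| = |(G : ℝ) * β - A| * |(v : ℝ) * α - u| := by
    rw [← abs_mul, e3, abs_neg, abs_mul]
  have e5 : |(v' : ℝ) * β - u'| ≤ |(G : ℝ) * β - A| * |(v : ℝ) * α - u| := by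
    rw [← e4]
    have := abs_nonneg ((v' : ℝ) * β - u')
    nlinarith
  have hv'V : (v' : ℝ) ≤ |(G : ℝ) * u + H * v| := by
    rw [← hgv]
    nlinarith
  -- the product of the two factors is the determinant
  have hdet : L * |(G : ℝ) * β - A| = D := by
    rw [hL, ← abs_mul]
    have h1 : ((G : ℝ) * α + H) * (G * β - A) = -((A * H - B * G : ℤ) : ℝ) := by
      push_cast
      linear_combination (G : ℝ) * h.2
    rw [h1, abs_neg, ← Int.cast_abs, hD]
    simp
  refine ⟨by omega, ?_, ?_, by linarith⟩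
  · calc (v' : ℝ) * |(v' : ℝ) * β - u'|
        ≤ (2 * (v * L)) * (|(G : ℝ) * β - A| * |(v : ℝ) * α - u|) := by
          apply mul_le_mul (le_trans hv'V hVle) e5 (abs_nonneg _)
          positivity
      _ = 2 * (L * |(G : ℝ) * β - A|) * (v * |(v : ℝ) * α - u|) := by ring
      _ = 2 * D * (v * |(v : ℝ) * α - u|) := by rw [hdet]
  · have h1 : |(g : ℝ)| * v' ≤ D * v' := mul_le_mul_of_nonneg_right hgD hv'R
    rw [hgv] at h1
    linarith

/-- The denominators tend to infinity. -/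
lemma big {α : ℝ} (h : Irrational α) (x : ℝ) : ∃ m0 : ℕ, ∀ m, m0 ≤ m → x ≤ QQ α (m + 1) := by
  obtain ⟨r, hr⟩ : ∃ r : ℕ, x < 2 ^ r := pow_unbounded_of_one_lt _ (by norm_num)
  refine ⟨2 * r, ?_⟩
  intro m hm
  have h1 := QQ_pow h 0 r
  have h2 : QQ α (0 + 1) = 1 := rfl
  rw [h2, mul_one] at h1
  have h3 := QQ_monotone h (show 0 + 1 + 2 * r ≤ m + 1 by omega)
  have h4 : ((2 ^ r : ℤ) : ℝ) ≤ ((QQ α (m + 1) : ℤ) : ℝ) := by exact_mod_cast le_trans h1 h3
  push_cast at h4
  linarith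

/-- The constant of the index bound. -/
def NN (D : ℕ) : ℕ := 18 + 6 * Nat.log 2 D

lemma NN_pow {D : ℕ} (hD : 0 < D) : 4 * (D : ℝ) * (2 * D + 2) ^ 2 ≤ 2 ^ (9 + 3 * Nat.log 2 D) := by
  have h1 : D < 2 ^ (Nat.log 2 D + 1) := Nat.lt_pow_succ_log_self (by norm_num) D
  have h2 : (D : ℝ) ≤ 2 ^ (Nat.log 2 D + 1) := by exact_mod_cast h1.le
  have h3 : (1 : ℝ) ≤ D := by exact_mod_cast hD
  have h4 : (D : ℝ) ^ 3 ≤ (2 ^ (Nat.log 2 D + 1)) ^ 3 := pow_le_pow_left₀ (by linarith) h2 3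
  have h5 : (2 * (D : ℝ) + 2) ^ 2 ≤ (4 * D) ^ 2 := pow_le_pow_left₀ (by linarith) (by linarith) 2
  calc 4 * (D : ℝ) * (2 * D + 2) ^ 2 ≤ 4 * D * (4 * D) ^ 2 :=
        mul_le_mul_of_nonneg_left h5 (by linarith)
    _ = 64 * (D : ℝ) ^ 3 := by ring
    _ ≤ 64 * (2 ^ (Nat.log 2 D + 1)) ^ 3 := by linarith
    _ = 2 ^ (9 + 3 * Nat.log 2 D) := by ring

/-- The index bound, with a constant which depends only on the determinant. -/
lemma index' {α β : ℝ} (hα : Irrational α) (hβ : Irrational β) {A B G H : ℤ}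
    (h : Rel α β A B G H) {D : ℕ} (hD : |A * H - B * G| = D) (C₂ : ℝ) :
    ∃ c : ℕ, ∀ i k : ℕ, (QQ α (i + 1) : ℝ) ≤ C₂ * QQ β (k + 1) → i + 1 ≤ NN D * k + c := by
  classical
  have hD0 : 0 < D := by
    have h1 : (0 : ℤ) < D := by
      rw [← hD]
      exact abs_pos.mpr h.1
    exact_mod_cast h1
  obtain ⟨K, v0, L, hK1, hL, hK⟩ := trans' hα h hD
  have hch : ∀ m : ℕ, ∃ g u' v' : ℤ, g ≠ 0 ∧ IsCoprime u' v' ∧ 0 ≤ v' ∧
      g * u' = A * PP α (m + 1) + B * QQ α (m + 1) ∧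
      g * v' = G * PP α (m + 1) + H * QQ α (m + 1) ∧ (v' : ℝ) ≤ K * QQ α (m + 1) ∧
      (v0 ≤ QQ α (m + 1) → 1 ≤ v' ∧ (v' : ℝ) * |(v' : ℝ) * β - u'| ≤
        2 * D * (QQ α (m + 1) * |(QQ α (m + 1) : ℝ) * α - PP α (m + 1)|) ∧
        L * QQ α (m + 1) ≤ 2 * D * v' ∧ (v' : ℝ) ≤ 2 * L * QQ α (m + 1)) := fun m =>
    hK _ _ (PQ_coprime α m) (QQ_pos hα m).1 (conv_quality_le hα m)
  choose g u' v' hg hcop hv' e1 e2 hle hqual using hch
  obtain ⟨m0, hm0⟩ := big hα v0
  have hDn : (1 : ℝ) ≤ D := by exact_mod_cast hD0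
  have hqualc : ∀ m, m0 ≤ m → (v' m : ℝ) * |(v' m : ℝ) * β - u' m| < 2 * D + 1 := by
    intro m hm
    have h1 := (hqual m (hm0 m hm)).2.1
    have h2 := conv_quality_le hα m
    nlinarith
  have hwin : ∀ m, m0 ≤ m → ∃ n, QQ β n ≤ v' m ∧ (QQ β (n + 1) : ℝ) / (2 * D + 2) ≤ v' m ∧
      (v' m : ℝ) < (2 * D + 2) * QQ β (n + 1) := fun m hm =>
    window hβ (by linarith) (by linarith) (hcop m) (hqual m (hm0 m hm)).1 (hqualc m hm)
  choose! w hw1 hw2 hw3 using hwin
  obtain ⟨r, hr⟩ : ∃ r : ℕ, K * C₂ < 2 ^ r := pow_unbounded_of_one_lt _ (by norm_num)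
  refine ⟨NN D * (2 * r + 1) + m0, ?_⟩
  intro i k hik
  have hmaps : ∀ m ∈ Finset.Ico m0 (i + 1), w m ∈ Finset.range (k + 2 * r + 1) := by
    intro m hm
    rw [Finset.mem_Ico] at hm
    rw [Finset.mem_range]
    have h1 := hw1 m hm.1
    have h2 : (v' m : ℝ) < QQ β (k + 1 + 2 * r) := by
      have a1 := hle m
      have a2 : (QQ α (m + 1) : ℝ) ≤ QQ α (i + 1) := by
        exact_mod_cast QQ_monotone hα (show m + 1 ≤ i + 1 by omega)
      have a3 : (2 : ℝ) ^ r * QQ β (k + 1) ≤ QQ β (k + 1 + 2 * r) := by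
        exact_mod_cast QQ_pow hβ k r
      have a4 := QR_pos hβ k
      calc (v' m : ℝ) ≤ K * QQ α (m + 1) := a1
        _ ≤ K * (C₂ * QQ β (k + 1)) := by
            apply mul_le_mul_of_nonneg_left (le_trans a2 hik); linarith
        _ = (K * C₂) * QQ β (k + 1) := by ring
        _ < 2 ^ r * QQ β (k + 1) := by
            apply mul_lt_mul_of_pos_right hr; linarith
        _ ≤ _ := a3
    have h3 : QQ β (w m) < QQ β (k + 1 + 2 * r) := by
      have : (v' m : ℤ) < QQ β (k + 1 + 2 * r) := by exact_mod_cast h2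
      linarith
    have h4 : w m < k + 1 + 2 * r := by
      by_contra hcon
      push Not at hcon
      have := QQ_monotone hβ hcon
      linarith
    omega
  -- two members of one fibre are close
  have hclose : ∀ m m', m0 ≤ m → m0 ≤ m' → w m = w m' → m' < m + NN D := by
    intro m m' hm hm' hww
    by_contra hcon
    push Not at hcon
    set R := 9 + 3 * Nat.log 2 D with hR
    have hNR : NN D = 2 * R := by rw [hR]; unfold NN; ring
    have a1 : (2 : ℝ) ^ R * QQ α (m + 1) ≤ QQ α (m' + 1) := by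
      have b1 : (2 : ℝ) ^ R * QQ α (m + 1) ≤ QQ α (m + 1 + 2 * R) := by
        exact_mod_cast QQ_pow hα m R
      have b2 : (QQ α (m + 1 + 2 * R) : ℝ) ≤ QQ α (m' + 1) := by
        exact_mod_cast QQ_monotone hα (show m + 1 + 2 * R ≤ m' + 1 by omega)
      linarith
    have a2 := NN_pow hD0
    have a3 := (hqual m' (hm0 m' hm')).2.2.1
    have a4 := (hqual m (hm0 m hm)).2.2.2
    have a5 := hw2 m hm
    have a6 := hw3 m' hm'
    rw [← hww] at a6
    have hB : (0 : ℝ) < 2 * D + 2 := by linarith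
    rw [div_le_iff₀ hB] at a5
    have hqm := QR_pos hα m
    have hqw := QR_pos hβ (w m)
    -- L q_{m'} < 4 D B² L q_m
    have a7 : L * QQ α (m' + 1) < (4 * (D : ℝ) * (2 * D + 2) ^ 2) * (L * QQ α (m + 1)) := by
      calc L * QQ α (m' + 1) ≤ 2 * D * v' m' := a3
        _ < 2 * D * ((2 * D + 2) * QQ β (w m + 1)) :=
            mul_lt_mul_of_pos_left a6 (by linarith)
        _ ≤ 2 * D * ((2 * D + 2) * (v' m * (2 * D + 2))) := by
            apply mul_le_mul_of_nonneg_left _ (by linarith)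
            exact mul_le_mul_of_nonneg_left a5 hB.le
        _ ≤ 2 * D * ((2 * D + 2) * ((2 * L * QQ α (m + 1)) * (2 * D + 2))) := by
            apply mul_le_mul_of_nonneg_left _ (by linarith)
            apply mul_le_mul_of_nonneg_left _ hB.le
            exact mul_le_mul_of_nonneg_right a4 hB.le
        _ = _ := by ring
    have hLq : 0 < L * QQ α (m + 1) := by positivity
    have a8 : L * QQ α (m' + 1) < 2 ^ R * (L * QQ α (m + 1)) :=
      lt_of_lt_of_le a7 (mul_le_mul_of_nonneg_right a2 hLq.le)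
    have a9 : 2 ^ R * (L * QQ α (m + 1)) ≤ L * QQ α (m' + 1) := by
      calc (2 : ℝ) ^ R * (L * QQ α (m + 1)) = L * (2 ^ R * QQ α (m + 1)) := by ring
        _ ≤ _ := mul_le_mul_of_nonneg_left a1 hL.le
    linarith
  have hfib : ∀ j ∈ Finset.range (k + 2 * r + 1),
      (Finset.filter (fun m => w m = j) (Finset.Ico m0 (i + 1))).card ≤ NN D := by
    intro j _
    set F := Finset.filter (fun m => w m = j) (Finset.Ico m0 (i + 1)) with hF
    rcases F.eq_empty_or_nonempty with h0 | hne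
    · rw [h0]; simp
    · set m1 := F.min' hne with hm1
      have hm1F : m1 ∈ F := Finset.min'_mem F hne
      have hsub : F ⊆ Finset.Ico m1 (m1 + NN D) := by
        intro x hx
        rw [Finset.mem_Ico]
        refine ⟨Finset.min'_le F x hx, ?_⟩
        rw [hF, Finset.mem_filter, Finset.mem_Ico] at hx hm1F
        exact hclose m1 x hm1F.1.1 hx.1.1 (by rw [hm1F.2, hx.2])
      have := Finset.card_le_card hsub
      rw [Nat.card_Ico] at this
      omega
  have hcount := Finset.card_le_mul_card_image_of_maps_to hmaps (NN D) hfib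
  rw [Nat.card_Ico, Finset.card_range] at hcount
  have e : NN D * (k + 2 * r + 1) = NN D * k + NN D * (2 * r + 1) := by ring
  omega

/-- The comparison for one partial quotient. -/
lemma one_le' {α β : ℝ} (hα : Irrational α) (hβ : Irrational β) {A B G H : ℤ}
    (h : Rel α β A B G H) {D : ℕ} (hD : |A * H - B * G| = D) :
    ∃ c : ℕ, ∀ k, c ≤ k → ¬ ((pa β (k + 1) : ℝ) ≤ 8 * D) →
      ∃ i, i + 1 ≤ NN D * k + c ∧ (pa β (k + 1) : ℝ) ≤ 6 * D * pa α (i + 1) ∧
        ∃ g : ℤ, g * PP α (i + 1) = H * PP β (k + 1) + (-B) * QQ β (k + 1) ∧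
          g * QQ α (i + 1) = (-G) * PP β (k + 1) + A * QQ β (k + 1) := by
  classical
  have hD' : |H * A - (-B) * (-G)| = D := by
    rw [← hD]; congr 1; ring
  obtain ⟨K, v0, L, hK1, hL, hK⟩ := trans' hβ h.symm hD'
  obtain ⟨c, hC⟩ := index' hα hβ h hD K
  obtain ⟨k0, hk0⟩ := big hβ v0
  refine ⟨max c k0, ?_⟩
  intro k hk0' hk
  have hDn : (0 : ℝ) ≤ D := Nat.cast_nonneg _
  obtain ⟨g, u', v', hg, hcop, hv', e1, e2, hle, hq⟩ :=
    hK _ _ (PQ_coprime β k) (QQ_pos hβ k).1 (conv_quality_le hβ k)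
  obtain ⟨hv1, hq1, _, _⟩ := hq (hk0 k (le_trans (le_max_right _ _) hk0'))
  push Not at hk
  have hqpos := QR_pos hβ k
  have hDpos := DD_pos hβ k
  have hD1 := DD_ge' hβ k
  rw [conv_quality hβ k] at hq1
  have hp := pa_one hβ k
  -- the quality of the convergent of `β`
  have hθ : (QQ β (k + 1) : ℝ) / DD β k ≤ 1 / pa β (k + 1) := by
    rw [div_le_div_iff₀ hDpos (by linarith)]
    linarith
  have hθ2 : 2 * (D : ℝ) * (QQ β (k + 1) / DD β k) ≤ 2 * D / pa β (k + 1) := by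
    calc 2 * (D : ℝ) * (QQ β (k + 1) / DD β k) ≤ 2 * D * (1 / pa β (k + 1)) :=
          mul_le_mul_of_nonneg_left hθ (by linarith)
      _ = _ := by rw [mul_one_div]
  have hsmall : (v' : ℝ) * |(v' : ℝ) * α - u'| < 1 / 4 := by
    refine lt_of_le_of_lt (le_trans hq1 hθ2) ?_
    rw [div_lt_div_iff₀ (by linarith) (by norm_num)]
    linarith
  obtain ⟨i, hi1, hi2⟩ := legendre hα hcop hv1 hsmall
  refine ⟨i, ?_, ?_, g, ?_, ?_⟩
  · have := hC i k (by rw [← hi2]; exact hle)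
    have h2 := le_max_left c k0
    omega
  · rw [hi1, hi2, conv_quality hα i] at hq1
    have hDi := DD_pos hα i
    have hqi := QR_pos hα i
    have hDle := DD_le hα i
    have hai := pa_one hα i
    have h1 : (QQ α (i + 1) : ℝ) / DD α i ≤ 2 * D / pa β (k + 1) := le_trans hq1 hθ2
    rw [div_le_div_iff₀ hDi (by linarith)] at h1
    have h2 : (pa β (k + 1) : ℝ) * QQ α (i + 1) ≤ (6 * D * pa α (i + 1)) * QQ α (i + 1) := by
      calc (pa β (k + 1) : ℝ) * QQ α (i + 1) = QQ α (i + 1) * pa β (k + 1) := by ring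
        _ ≤ 2 * D * DD α i := h1
        _ ≤ 2 * D * ((pa α (i + 1) + 2) * QQ α (i + 1)) :=
            mul_le_mul_of_nonneg_left hDle (by linarith)
        _ ≤ 2 * D * ((3 * pa α (i + 1)) * QQ α (i + 1)) := by
            apply mul_le_mul_of_nonneg_left _ (by linarith)
            apply mul_le_mul_of_nonneg_right _ (by linarith)
            linarith
        _ = _ := by ring
    exact le_of_mul_le_mul_right h2 (by linarith)
  · rw [← hi1]; exact e1
  · rw [← hi2]; exact e2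

end Pool.Agent.Lib.MP_7bb85c_nt
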