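import Pool.Agent.Lib.MP_7bb85c_nt.Un

/-! Sums of partial quotients: the constants depend only on the determinant. -/

set_option autoImplicit false

namespace Pool.Agent.Lib.MP_7bb85c_nt

open Filter

lemma NN_pos (D : ℕ) : 1 ≤ NN D := by
  unfold NN
  omega

lemma match' {α β : ℝ} (hα : Irrational α) (hβ : Irrational β) {A B G H : ℤ}
    (h : Rel α β A B G H) {D : ℕ} (hD : |A * H - B * G| = D) :
    ∃ (c : ℕ) (ι : ℕ → ℕ), ∀ k : ℕ, c ≤ k → ((8 * D : ℕ) : ℝ) < pa β (k + 1) →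
      ι k + 1 ≤ NN D * k + c ∧ (pa β (k + 1) : ℝ) ≤ ((6 * D : ℕ) : ℝ) * pa α (ι k + 1) ∧
        ∀ k' : ℕ, c ≤ k' → ((8 * D : ℕ) : ℝ) < pa β (k' + 1) → ι k' = ι k → k' = k := by
  classical
  obtain ⟨c, hone⟩ := one_le' hα hβ h hD
  choose! ι hι1 hι2 g hg1 hg2 using hone
  refine ⟨c, ι, ?_⟩
  have hlt : ∀ k, ((8 * D : ℕ) : ℝ) < pa β (k + 1) → ¬ ((pa β (k + 1) : ℝ) ≤ 8 * D) := by
    intro k hk
    push_cast at hk
    push Not
    exact hk
  intro k hc hk
  refine ⟨hι1 k hc (hlt k hk), ?_, ?_⟩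
  · push_cast
    exact hι2 k hc (hlt k hk)
  · intro k' hc' hk' heq
    have a1 := hg1 k hc (hlt k hk)
    have a2 := hg2 k hc (hlt k hk)
    have b1 := hg1 k' hc' (hlt k' hk')
    have b2 := hg2 k' hc' (hlt k' hk')
    rw [heq] at b1 b2
    have := par_inj h.symm.1 (PQ_coprime β k') (PQ_coprime β k) (QQ_pos hβ k').1 (QQ_pos hβ k).1
      b1 b2 a1 a2 rfl
    exact conv_inj hβ this.1 this.2

theorem sum' {α β : ℝ} (hα : Irrational α) (hβ : Irrational β) {A B G H : ℤ}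
    (h : Rel α β A B G H) {D : ℕ} (hD : |A * H - B * G| = D) :
    ∃ (c : ℕ) (ι : ℕ → ℕ), (∀ k : ℕ, c ≤ k → ((8 * D : ℕ) : ℝ) < pa β (k + 1) →
      ι k + 1 ≤ NN D * k + c ∧ (pa β (k + 1) : ℝ) ≤ ((6 * D : ℕ) : ℝ) * pa α (ι k + 1) ∧
        ∀ k' : ℕ, c ≤ k' → ((8 * D : ℕ) : ℝ) < pa β (k' + 1) → ι k' = ι k → k' = k) ∧
      ∀ n, SS β n ≤ ((14 * D : ℕ) : ℝ) * SS α (NN D * n + c) + c := by
  classical
  obtain ⟨c0, ι, hm⟩ := match' hα hβ h hD
  refine ⟨c0 + ⌈SS β c0⌉₊, ι, ?_, ?_⟩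
  · intro k hk1 hk2
    obtain ⟨m1, m2, m3⟩ := hm k (by omega) hk2
    refine ⟨by omega, m2, ?_⟩
    intro k' hk1' hk2' heq
    exact m3 k' (by omega) hk2' heq
  intro n
  set T := Finset.filter (fun k => c0 ≤ k ∧ ((8 * D : ℕ) : ℝ) < pa β (k + 1)) (Finset.range n)
    with hT
  have hinj : Set.InjOn ι T := by
    intro k hk k' hk' heq
    have hk1 := (Finset.mem_filter.mp hk).2
    have hk1' := (Finset.mem_filter.mp hk').2
    exact ((hm k' hk1'.1 hk1'.2).2.2 k hk1.1 hk1.2 heq)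
  have hDn : (0 : ℝ) ≤ D := Nat.cast_nonneg _
  have h1 : SS β n ≤ SS β c0 + n * (8 * D) + ∑ k ∈ T, (pa β (k + 1) : ℝ) := by
    have a1 : ∀ k ∈ Finset.range n, (pa β (k + 1) : ℝ) ≤
        (if k < c0 then (pa β (k + 1) : ℝ) else 0) + 8 * D +
          (if c0 ≤ k ∧ ((8 * D : ℕ) : ℝ) < pa β (k + 1) then (pa β (k + 1) : ℝ) else 0) := by
      intro k _
      have hp := pa_one hβ k
      by_cases hk1 : k < c0
      · rw [if_pos hk1, if_neg (by intro hcon; omega)]
        linarith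
      · rw [if_neg hk1]
        by_cases hk2 : ((8 * D : ℕ) : ℝ) < pa β (k + 1)
        · rw [if_pos ⟨by omega, hk2⟩]
          linarith
        · rw [if_neg (by intro hcon; exact hk2 hcon.2)]
          push Not at hk2
          push_cast at hk2
          linarith
    have a2 := Finset.sum_le_sum a1
    rw [Finset.sum_add_distrib, Finset.sum_add_distrib] at a2
    have a3 : ∑ k ∈ Finset.range n, (if k < c0 then (pa β (k + 1) : ℝ) else 0) ≤ SS β c0 := by
      rw [← Finset.sum_filter]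
      unfold SS
      apply Finset.sum_le_sum_of_subset_of_nonneg
      · intro x hx
        rw [Finset.mem_filter] at hx
        rw [Finset.mem_range]
        exact hx.2
      · intro i _ _
        have := pa_one hβ i
        linarith
    have a4 : ∑ _k ∈ Finset.range n, (8 * (D : ℝ)) = n * (8 * D) := by
      rw [Finset.sum_const, Finset.card_range, nsmul_eq_mul]
    have a5 : ∑ k ∈ Finset.range n, (if c0 ≤ k ∧ ((8 * D : ℕ) : ℝ) < pa β (k + 1) then
        (pa β (k + 1) : ℝ) else 0) = ∑ k ∈ T, (pa β (k + 1) : ℝ) := by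
      rw [hT, Finset.sum_filter]
    rw [a4, a5] at a2
    unfold SS at a3 ⊢
    linarith
  have h2 : ∑ k ∈ T, (pa β (k + 1) : ℝ) ≤ 6 * D * SS α (NN D * n + c0) := by
    calc ∑ k ∈ T, (pa β (k + 1) : ℝ) ≤ ∑ k ∈ T, 6 * D * (pa α (ι k + 1) : ℝ) := by
          apply Finset.sum_le_sum
          intro k hk
          have hk1 := (Finset.mem_filter.mp hk).2
          have := (hm k hk1.1 hk1.2).2.1
          push_cast at this
          exact this
      _ = 6 * D * ∑ k ∈ T, (pa α (ι k + 1) : ℝ) := by rw [Finset.mul_sum]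
      _ = 6 * D * ∑ i ∈ T.image ι, (pa α (i + 1) : ℝ) := by
          rw [Finset.sum_image hinj]
      _ ≤ 6 * D * SS α (NN D * n + c0) := by
          apply mul_le_mul_of_nonneg_left _ (by linarith)
          unfold SS
          apply Finset.sum_le_sum_of_subset_of_nonneg
          · intro x hx
            rw [Finset.mem_image] at hx
            obtain ⟨k, hk, rfl⟩ := hx
            rw [Finset.mem_filter, Finset.mem_range] at hk
            have := (hm k hk.2.1 hk.2.2).1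
            rw [Finset.mem_range]
            have h3 : NN D * k ≤ NN D * n := Nat.mul_le_mul_left _ (by omega)
            omega
          · intro i _ _
            have := pa_one hα i
            linarith
  have hle1 : NN D * n + c0 ≤ NN D * n + (c0 + ⌈SS β c0⌉₊) := by omega
  have hle2 : n ≤ NN D * n + (c0 + ⌈SS β c0⌉₊) := by
    have : 1 * n ≤ NN D * n := Nat.mul_le_mul_right n (NN_pos D)
    omega
  set S := SS α (NN D * n + (c0 + ⌈SS β c0⌉₊)) with hS
  have h3 : (n : ℝ) ≤ S := le_trans (le_SS hα n) (SS_mono hα hle2)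
  have h4 : SS α (NN D * n + c0) ≤ S := SS_mono hα hle1
  have h5 : SS β c0 ≤ (⌈SS β c0⌉₊ : ℝ) := Nat.le_ceil _
  calc SS β n ≤ SS β c0 + n * (8 * D) + 6 * D * SS α (NN D * n + c0) := by linarith
    _ ≤ SS β c0 + S * (8 * D) + 6 * D * S := by
        have b1 : (n : ℝ) * (8 * D) ≤ S * (8 * D) := mul_le_mul_of_nonneg_right h3 (by linarith)
        have b2 : 6 * (D : ℝ) * SS α (NN D * n + c0) ≤ 6 * D * S :=
          mul_le_mul_of_nonneg_left h4 (by linarith)
        linarith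
    _ = 14 * D * S + SS β c0 := by ring
    _ ≤ ((14 * D : ℕ) : ℝ) * S + ((c0 + ⌈SS β c0⌉₊ : ℕ) : ℝ) := by
        push_cast
        have : (0 : ℝ) ≤ (c0 : ℝ) := Nat.cast_nonneg _
        linarith

/-- The asymptotic constant in Q1's bound. -/
theorem quad' {α β : ℝ} (hα : Irrational α) {E M c : ℕ} (hM : 1 ≤ M)
    (h : ∀ n, SS β n ≤ E * SS α (M * n + c) + c) {K : ℝ}
    (hK : ∀ᶠ n : ℕ in atTop, SS α n ≤ K * (n : ℝ) ^ 2) :
    ∀ᶠ n : ℕ in atTop, SS β n ≤ ((E * (M + 1) ^ 2 + 1 : ℕ) : ℝ) * (K * (n : ℝ) ^ 2) := by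
  have hKpos : 0 < K := by
    obtain ⟨n, hn1, hn2⟩ := (hK.and (eventually_ge_atTop 1)).exists
    have h1 := le_SS hα n
    have h2 : (1 : ℝ) ≤ n := by exact_mod_cast hn2
    by_contra hcon
    push Not at hcon
    nlinarith [sq_nonneg (n : ℝ)]
  rw [eventually_atTop] at hK
  obtain ⟨N, hN⟩ := hK
  obtain ⟨N2, hN2⟩ : ∃ N2 : ℕ, (c : ℝ) / K ≤ N2 := exists_nat_ge _
  rw [eventually_atTop]
  refine ⟨max (max c N2) (max N 1), ?_⟩
  intro n hn
  have hn1 : (1 : ℝ) ≤ n := by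
    exact_mod_cast le_trans (le_trans (le_max_right _ _) (le_max_right _ _)) hn
  have hnN : N ≤ n := le_trans (le_trans (le_max_left _ _) (le_max_right _ _)) hn
  have hnc : c ≤ n := le_trans (le_trans (le_max_left _ _) (le_max_left _ _)) hn
  have hn2 : (N2 : ℝ) ≤ n := by
    exact_mod_cast le_trans (le_trans (le_max_right _ _) (le_max_left _ _)) hn
  rw [div_le_iff₀ hKpos] at hN2
  have h1 := h n
  have h2 : N ≤ M * n + c := by
    have : 1 * n ≤ M * n := Nat.mul_le_mul_right n hM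
    omega
  have h3 := hN _ h2
  have h4 : ((M * n + c : ℕ) : ℝ) ≤ (M + 1) * n := by
    have : (c : ℝ) ≤ n := by exact_mod_cast hnc
    push_cast
    linarith
  have h5 : ((M * n + c : ℕ) : ℝ) ^ 2 ≤ ((M + 1) * n) ^ 2 :=
    pow_le_pow_left₀ (Nat.cast_nonneg _) h4 2
  have h6 : (c : ℝ) ≤ K * (n : ℝ) ^ 2 := by
    calc (c : ℝ) ≤ N2 * K := hN2
      _ ≤ n * K := mul_le_mul_of_nonneg_right hn2 hKpos.le
      _ ≤ (n : ℝ) ^ 2 * K := mul_le_mul_of_nonneg_right (by nlinarith) hKpos.le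
      _ = K * (n : ℝ) ^ 2 := by ring
  have hEn : (0 : ℝ) ≤ E := Nat.cast_nonneg _
  calc SS β n ≤ E * SS α (M * n + c) + c := h1
    _ ≤ E * (K * ((M * n + c : ℕ) : ℝ) ^ 2) + c := by
        have := mul_le_mul_of_nonneg_left h3 hEn
        linarith
    _ ≤ E * (K * ((M + 1) * n) ^ 2) + K * (n : ℝ) ^ 2 := by
        have := mul_le_mul_of_nonneg_left (mul_le_mul_of_nonneg_left h5 hKpos.le) hEn
        linarith
    _ = _ := by push_cast; ring

end Pool.Agent.Lib.MP_7bb85c_nt
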