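import Pool.Agent.Lib.MP_7bb85c_nt.Un2

/-! The final form with explicit constants. -/

set_option autoImplicit false

namespace Pool.Agent.Lib.MP_7bb85c_nt

open Filter

/-- The comparison with explicit constants. -/
theorem explicit {α : ℝ} (hα : Irrational α) {A B G H : ℤ} {D : ℕ} (hD : |A * H - B * G| = D)
    (hD0 : 0 < D) :
    ∃ (c : ℕ) (ι : ℕ → ℕ),
      (∀ k : ℕ, c ≤ k → 8 * (D : ℝ) < pa ((A * α + B) / (G * α + H)) (k + 1) →
        ι k ≤ (18 + 6 * Nat.log 2 D) * k + c ∧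
        (pa ((A * α + B) / (G * α + H)) (k + 1) : ℝ) ≤ 6 * D * pa α (ι k + 1) ∧
        ∀ k' : ℕ, c ≤ k' → 8 * (D : ℝ) < pa ((A * α + B) / (G * α + H)) (k' + 1) →
          ι k' = ι k → k' = k) ∧
      (∀ n, SS ((A * α + B) / (G * α + H)) n ≤
        14 * D * SS α ((18 + 6 * Nat.log 2 D) * n + c) + c) ∧
      (∀ K : ℝ, (∀ᶠ n : ℕ in atTop, SS α n ≤ K * (n : ℝ) ^ 2) →
        ∀ᶠ n : ℕ in atTop, SS ((A * α + B) / (G * α + H)) n ≤
          15 * D * (19 + 6 * Nat.log 2 D) ^ 2 * (K * (n : ℝ) ^ 2)) := by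
  have hne : A * H - B * G ≠ 0 := by
    intro h0
    rw [h0, abs_zero] at hD
    have : (D : ℤ) = 0 := hD.symm
    omega
  have hrel := rel_div hα hne
  have hβ := irr_div hα hrel
  obtain ⟨c, ι, h1, h2⟩ := sum' hα hβ hrel hD
  have hDR : (1 : ℝ) ≤ D := by exact_mod_cast hD0
  have h3 : ∀ n, SS ((A * α + B) / (G * α + H)) n ≤
      14 * D * SS α ((18 + 6 * Nat.log 2 D) * n + c) + c := by
    intro n
    have := h2 n
    push_cast at this
    exact this
  refine ⟨c, ι, ?_, h3, ?_⟩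
  · intro k hk1 hk2
    obtain ⟨m1, m2, m3⟩ := h1 k hk1 (by push_cast; exact hk2)
    refine ⟨?_, ?_, ?_⟩
    · unfold NN at m1
      omega
    · push_cast at m2
      exact m2
    · intro k' hk1' hk2' heq
      exact m3 k' hk1' (by push_cast; exact hk2') heq
  · intro K hK
    have h5 := quad' hα (NN_pos D) h2 hK
    have hKpos : 0 < K := by
      obtain ⟨n, hn1, hn2⟩ := (hK.and (eventually_ge_atTop 1)).exists
      have h1 := le_SS hα n
      have h2 : (1 : ℝ) ≤ n := by exact_mod_cast hn2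
      by_contra hcon
      push Not at hcon
      nlinarith [sq_nonneg (n : ℝ)]
    filter_upwards [h5] with n hn
    refine le_trans hn ?_
    apply mul_le_mul_of_nonneg_right _ (by positivity)
    have e0 : ((NN D : ℕ) : ℝ) + 1 = 19 + 6 * (Nat.log 2 D : ℝ) := by
      unfold NN
      push_cast
      ring
    push_cast
    rw [e0]
    have hl : (0 : ℝ) ≤ (Nat.log 2 D : ℝ) := Nat.cast_nonneg _
    have e2 : (1 : ℝ) ≤ D * (19 + 6 * (Nat.log 2 D : ℝ)) ^ 2 := by
      have : (1 : ℝ) ≤ (19 + 6 * (Nat.log 2 D : ℝ)) ^ 2 := by nlinarith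
      nlinarith
    linarith

end Pool.Agent.Lib.MP_7bb85c_nt
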