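import Pool.Agent.Lib.MP_7bb85c_nt.Idx

/-! Units of cubic fields: roots of polynomials X³ + b X² + c X - 1. -/

set_option autoImplicit false
namespace Pool.Agent.Lib.MP_7bb85c_nt
open NumberField NumberField.Units

lemma deg_three (F : IntermediateField ℚ ℝ) (hF : Module.finrank ℚ F = 3) {θ : ℝ} (hθ : θ ∈ F)
    (hirr : Irrational θ) : (minpoly ℚ θ).natDegree = 3 := by
  have hfin : FiniteDimensional ℚ F := Module.finite_of_finrank_pos (by rw [hF]; norm_num)
  set a : F := ⟨θ, hθ⟩ with ha
  have hint : IsIntegral ℚ a := Algebra.IsIntegral.isIntegral a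
  have h1 := minpoly.degree_dvd hint
  rw [hF] at h1
  have h2 : minpoly ℚ θ = minpoly ℚ a :=
    minpoly.algebraMap_eq (B := F) (B' := ℝ) (algebraMap F ℝ).injective a
  rw [h2]
  rcases (Nat.dvd_prime Nat.prime_three).mp h1 with h3 | h3
  · exfalso
    have h4 := minpoly.natDegree_eq_one_iff.mp h3
    obtain ⟨q, hq⟩ := h4
    apply hirr
    refine ⟨q, ?_⟩
    have : ((algebraMap ℚ F q : F) : ℝ) = θ := by rw [hq]
    rw [← this]
    rfl
  · exact h3

lemma exists_unit (F : IntermediateField ℚ ℝ) (hF : Module.finrank ℚ F = 3) [NumberField F] :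
    ∃ u : (𝓞 F)ˣ, u ∉ torsion F := by
  have hcard : 2 ≤ Fintype.card (InfinitePlace F) := by
    have h1 := InfinitePlace.card_add_two_mul_card_eq_rank F
    have h2 := InfinitePlace.card_eq_nrRealPlaces_add_nrComplexPlaces F
    rw [hF] at h1
    omega
  have hrank : 0 < rank F := by
    unfold rank
    omega
  refine ⟨fundSystem F ⟨0, hrank⟩, ?_⟩
  intro hmem
  have h1 := logEmbedding_fundSystem F ⟨0, hrank⟩
  rw [(dirichletUnitTheorem.logEmbedding_eq_zero_iff).mpr hmem] at h1
  have h2 : basisUnitLattice F ⟨0, hrank⟩ = 0 := by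
    apply Subtype.ext
    exact h1.symm
  exact (basisUnitLattice F).ne_zero ⟨0, hrank⟩ h2

/-- The real number `θ` of a unit which is not a root of unity is irrational. -/
lemma unit_irr (F : IntermediateField ℚ ℝ) (hF : Module.finrank ℚ F = 3) [NumberField F]
    {u : (𝓞 F)ˣ} (hu : u ∉ torsion F) : Irrational (((u : 𝓞 F) : F) : ℝ) := by
  rintro ⟨q, hq⟩
  have h1 : algebraMap ℚ F q = ((u : 𝓞 F) : F) := by
    apply Subtype.ext
    rw [← hq]
    rfl
  have h2 : |Algebra.norm ℚ (((u : 𝓞 F) : F))| = 1 := by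
    have := NumberField.isUnit_iff_norm.mp u.isUnit
    rw [RingOfIntegers.coe_norm] at this
    exact this
  rw [← h1, Algebra.norm_algebraMap, hF, abs_pow] at h2
  have h3 : |q| = 1 := by
    have h4 : |q| ≤ 1 := by
      by_contra hcon
      push Not at hcon
      have := one_lt_pow₀ hcon (n := 3) (by norm_num)
      linarith
    have h5 : 1 ≤ |q| := by
      by_contra hcon
      push Not at hcon
      have := pow_lt_one₀ (abs_nonneg q) hcon (n := 3) (by norm_num)
      linarith
    linarith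
  apply hu
  rcases eq_or_eq_neg_of_abs_eq h3 with h6 | h6
  · have : u = 1 := by
      apply Units.ext
      apply RingOfIntegers.ext
      rw [← h1, h6]
      simp
    rw [this]
    exact one_mem _
  · have : u = -1 := by
      apply Units.ext
      apply RingOfIntegers.ext
      rw [← h1, h6]
      simp
    rw [this]
    exact neg_one_mem_torsion

/-- A unit is a root of a polynomial `X³ + b X² + c X + e`, `e = 1` or `e = -1`. -/
lemma unit_root (F : IntermediateField ℚ ℝ) (hF : Module.finrank ℚ F = 3) [NumberField F]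
    (u : (𝓞 F)ˣ) : ∃ b c e : ℤ, (e = 1 ∨ e = -1) ∧
      ((((u : 𝓞 F) : F) : ℝ)) ^ 3 + b * ((((u : 𝓞 F) : F) : ℝ)) ^ 2 +
        c * ((((u : 𝓞 F) : F) : ℝ)) + e = 0 := by
  have hrk : Module.finrank ℤ (𝓞 F) = 3 := by rw [RingOfIntegers.rank, hF]
  set T : (𝓞 F) →ₗ[ℤ] (𝓞 F) := Algebra.lmul ℤ (𝓞 F) (u : 𝓞 F) with hT
  have hdeg : T.charpoly.natDegree = 3 := by rw [LinearMap.charpoly_natDegree, hrk]
  have hmon : T.charpoly.coeff 3 = 1 := by
    have := T.charpoly_monic
    unfold Polynomial.Monic Polynomial.leadingCoeff at this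
    rw [hdeg] at this
    exact this
  have hcoef : IsUnit (T.charpoly.coeff 0) := by
    have h1 := LinearMap.det_eq_sign_charpoly_coeff T
    rw [hrk] at h1
    have h2 : IsUnit (LinearMap.det T) := by
      have h3 : IsUnit T := by
        rw [hT]
        exact u.isUnit.map (Algebra.lmul ℤ (𝓞 F))
      exact h3.map (LinearMap.det)
    rw [h1] at h2
    exact isUnit_of_mul_isUnit_right h2
  have hroot : Polynomial.aeval (u : 𝓞 F) T.charpoly = 0 := by
    have h1 := T.aeval_self_charpoly
    have h2 : Polynomial.aeval T T.charpoly = Algebra.lmul ℤ (𝓞 F)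
        (Polynomial.aeval (u : 𝓞 F) T.charpoly) := by
      rw [hT, Polynomial.aeval_algHom_apply]
    rw [h2] at h1
    exact (Algebra.lmul_injective (R := ℤ) (A := 𝓞 F)) (by rw [h1, map_zero])
  refine ⟨T.charpoly.coeff 2, T.charpoly.coeff 1, T.charpoly.coeff 0,
    Int.isUnit_iff.mp hcoef, ?_⟩
  rw [Polynomial.aeval_eq_sum_range, hdeg] at hroot
  simp only [Finset.sum_range_succ, Finset.sum_range_zero, zero_add, hmon] at hroot
  set φ : 𝓞 F →+* ℝ := (algebraMap F ℝ).comp (algebraMap (𝓞 F) F) with hφ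
  have h5 := congrArg φ hroot
  simp only [map_add, map_mul, map_intCast, map_pow, map_zero, zsmul_eq_mul, pow_zero, pow_one,
    mul_one, Int.cast_one, one_mul] at h5
  have h6 : φ (u : 𝓞 F) = ((((u : 𝓞 F) : F) : ℝ)) := rfl
  rw [h6] at h5
  linarith

/-- Every cubic subfield of the real numbers contains an irrational root of some
`X³ + b X² + c X - 1`. -/
theorem exists_root (F : IntermediateField ℚ ℝ) (hF : Module.finrank ℚ F = 3) :
    ∃ θ ∈ F, Irrational θ ∧ (minpoly ℚ θ).natDegree = 3 ∧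
      ∃ b c : ℤ, θ ^ 3 + b * θ ^ 2 + c * θ - 1 = 0 := by
  have hfin : FiniteDimensional ℚ F := Module.finite_of_finrank_pos (by rw [hF]; norm_num)
  have hNF : NumberField F := { to_charZero := inferInstance, to_finiteDimensional := hfin }
  obtain ⟨u, hu⟩ := exists_unit F hF
  have hirr := unit_irr F hF hu
  obtain ⟨b, c, e, he, hroot⟩ := unit_root F hF u
  set θ : ℝ := ((((u : 𝓞 F) : F) : ℝ)) with hθ
  have hmem : θ ∈ F := (((u : 𝓞 F) : F)).2
  rcases he with he | he
  · refine ⟨-θ, F.neg_mem hmem, hirr.neg, deg_three F hF (F.neg_mem hmem) hirr.neg, -b, c, ?_⟩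
    rw [he] at hroot
    push_cast at hroot ⊢
    linarith
  · refine ⟨θ, hmem, hirr, deg_three F hF hmem hirr, b, c, ?_⟩
    rw [he] at hroot
    push_cast at hroot
    linarith

/-- Q1's bound for all real cubic irrational numbers follows from the bound for the roots of
`X³ + b X² + c X - 1`. -/
theorem units_iff :
    (∀ α : ℝ, (minpoly ℚ α).natDegree = 3 → Quadratic α) ↔
      ∀ (θ : ℝ) (b c : ℤ), θ ^ 3 + b * θ ^ 2 + c * θ - 1 = 0 → (minpoly ℚ θ).natDegree = 3 →
        Quadratic θ := by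
  constructor
  · intro h θ b c _ hd
    exact h θ hd
  · intro h
    rw [fields_iff]
    intro F hF
    obtain ⟨θ, hθ, hirr, hd, b, c, hroot⟩ := exists_root F hF
    exact ⟨θ, hθ, hirr, h θ b c hroot hd⟩

end Pool.Agent.Lib.MP_7bb85c_nt
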